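import Mathlib
import Pool.Graph.R_seed8.TH165.ACC.Germ
import Pool.Graph.R_seed8.TH165.ACC.Resi

/-!
# Lower semicontinuity of minimal log discrepancies on nondegenerate complete intersections:
# statements of two more leaves
-/

set_option autoImplicit false

namespace Pool.Agent.H895.SC

open MvPolynomial
open Pool.Agent.TH165.ACC (pr ex)

/-- SPLIT. -/
def S_SPLIT : Prop := ∀ {R : Type} [CommRing R] [Algebra ℂ R], Algebra.FiniteType ℂ R →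
  ∀ (P : R →ₐ[ℂ] ℂ) {M : Type} [Field M] [Algebra ℂ M] (ev : R →ₐ[ℂ] M),
  (∀ f, ev f = 0 → P f = 0) → ∀ κ : IntermediateField ℂ M, (∀ f, ev f ∈ κ) →
  ∀ {Ω : Type} [Field Ω] [Algebra ℂ Ω] [Algebra M Ω] [IsScalarTower ℂ M Ω] {σ : Type} [Finite σ]
  (c : σ → Ω), AlgebraicIndependent κ c →
  ∃ (S0 : Subalgebra ℂ Ω) (hev : ∀ f, algebraMap M Ω (ev f) ∈ S0) (hc : ∀ x, c x ∈ S0)
    (φ : S0 →ₐ[ℂ] MvPolynomial σ ℂ), S0.FG ∧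
    (∀ f, φ ⟨algebraMap M Ω (ev f), hev f⟩ = C (P f)) ∧ ∀ x, φ ⟨c x, hc x⟩ = X x

/-- CNT. -/
def S_CNT : Prop := ∀ {k : Type} [Field k] [Algebra ℂ k] {n N e : ℕ} (ζ : Fin n → k),
  (∀ l, ζ l ≠ 0) → ∀ (E : Fin N → Fin n → ℤ) (w0 : Fin n → ℤ) (J : Finset (Fin N)),
  (∀ (b : Fin N → ℚ) (c : ℚ), (∀ k, ∑ i ∈ J, b i * (E i k : ℚ) + c * (w0 k : ℚ) = 0) →
    ∀ i ∈ J, b i = 0) →
  ∀ A : Finset (Fin n → ℤ), A.Nonempty → (∀ m ∈ A, pr m w0 = 0) →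
  (∀ m ∈ A, ∀ m' ∈ A, ∀ i ∈ J, pr m (E i) = pr m' (E i)) →
  ∀ c : Fin e → (Fin n → ℤ) → k,
  (AlgebraicIndependent ℂ fun x : Fin e × {m // m ∈ A} => c x.1 x.2.1) →
  (∀ i, ∑ m ∈ A, c i m * ∏ l, ζ l ^ m l = 0) →
  ∀ {ι : Type} [Fintype ι] (H : ι → MvPolynomial (Fin n) ℂ), (∀ j, aeval ζ (H j) = 0) →
  (LinearIndependent k fun (j : ι) (i : Fin n) => aeval ζ (X i * pderiv i (H j))) →
  (∀ j, ∃ m0 : ℤ, ∀ t ∈ (H j).support, pr (ex t) w0 = m0) →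
  (∀ j, ∀ i ∈ J, ∃ m0 : ℤ, ∀ t ∈ (H j).support, pr (ex t) (E i) = m0) →
  Fintype.card ι + J.card + e + (if w0 = 0 then 0 else 1) ≤ n

end Pool.Agent.H895.SC
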