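import Mathlib
import Pool.Graph.R_seed8.TH165.ACC.Germ
import Pool.Graph.R_seed8.H436R3.Fol.Defs

/-!
# Lower semicontinuity of minimal log discrepancies on nondegenerate complete intersections:
# statements of the leaves
-/

set_option autoImplicit false

namespace Pool.Agent.H895.SC

open MvPolynomial
open Pool.Agent.H436R3.Fol (DVal)
open Pool.Agent.TH165.ACC (pr Cn)

/-- ULTRA. -/
def S_ULTRA : Prop := ∀ {R : Type} [CommRing R] [Algebra ℂ R] (P : R →ₐ[ℂ] ℂ) {n : ℕ} {I : Type}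
  (x : I → R →ₐ[ℂ] ℂ) (K : I → Type) [∀ i, Field (K i)] [∀ i, Algebra ℂ (K i)]
  (ξ : ∀ i, Fin n → K i), (∀ i l, ξ i l ≠ 0) → (∀ f : R, P f ≠ 0 → ∃ i, x i f ≠ 0) →
  ∀ D : Finset (Fin n), (∀ i, AlgebraicIndependent ℂ fun l : D => ξ i l) →
  ∃ (M : Type) (_ : Field M) (_ : Algebra ℂ M) (ev : R →ₐ[ℂ] M) (η : Fin n → M),
    (∀ l, η l ≠ 0) ∧ (∀ f, ev f = 0 → P f = 0) ∧
    (∀ q : MvPolynomial (Fin n) ℂ, (∀ i, aeval (ξ i) q = 0) → aeval η q = 0) ∧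
    (∀ (m : Fin n → ℤ) (f : R), (∀ i, ∏ l, ξ i l ^ m l = algebraMap ℂ (K i) (x i f)) →
      ∏ l, η l ^ m l = ev f) ∧
    ∃ κ : IntermediateField ℂ M, (∀ f, ev f ∈ κ) ∧ AlgebraicIndependent κ fun l : D => η l

/-- GP. -/
def S_GP : Prop := ∀ {M : Type} [Field M] [Algebra ℂ M] (κ : IntermediateField ℂ M) {n : ℕ}
  (η : Fin n → M), (∀ l, η l ≠ 0) → ∀ D : Finset (Fin n),
  (AlgebraicIndependent κ fun l : D => η l) → ∀ (w0 : Fin n → ℤ) (A : Finset (Fin n → ℤ)),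
  0 ∈ A →
  (∀ u : Fin n → M, (∀ m ∈ A, ∑ l, (m l : M) * u l = 0) → ∃ c : M, ∀ l, u l = c * (w0 l : M)) →
  ∀ e : ℕ, e = D.card - (if w0 = 0 then 0 else 1) →
  ∃ (Ω : Type) (_ : Field Ω) (_ : Algebra ℂ Ω) (_ : Algebra M Ω) (_ : IsScalarTower ℂ M Ω)
    (c : Fin e → A → Ω),
    (∀ i, ∑ m : A, c i m * algebraMap M Ω (∏ l, η l ^ (m.1 l)) = 0) ∧
    AlgebraicIndependent κ fun x : Fin e × A => c x.1 x.2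

/-- DV. -/
def S_DV : Prop := ∀ {Ω : Type} [Field Ω] [Algebra ℂ Ω] (S : Subalgebra ℂ Ω), S.FG →
  ∀ 𝔭 : Ideal S, 𝔭.IsPrime → 𝔭 ≠ ⊥ → ∀ Z : Finset Ω,
  ∃ (L : IntermediateField ℂ Ω) (h : ∀ f ∈ S, f ∈ L) (μ : DVal L), (∀ z ∈ Z, z ∈ L) ∧
    ∀ f : S, μ.Reg ⟨f, h f f.2⟩ ∧ (μ.Pos ⟨f, h f f.2⟩ ↔ f ∈ 𝔭)

/-- LPA. -/
def S_LPA : Prop := ∀ {n N : ℕ} (E : Fin N → Fin n → ℤ) (w0 : Fin n → ℤ)
  (B : Finset (Fin n → ℤ)), (∀ m ∈ B, pr m w0 = 0) →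
  ∃ A : Finset (Fin n → ℤ), B ⊆ A ∧ 0 ∈ A ∧ (∀ m ∈ A, pr m w0 = 0) ∧
    ∀ u : Fin n → ℤ, (∀ m ∈ Cn E, pr m w0 = 0 → 0 ≤ pr m u) →
      ∃ (J : Finset (Fin N)) (a : Fin N → ℚ) (lam : ℚ), (∀ i ∈ J, 0 < a i) ∧
        (∀ k, (u k : ℚ) = ∑ i ∈ J, a i * (E i k : ℚ) + lam * (w0 k : ℚ)) ∧
        (∀ (b : Fin N → ℚ) (c : ℚ), (∀ k, ∑ i ∈ J, b i * (E i k : ℚ) + c * (w0 k : ℚ) = 0) →
          ∀ i ∈ J, b i = 0) ∧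
        ∀ m ∈ A, ∀ m' ∈ A, (∀ m'' ∈ A, pr m u ≤ pr m'' u) → (∀ m'' ∈ A, pr m' u ≤ pr m'' u) →
          ∀ i ∈ J, pr m (E i) = pr m' (E i)

end Pool.Agent.H895.SC
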