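import Mathlib
import Pool.Agent.H895.SC.Stm
import Pool.Graph.R_seed8.W497.Mld.Dvr
import Pool.Graph.R_seed8.TH126.C8_FG

/-!
# DV: existence of a discrete valuation with a given centre
-/

set_option autoImplicit false

namespace Pool.Agent.H895.SC

open Pool.Agent.H436R3.Fol (DVal)

namespace DVaux

variable {K : Type} [Field K] [Algebra ℂ K]

/-- Chevalley -/
theorem exists_vs (S : Subalgebra ℂ K) (𝔭 : Ideal S) [𝔭.IsPrime] :
    ∃ V : ValuationSubring K, ∀ f : S, (f : K) ∈ V ∧ (f ∈ 𝔭 ↔ V.valuation (f : K) < 1) := by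
  have hu : ∀ y : 𝔭.primeCompl, IsUnit ((S.val : S →+* K) y) := by
    intro y
    refine isUnit_iff_ne_zero.2 fun h => ?_
    have h1 : (y : S) = 0 := Subtype.ext h
    exact y.2 (h1 ▸ 𝔭.zero_mem)
  let φ : Localization.AtPrime 𝔭 →+* K := IsLocalization.lift (M := 𝔭.primeCompl) hu
  have hφ : ∀ f : S, φ (algebraMap S (Localization.AtPrime 𝔭) f) = (f : K) := fun f =>
    IsLocalization.lift_eq hu f
  obtain ⟨V, hV, hloc⟩ := IsLocalRing.exists_factor_valuationRing φ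
  refine ⟨V, fun f => ?_⟩
  have hf : (f : K) ∈ V := by
    rw [← hφ]
    exact hV _
  refine ⟨hf, ?_⟩
  have h1 : f ∈ 𝔭 ↔ algebraMap S (Localization.AtPrime 𝔭) f ∈
      IsLocalRing.maximalIdeal (Localization.AtPrime 𝔭) :=
    (IsLocalization.AtPrime.to_map_mem_maximal_iff (Localization.AtPrime 𝔭) 𝔭 f).symm
  have h2 : V.valuation (f : K) < 1 ↔ (⟨(f : K), hf⟩ : V) ∈ IsLocalRing.maximalIdeal V :=
    (V.valuation_lt_one_iff ⟨(f : K), hf⟩).symm
  rw [h1, h2, IsLocalRing.mem_maximalIdeal, IsLocalRing.mem_maximalIdeal, mem_nonunits_iff,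
    mem_nonunits_iff, not_iff_not]
  have h3 : (φ.codRestrict V.toSubring hV) (algebraMap S (Localization.AtPrime 𝔭) f) =
      ⟨(f : K), hf⟩ := Subtype.ext (hφ f)
  constructor
  · intro h
    have := h.map (φ.codRestrict V.toSubring hV)
    rw [h3] at this
    exact this
  · intro h
    refine hloc.map_nonunit _ ?_
    rw [h3]
    exact h

/-- prime ideals minimal over a principal ideal have height at most one -/
theorem height_one {R : Type} [CommRing R] [IsDomain R] [IsNoetherianRing R] (x : R) (Q : Ideal R)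
    (hQ : Q ∈ (Ideal.span {x}).minimalPrimes) (Q' : Ideal R) (hQ' : Q'.IsPrime) (hle : Q' ≤ Q) :
    Q' = ⊥ ∨ Q' = Q := by
  by_contra hcon
  push Not at hcon
  have hQp : Q.IsPrime := hQ.1.1
  have h1 := Ideal.height_le_one_of_isPrincipal_of_mem_minimalPrimes (Ideal.span {x}) Q hQ
  have h2 := Ideal.height_add_one_le_of_lt_of_isPrime (lt_of_le_of_ne hle hcon.2)
  have h3 : (⊥ : Ideal R) < Q' := bot_lt_iff_ne_bot.2 hcon.1
  haveI : (⊥ : Ideal R).IsPrime := Ideal.isPrime_bot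
  have h4 := Ideal.height_add_one_le_of_lt_of_isPrime h3
  rw [Ideal.height_bot, zero_add] at h4
  have h5 : (1 : ℕ∞) + 1 ≤ 1 := (add_le_add_left h4 1).trans (h2.trans h1)
  exact absurd h5 (by decide)

theorem core [Algebra.EssFiniteType ℂ K] (S : Subalgebra ℂ K) (hS : S.FG) (𝔭 : Ideal S)
    (hp : 𝔭.IsPrime) (hp0 : 𝔭 ≠ ⊥) :
    ∃ μ : DVal K, ∀ f : S, μ.Reg (f : K) ∧ (μ.Pos (f : K) ↔ f ∈ 𝔭) := by
  classical
  obtain ⟨V, hV⟩ := exists_vs S 𝔭
  obtain ⟨G, hG⟩ := IntermediateField.fg_top ℂ K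
  have hft : Algebra.FiniteType ℂ S := (Subalgebra.fg_iff_finiteType _).1 hS
  have hnoe : IsNoetherianRing S := Algebra.FiniteType.isNoetherianRing ℂ S
  obtain ⟨T, hT⟩ := (isNoetherianRing_iff_ideal_fg S).1 hnoe 𝔭
  have hT0 : ∃ t ∈ T, t ≠ 0 := by
    by_contra hcon
    push Not at hcon
    apply hp0
    rw [← hT, Ideal.span_eq_bot]
    exact hcon
  obtain ⟨t0, ht0T, ht0⟩ := hT0
  obtain ⟨x, hxT, hmax⟩ := T.exists_max_image (fun t => V.valuation (t : K)) ⟨t0, ht0T⟩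
  have hx0 : (x : K) ≠ 0 := by
    intro h
    have h1 := hmax t0 ht0T
    rw [h, map_zero, le_zero_iff, map_eq_zero] at h1
    exact ht0 (Subtype.ext h1)
  have hxp : x ∈ 𝔭 := by
    rw [← hT]
    exact Ideal.subset_span hxT
  obtain ⟨B, hB⟩ := hS
  let B₂ : Finset K := T.image fun t : S => (t : K) / (x : K)
  let B₃ : Finset K := (B ∪ B₂) ∪ G.image fun g => if g ∈ V then g else g⁻¹
  let S₃ : Subalgebra ℂ K := Algebra.adjoin ℂ (B₃ : Set K)
  have hCV : ∀ c : ℂ, algebraMap ℂ K c ∈ V := fun c => (hV (algebraMap ℂ S c)).1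
  have hB₃V : ∀ f ∈ B₃, f ∈ V := by
    intro f hf
    rw [Finset.mem_union, Finset.mem_union] at hf
    rcases hf with (hf | hf) | hf
    · have h1 : f ∈ S := by
        rw [← hB]
        exact Algebra.subset_adjoin hf
      exact (hV ⟨f, h1⟩).1
    · obtain ⟨t, ht, rfl⟩ := Finset.mem_image.1 hf
      rw [← V.valuation_le_one_iff, map_div₀]
      have h1 := hmax t ht
      have h2 : 0 < V.valuation (x : K) := by
        rw [zero_lt_iff, Valuation.ne_zero_iff]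
        exact hx0
      exact (div_le_one₀ h2).2 h1
    · obtain ⟨g, hg, rfl⟩ := Finset.mem_image.1 hf
      split_ifs with h
      · exact h
      · exact (V.mem_or_inv_mem g).resolve_left h
  have hS₃V : ∀ f ∈ S₃, f ∈ V := by
    intro f hf
    refine Algebra.adjoin_induction (p := fun y _ => y ∈ V) ?_ ?_ ?_ ?_ hf
    · intro y hy
      exact hB₃V y hy
    · exact hCV
    · intro y z _ _ hy hz
      exact V.add_mem _ _ hy hz
    · intro y z _ _ hy hz
      exact V.mul_mem _ _ hy hz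
  have hB₃S : ∀ f ∈ B₃, f ∈ S₃ := fun f hf => Algebra.subset_adjoin hf
  have hSS₃ : S ≤ S₃ := by
    rw [← hB]
    refine Algebra.adjoin_le fun f hf => hB₃S f ?_
    simp only [B₃, Finset.mem_union]
    exact Or.inl (Or.inl hf)
  have hfrac₃ : ∀ f : K, ∃ a b : K, a ∈ S₃ ∧ b ∈ S₃ ∧ b ≠ 0 ∧ f * b = a := by
    intro f
    have hf : f ∈ IntermediateField.adjoin ℂ (G : Set K) := by
      rw [hG]
      exact IntermediateField.mem_top
    refine IntermediateField.adjoin_induction ℂ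
      (p := fun y _ => ∃ a b : K, a ∈ S₃ ∧ b ∈ S₃ ∧ b ≠ 0 ∧ y * b = a) ?_ ?_ ?_ ?_ ?_ hf
    · intro g hg
      have h1 : (if g ∈ V then g else g⁻¹) ∈ S₃ := hB₃S _ (by
        simp only [B₃, Finset.mem_union, Finset.mem_image]
        exact Or.inr ⟨g, hg, rfl⟩)
      split_ifs at h1 with h
      · exact ⟨g, 1, h1, S₃.one_mem, one_ne_zero, mul_one g⟩
      · have hg0 : g ≠ 0 := by
          rintro rfl
          exact h V.zero_mem
        exact ⟨1, g⁻¹, S₃.one_mem, h1, inv_ne_zero hg0, mul_inv_cancel₀ hg0⟩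
    · intro c
      exact ⟨algebraMap ℂ K c, 1, S₃.algebraMap_mem c, S₃.one_mem, one_ne_zero, mul_one _⟩
    · rintro y z _ _ ⟨a, b, ha, hb, hb0, h1⟩ ⟨a', b', ha', hb', hb0', h2⟩
      refine ⟨a * b' + a' * b, b * b', S₃.add_mem (S₃.mul_mem ha hb') (S₃.mul_mem ha' hb),
        S₃.mul_mem hb hb', mul_ne_zero hb0 hb0', ?_⟩
      rw [← h1, ← h2]
      ring
    · rintro y _ ⟨a, b, ha, hb, hb0, h1⟩
      by_cases hy : y = 0
      · exact ⟨0, 1, S₃.zero_mem, S₃.one_mem, one_ne_zero, by rw [hy]; simp⟩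
      · refine ⟨b, a, hb, ha, ?_, ?_⟩
        · rw [← h1]
          exact mul_ne_zero hy hb0
        · rw [← h1, ← mul_assoc, inv_mul_cancel₀ hy, one_mul]
    · rintro y z _ _ ⟨a, b, ha, hb, hb0, h1⟩ ⟨a', b', ha', hb', hb0', h2⟩
      refine ⟨a * a', b * b', S₃.mul_mem ha ha', S₃.mul_mem hb hb', mul_ne_zero hb0 hb0', ?_⟩
      rw [← h1, ← h2]
      ring
  have hS₃fg : S₃.FG := ⟨B₃, rfl⟩
  have halg : ∀ f : K, IsAlgebraic S₃ f := by
    intro f
    obtain ⟨a, b, ha, hb, hb0, hab⟩ := hfrac₃ f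
    haveI := Pool.Agent.W497.Mld.fractionRing_of hfrac₃
    exact (IsLocalization.isAlgebraic K (nonZeroDivisors S₃)).isAlgebraic f
  -- the normalization
  have hS₄fg := Pool.Agent.TH126.C8_FG.integralClosure_fg S₃ hS₃fg halg
  let S₄ : Subalgebra ℂ K := (integralClosure S₃ K).restrictScalars ℂ
  have hmem₄ : ∀ f : K, f ∈ S₄ ↔ IsIntegral S₃ f := fun f => by
    simp only [S₄, Subalgebra.mem_restrictScalars, mem_integralClosure_iff]
  have hS₃₄ : S₃ ≤ S₄ := fun f hf => (hmem₄ f).2 (isIntegral_algebraMap (x := (⟨f, hf⟩ : S₃)))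
  have hS₄V : ∀ f ∈ S₄, f ∈ V := by
    intro f hf
    let ι : S₃ →+* V :=
      { toFun := fun y => ⟨y, hS₃V y y.2⟩
        map_one' := rfl
        map_mul' := fun _ _ => rfl
        map_zero' := rfl
        map_add' := fun _ _ => rfl }
    letI : Algebra S₃ V := ι.toAlgebra
    haveI : IsScalarTower S₃ V K := IsScalarTower.of_algebraMap_eq fun _ => rfl
    have h1 : IsIntegral V f := ((hmem₄ f).1 hf).tower_top
    obtain ⟨y, hy⟩ := IsIntegrallyClosed.isIntegral_iff.1 h1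
    rw [← hy]
    exact y.2
  have hfrac₄ : ∀ f : K, ∃ a b : K, a ∈ S₄ ∧ b ∈ S₄ ∧ b ≠ 0 ∧ f * b = a := by
    intro f
    obtain ⟨a, b, ha, hb, h⟩ := hfrac₃ f
    exact ⟨a, b, hS₃₄ ha, hS₃₄ hb, h⟩
  have hn₄ : ∀ f : K, IsIntegral S₄ f → f ∈ S₄ := by
    intro f hf
    rw [hmem₄]
    have h1 : IsIntegral (integralClosure S₃ K) f := hf
    exact isIntegral_trans f h1
  have hft₄ : Algebra.FiniteType ℂ S₄ := (Subalgebra.fg_iff_finiteType _).1 hS₄fg
  have hnoe₄ : IsNoetherianRing S₄ := Algebra.FiniteType.isNoetherianRing ℂ S₄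
  let κ : S₄ →+* V :=
    { toFun := fun y => ⟨y, hS₄V y y.2⟩
      map_one' := rfl
      map_mul' := fun _ _ => rfl
      map_zero' := rfl
      map_add' := fun _ _ => rfl }
  let J : Ideal S₄ := (IsLocalRing.maximalIdeal V).comap κ
  have hJ : ∀ f : S₄, f ∈ J ↔ V.valuation (f : K) < 1 := fun f =>
    V.valuation_lt_one_iff (κ f)
  let x₄ : S₄ := ⟨(x : K), hS₃₄ (hSS₃ x.2)⟩
  have hxJ : Ideal.span {x₄} ≤ J := by
    rw [Ideal.span_singleton_le_iff_mem, hJ]
    exact (hV x).2.1 hxp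
  haveI hJp : J.IsPrime := Ideal.comap_isPrime _ _
  obtain ⟨Q, hQ, hQJ⟩ := Ideal.exists_minimalPrimes_le hxJ
  have hQp : Q.IsPrime := hQ.1.1
  have hxQ : x₄ ∈ Q := hQ.1.2 (Ideal.mem_span_singleton_self _)
  have hQ0 : Q ≠ ⊥ := by
    intro h
    rw [h, Ideal.mem_bot] at hxQ
    exact hx0 (congrArg Subtype.val hxQ)
  obtain ⟨μ, hμ, hμQ⟩ := Pool.Agent.W497.Mld.exists_dval hS₄fg hfrac₄ hn₄ Q hQp hQ0
    (height_one x₄ Q hQ)
  let j : S →+* S₄ := (Subalgebra.inclusion (hSS₃.trans hS₃₄)).toRingHom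
  have hj : ∀ f : S, ((j f : S₄) : K) = (f : K) := fun _ => rfl
  have hpQ : 𝔭 ≤ Q.comap j := by
    rw [← hT, Ideal.span_le]
    intro t ht
    change j t ∈ Q
    have h1 : (t : K) / (x : K) ∈ S₄ := hS₃₄ (hB₃S _ (by
      rw [Finset.mem_union, Finset.mem_union]
      exact Or.inl (Or.inr (Finset.mem_image.2 ⟨t, ht, rfl⟩))))
    have h2 : j t = ⟨(t : K) / (x : K), h1⟩ * x₄ := by
      apply Subtype.ext
      change (t : K) = (t : K) / (x : K) * (x : K)
      rw [div_mul_cancel₀ _ hx0]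
    rw [h2]
    exact Q.mul_mem_left _ hxQ
  refine ⟨μ, fun f => ⟨hμ.1 _ (j f).2, ?_⟩⟩
  have h1 := hμQ (j f)
  rw [hj] at h1
  rw [h1]
  constructor
  · intro h
    have h2 := (hJ (j f)).1 (hQJ h)
    exact (hV f).2.2 h2
  · intro h
    exact hpQ h

end DVaux

open DVaux in
/-- DV (helper289). -/
theorem dv : S_DV := by
  classical
  intro Ω _ _ S hS 𝔭 hp hp0 Z
  obtain ⟨B, hB⟩ := hS
  let L : IntermediateField ℂ Ω := IntermediateField.adjoin ℂ ((B ∪ Z : Finset Ω) : Set Ω)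
  have hLfg : L.FG := ⟨B ∪ Z, rfl⟩
  haveI : Algebra.EssFiniteType ℂ L := IntermediateField.essFiniteType_iff.2 hLfg
  have hSL : ∀ f ∈ S, f ∈ L := by
    intro f hf
    rw [← hB] at hf
    have h1 : Algebra.adjoin ℂ (B : Set Ω) ≤ L.toSubalgebra := by
      refine Algebra.adjoin_le fun y hy => ?_
      exact IntermediateField.subset_adjoin ℂ _ (by
        rw [Finset.coe_union]
        exact Or.inl hy)
    exact h1 hf
  have hZL : ∀ z ∈ Z, z ∈ L := fun z hz => IntermediateField.subset_adjoin ℂ _ (by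
    rw [Finset.coe_union]
    exact Or.inr hz)
  let S' : Subalgebra ℂ L := S.comap L.val
  have hmap : S'.map L.val = S := by
    ext f
    rw [Subalgebra.mem_map]
    constructor
    · rintro ⟨g, hg, rfl⟩
      exact hg
    · intro hf
      exact ⟨⟨f, hSL f hf⟩, hf, rfl⟩
  have hS' : S'.FG := by
    refine Subalgebra.fg_of_fg_map S' L.val L.val.injective ?_
    rw [hmap]
    exact ⟨B, hB⟩
  let r : S' →+* S :=
    { toFun := fun y => ⟨((y : L) : Ω), y.2⟩
      map_one' := rfl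
      map_mul' := fun _ _ => rfl
      map_zero' := rfl
      map_add' := fun _ _ => rfl }
  have h𝔭 : (𝔭.comap r).IsPrime := Ideal.comap_isPrime _ _
  obtain ⟨t, ht, ht0⟩ := Submodule.exists_mem_ne_zero_of_ne_bot hp0
  have h𝔭0 : 𝔭.comap r ≠ ⊥ := by
    intro h
    have h1 : (⟨⟨(t : Ω), hSL t t.2⟩, t.2⟩ : S') ∈ 𝔭.comap r := ht
    rw [h, Ideal.mem_bot] at h1
    apply ht0
    apply Subtype.ext
    exact congrArg (fun y : S' => ((y : L) : Ω)) h1
  obtain ⟨μ, hμ⟩ := core S' hS' (𝔭.comap r) h𝔭 h𝔭0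
  refine ⟨L, hSL, μ, hZL, fun f => ?_⟩
  exact hμ ⟨⟨(f : Ω), hSL f f.2⟩, f.2⟩

end Pool.Agent.H895.SC
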