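import Mathlib
import Pool.Agent.H895.ND.Defs
import Pool.Graph.R_pool_sql_team_seeded_1e53cb71.Helper43K9.LS.Defs

/-!
# Lower semicontinuity of minimal log discrepancies on nondegenerate complete intersections:
# definitions
-/

set_option autoImplicit false

namespace Pool.Agent.H895.SC

open Pool.Agent.H436R3.Fol Pool.Agent.H436R3.KT Pool.Agent.W497.Mld MvPolynomial
open Pool.Agent.TH165.ACC (pr ex Prim Cn Hs lead part mldsR)
open Pool.Agent.Helper43K9.NH (ch AA wt Inn expo phi dot)
open Pool.Agent.Helper43K9.CI (CIGerm)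
open Pool.Agent.H895.ND

variable {d r s : ℕ} {L : Type} [Field L] [Algebra ℂ L] {g : CIGerm r d L}

/-- The complete intersection and the `H_k` are nondegenerate at `P`: for all the weights in the
interior of the cone (that is, for the compact faces of the Newton polyhedra) and all sets `J` of
indices, at all the common zeros in the torus of the initial forms of `F_1, ..., F_r` and of the
`G_k`, `k ∈ J`, the gradients of these initial forms are linearly independent. -/
def NDI (g : CIGerm r d L) (G : Fin s → MvPolynomial (Fin (d + r)) ℂ) : Prop :=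
  ∀ w, Inn g.E w → ∀ (J : Finset (Fin s)) (ξ : Fin (d + r) → ℂ),
    (∀ i, ξ i ≠ 0) → (∀ j, eval ξ (lead w (g.F j)) = 0) →
    (∀ k ∈ J, eval ξ (lead w (G k)) = 0) →
      LinearIndependent ℂ (Sum.elim
        (fun (j : Fin r) (i : Fin (d + r)) => eval ξ (pderiv i (lead w (g.F j))))
        (fun (k : J) (i : Fin (d + r)) => eval ξ (pderiv i (lead w (G k)))))

/-- `K_X + B` is the restriction to `X` of `K_Y + X_1 + ... + X_r + ∑ β_i D_i + ∑ b_k H_k`, near the
closed point `x`. -/
def IsRestrAt (b : Bdry g s) {B : EffDiv g.X} {x : Pt g.X} (e : LocEq B x) : Prop :=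
  ∀ v : DVal L, IsOverGerm x v → ∑ k, e.ρ k * (v.ord (e.g k) : ℝ) =
    -dot b.ψ (wt g.y v) + ∑ k, b.b k * (v.ord (aeval g.y (b.G k)) : ℝ)

theorem NDI.nondeg {b : Bdry g s} (hb : ∀ k, b.b k ≤ 1) (h : NDI g b.G) : b.Nondeg := ⟨hb, h⟩

/-- the maximal minors of the matrix of the logarithmic gradients of the initial forms -/
noncomputable def Mnr (g : CIGerm r d L) (G : Fin s → MvPolynomial (Fin (d + r)) ℂ)
    (w : Fin (d + r) → ℤ) (J : Finset (Fin s)) (σ : Fin r ⊕ {k // k ∈ J} → Fin (d + r)) :
    MvPolynomial (Fin (d + r)) ℂ :=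
  (Matrix.of fun a b => X (σ a) * pderiv (σ a) (Sum.elim (fun j : Fin r => lead w (g.F j))
    (fun k : {k // k ∈ J} => lead w (G k.1)) b)).det

/-- the indices of the `G k` which have an order greater than the one of a general polynomial with
the same monomials -/
noncomputable def KKG (g : CIGerm r d L) (G : Fin s → MvPolynomial (Fin (d + r)) ℂ) (v : DVal L) :
    Finset (Fin s) :=
  Finset.univ.filter fun k => phi (expo (G k)) (wt g.y v) < v.ord (aeval g.y (G k))

end Pool.Agent.H895.SC
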