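import Mathlib
import Pool.Graph.R_seed8.TH165.ACC.Germ
import Pool.Graph.R_seed8.TH165.ACC.Resi

/-!
# Relations between the reductions of the coordinates
-/

set_option autoImplicit false
set_option linter.unusedVariables false
set_option linter.unusedSectionVars false

namespace Pool.Agent.H895.SC

open MvPolynomial
open Pool.Agent.TH165.ACC (pr Cn ex part coeff_part euler_part)

variable {n : ℕ}

theorem totalDegree_pderiv_lt {l : Fin n} {q : MvPolynomial (Fin n) ℂ} (h : pderiv l q ≠ 0) :
    (pderiv l q).totalDegree < q.totalDegree := by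
  classical
  obtain ⟨s, hs, hs'⟩ : ∃ s ∈ (pderiv l q).support, (s.sum fun _ e => e) =
      (pderiv l q).totalDegree := by
    obtain ⟨s, hs, h1⟩ := Finset.exists_mem_eq_sup (pderiv l q).support
      (by rwa [support_nonempty]) (fun s => s.sum fun _ e => e)
    exact ⟨s, hs, h1.symm⟩
  rw [← hs']
  rw [mem_support_iff, coeff_pderiv] at hs
  have h1 : s + Finsupp.single l 1 ∈ q.support := by
    rw [mem_support_iff]
    intro h0
    apply hs
    rw [h0]
    simp
  have h2 := le_totalDegree h1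
  have h3 : ((s + Finsupp.single l 1).sum fun _ e => e) = (s.sum fun _ e => e) + 1 := by
    rw [Finsupp.sum_add_index' (fun _ => rfl) (fun _ _ _ => rfl), Finsupp.sum_single_index rfl]
  omega

theorem vars_pderiv {l : Fin n} {q : MvPolynomial (Fin n) ℂ} : (pderiv l q).vars ⊆ q.vars := by
  classical
  intro i hi
  rw [mem_vars] at hi ⊢
  obtain ⟨s, hs, h⟩ := hi
  refine ⟨s + Finsupp.single l 1, ?_, ?_⟩
  · rw [mem_support_iff, coeff_pderiv] at hs
    rw [mem_support_iff]
    intro h0
    apply hs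
    rw [h0]
    simp
  · rw [Finsupp.mem_support_iff] at h ⊢
    rw [Finsupp.add_apply]
    omega

theorem notMem_vars_of_pderiv {l : Fin n} {q : MvPolynomial (Fin n) ℂ} (h : pderiv l q = 0) :
    l ∉ q.vars := by
  classical
  rw [mem_vars]
  rintro ⟨s, hs, hl⟩
  have h1 := Pool.Agent.TH165.ACC.coeff_euler l q s
  rw [h, mul_zero, coeff_zero] at h1
  rw [Finsupp.mem_support_iff] at hl
  have h2 : ((s l : ℕ) : ℂ) ≠ 0 := by exact_mod_cast hl
  exact mul_ne_zero h2 (mem_support_iff.1 hs) h1.symm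

/-- a relation for each coordinate outside of a maximal algebraically independent set -/
theorem exists_rel {M : Type} [Field M] [Algebra ℂ M] (ξ : Fin n → M) :
    ∃ D : Finset (Fin n), (AlgebraicIndependent ℂ fun l : {l // l ∈ D} => ξ l) ∧
      ∀ l ∉ D, ∃ q : MvPolynomial (Fin n) ℂ, aeval ξ q = 0 ∧ aeval ξ (pderiv l q) ≠ 0 ∧
        ∀ i, i ∉ D → i ≠ l → pderiv i q = 0 := by
  classical
  obtain ⟨D, hD, hmax⟩ : ∃ D : Finset (Fin n),
      (AlgebraicIndependent ℂ fun l : {l // l ∈ D} => ξ l) ∧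
      ∀ D' : Finset (Fin n), (AlgebraicIndependent ℂ fun l : {l // l ∈ D'} => ξ l) →
        D ⊆ D' → D' ⊆ D := by
    have h0 : AlgebraicIndependent ℂ fun l : {l // l ∈ (∅ : Finset (Fin n))} => ξ l := by
      have : IsEmpty {l // l ∈ (∅ : Finset (Fin n))} := ⟨fun x => Finset.notMem_empty _ x.2⟩
      rw [algebraicIndependent_empty_type_iff]
      exact (algebraMap ℂ M).injective
    obtain ⟨D, hD⟩ := (Set.toFinite {D : Finset (Fin n) | AlgebraicIndependent ℂ
      fun l : {l // l ∈ D} => ξ l}).exists_maximal ⟨∅, h0⟩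
    exact ⟨D, hD.1, fun D' h1 h2 => hD.2 h1 h2⟩
  refine ⟨D, hD, fun l hl => ?_⟩
  -- a nonzero relation
  have hdep : ¬ AlgebraicIndependent ℂ fun i : {i // i ∈ insert l D} => ξ i := fun h =>
    hl (hmax _ h (Finset.subset_insert _ _) (Finset.mem_insert_self _ _))
  have hex : ∃ N : ℕ, ∃ q : MvPolynomial (Fin n) ℂ, q.totalDegree = N ∧ q ≠ 0 ∧ aeval ξ q = 0 ∧
      q.vars ⊆ insert l D := by
    rw [algebraicIndependent_iff] at hdep
    push Not at hdep
    obtain ⟨p, hp, hp0⟩ := hdep
    refine ⟨_, rename (Subtype.val : {i // i ∈ insert l D} → Fin n) p, rfl, ?_, ?_, ?_⟩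
    · intro h0
      exact hp0 (rename_injective _ Subtype.val_injective (h0.trans (map_zero _).symm))
    · rw [aeval_rename]
      exact hp
    · intro i hi
      have h1 := vars_rename (Subtype.val : {i // i ∈ insert l D} → Fin n) p hi
      rw [Finset.mem_image] at h1
      obtain ⟨j, -, rfl⟩ := h1
      exact j.2
  obtain ⟨q, hqN, hq0, hq, hqv⟩ := Nat.find_spec hex
  have hmin : ∀ q' : MvPolynomial (Fin n) ℂ, q' ≠ 0 → aeval ξ q' = 0 → q'.vars ⊆ insert l D →
      q.totalDegree ≤ q'.totalDegree := fun q' h1 h2 h3 => by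
    rw [hqN]
    exact Nat.find_min' hex ⟨q', rfl, h1, h2, h3⟩
  have hpd : pderiv l q ≠ 0 := by
    intro h0
    have h1 := notMem_vars_of_pderiv h0
    have h2 : q.vars ⊆ D := by
      intro i hi
      rcases Finset.mem_insert.1 (hqv hi) with rfl | h
      · exact absurd hi h1
      · exact h
    have h3 : ∃ p : MvPolynomial {i // i ∈ D} ℂ, rename Subtype.val p = q := by
      have h4 := (mem_supported (R := ℂ) (s := (D : Set (Fin n)))).2 (by exact_mod_cast h2 :
        ((q.vars : Set (Fin n)) ⊆ (D : Set (Fin n))))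
      rw [supported_eq_range_rename] at h4
      obtain ⟨p, hp⟩ := h4
      exact ⟨p, hp⟩
    obtain ⟨p, rfl⟩ := h3
    rw [aeval_rename] at hq
    have h5 := (algebraicIndependent_iff.1 hD) p hq
    exact hq0 (by rw [h5, map_zero])
  refine ⟨q, hq, ?_, ?_⟩
  · intro h0
    have h1 := hmin _ hpd h0 (fun i hi => hqv ?_)
    · exact absurd h1 (not_le.2 (totalDegree_pderiv_lt hpd))
    · exact vars_pderiv hi
  · intro i hi hil
    refine pderiv_eq_zero_of_notMem_vars fun h1 => ?_
    rcases Finset.mem_insert.1 (hqv h1) with h | h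
    · exact hil h
    · exact hi h

end Pool.Agent.H895.SC
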