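import Mathlib
import Pool.Agent.H895.SC.Rel

/-!
# Relations between the reductions of the coordinates, with the weights
-/

set_option autoImplicit false
set_option linter.unusedVariables false
set_option linter.unusedSectionVars false

namespace Pool.Agent.H895.SC

open MvPolynomial
open Pool.Agent.TH165.ACC (pr Cn ex part coeff_part euler_part pr_add pr_zero)

variable {n : ℕ} {M : Type} [Field M] [Algebra ℂ M]

theorem algebraMap_lau (c : ℂ) : algebraMap ℂ (HahnSeries ℤ M) c =
    HahnSeries.single 0 (algebraMap ℂ M c) := by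
  rw [HahnSeries.algebraMap_apply', PowerSeries.algebraMap_apply, HahnSeries.ofPowerSeries_C]
  rfl

/-- the coordinates with weights, in the field of the Laurent series -/
noncomputable def xiL (η : Fin n → M) (w : Fin n → ℤ) (l : Fin n) : HahnSeries ℤ M :=
  HahnSeries.single (w l) (η l)

theorem xiL_ne {η : Fin n → M} (hη : ∀ l, η l ≠ 0) (w : Fin n → ℤ) (l : Fin n) :
    xiL η w l ≠ 0 := by
  rw [xiL, Ne, HahnSeries.single_eq_zero_iff]
  exact hη l

theorem single_zpow' (a : ℤ) {x : M} (hx : x ≠ 0) (m : ℤ) :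
    (HahnSeries.single a x : HahnSeries ℤ M) ^ m = HahnSeries.single (m * a) (x ^ m) := by
  have hn : ∀ k : ℕ, (HahnSeries.single a x : HahnSeries ℤ M) ^ k =
      HahnSeries.single ((k : ℤ) * a) (x ^ k) := by
    intro k
    rw [HahnSeries.single_pow, nsmul_eq_mul]
  obtain ⟨k, rfl | rfl⟩ := m.eq_nat_or_neg
  · rw [zpow_natCast, zpow_natCast, hn]
  · rw [zpow_neg, zpow_neg, zpow_natCast, zpow_natCast, hn, inv_eq_iff_eq_inv]
    symm
    apply inv_eq_of_mul_eq_one_right
    rw [HahnSeries.single_mul_single, inv_mul_cancel₀ (pow_ne_zero _ hx)]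
    have : -(k : ℤ) * a + (k : ℤ) * a = 0 := by ring
    rw [this]
    rfl

theorem prod_xiL {η : Fin n → M} (hη : ∀ l, η l ≠ 0) (w m : Fin n → ℤ) :
    ∏ l, xiL η w l ^ m l = HahnSeries.single (pr m w) (∏ l, η l ^ m l) := by
  classical
  have key : ∀ S : Finset (Fin n), ∏ l ∈ S, xiL η w l ^ m l =
      HahnSeries.single (∑ l ∈ S, m l * w l) (∏ l ∈ S, η l ^ m l) := by
    intro S
    induction S using Finset.induction_on with
    | empty =>
      rw [Finset.prod_empty, Finset.sum_empty, Finset.prod_empty]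
      rfl
    | insert a S ha ih =>
      rw [Finset.prod_insert ha, ih, Finset.sum_insert ha, Finset.prod_insert ha, xiL,
        single_zpow' _ (hη a), HahnSeries.single_mul_single]
  exact key _

theorem part_add (w : Fin n → ℤ) (k : ℤ) (p q : MvPolynomial (Fin n) ℂ) :
    part w k (p + q) = part w k p + part w k q := by
  ext s
  rw [coeff_add, coeff_part, coeff_part, coeff_part, coeff_add]
  split_ifs <;> simp

theorem coeff_aeval {η : Fin n → M} (hη : ∀ l, η l ≠ 0) (w : Fin n → ℤ)
    (q : MvPolynomial (Fin n) ℂ) (k : ℤ) :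
    (aeval (xiL η w) q).coeff k = aeval η (part w k q) := by
  classical
  induction q using MvPolynomial.induction_on' with
  | monomial s c =>
    have h1 : aeval (xiL η w) (monomial s c) =
        HahnSeries.single (pr (ex s) w) (algebraMap ℂ M c * ∏ i, η i ^ (s i)) := by
      rw [aeval_monomial, Finsupp.prod_fintype _ _ (fun i => pow_zero _)]
      have h2 := prod_xiL hη w (ex s)
      have h3 : ∀ i, xiL η w i ^ (ex s i) = xiL η w i ^ (s i) := fun i => zpow_natCast _ _
      have h4 : ∀ i, η i ^ (ex s i) = η i ^ (s i) := fun i => zpow_natCast _ _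
      simp only [h3, h4] at h2
      rw [h2, algebraMap_lau, HahnSeries.single_mul_single, zero_add]
    rw [h1]
    have h5 : part w k (monomial s c) = if pr (ex s) w = k then monomial s c else 0 := by
      ext t
      rw [coeff_part]
      by_cases hst : s = t
      · subst hst
        split_ifs <;> simp
      · have h6 : (monomial s c).coeff t = 0 := by rw [coeff_monomial, if_neg hst]
        rw [h6]
        split_ifs <;> simp [coeff_monomial, hst]
    rw [h5]
    by_cases hk : pr (ex s) w = k
    · rw [if_pos hk, hk, HahnSeries.coeff_single_same, aeval_monomial,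
        Finsupp.prod_fintype _ _ (fun i => pow_zero _)]
    · rw [if_neg hk, map_zero, HahnSeries.coeff_single_of_ne (Ne.symm hk)]
  | add p q hp hq =>
    rw [map_add, part_add, map_add, HahnSeries.coeff_add, hp, hq]

theorem aeval_part_of {η : Fin n → M} (hη : ∀ l, η l ≠ 0) {w : Fin n → ℤ}
    {q : MvPolynomial (Fin n) ℂ} (h : ∀ k, aeval η (part w k q) = 0) :
    aeval (xiL η w) q = 0 := by
  ext k
  rw [coeff_aeval hη, h]
  rfl

/-- a homogeneous relation for each coordinate outside of a maximal algebraically independent set -/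
theorem exists_rel_w {η : Fin n → M} (hη : ∀ l, η l ≠ 0) (w : Fin n → ℤ) :
    ∃ D : Finset (Fin n), (AlgebraicIndependent ℂ fun l : {l // l ∈ D} => xiL η w l) ∧
      ∀ l ∉ D, ∃ (m : ℤ) (q : MvPolynomial (Fin n) ℂ), part w m q = q ∧ aeval η q = 0 ∧
        aeval η (X l * pderiv l q) ≠ 0 ∧ ∀ i, i ∉ D → i ≠ l → X i * pderiv i q = 0 := by
  obtain ⟨D, hD, h⟩ := exists_rel (xiL η w)
  refine ⟨D, hD, fun l hl => ?_⟩
  obtain ⟨q, h1, h2, h3⟩ := h l hl
  have h4 : aeval (xiL η w) (X l * pderiv l q) ≠ 0 := by
    rw [map_mul, aeval_X]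
    exact mul_ne_zero (xiL_ne hη w l) h2
  obtain ⟨k, hk⟩ : ∃ k, aeval η (part w k (X l * pderiv l q)) ≠ 0 := by
    by_contra h5
    push Not at h5
    exact h4 (aeval_part_of hη h5)
  refine ⟨k, part w k q, ?_, ?_, ?_, ?_⟩
  · ext s
    rw [coeff_part, coeff_part]
    split_ifs <;> rfl
  · rw [← coeff_aeval hη, h1]
    rfl
  · rw [euler_part]
    exact hk
  · intro i hi hil
    rw [euler_part, h3 i hi hil, mul_zero]
    ext s
    rw [coeff_part]
    split_ifs <;> simp

end Pool.Agent.H895.SC
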