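import Mathlib
import Pool.Agent.H895.ND.Cols

/-!
# Linear algebra: extension of independent families, and the transfer of independence
-/

set_option autoImplicit false
set_option linter.unusedVariables false
set_option linter.unusedSectionVars false

namespace Pool.Agent.H895.SC

open MvPolynomial
open Pool.Agent.H895.ND (tc cmm cmm_left cmm_right)

/-- linearly independent rows have a nonzero maximal minor -/
theorem exists_minor {k : Type} [Field k] {n : ℕ} {J : Type} [Fintype J] [DecidableEq J]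
    (A : Matrix J (Fin n) k) (h : LinearIndependent k A.row) :
    ∃ σ : J → Fin n, Function.Injective σ ∧ (Matrix.of fun a b => A b (σ a)).det ≠ 0 := by
  obtain ⟨κ, a, ha, hspan, hind⟩ := exists_linearIndependent' k A.col
  have h1 : Submodule.span k (Set.range A.col) = ⊤ := by
    apply Submodule.eq_top_of_finrank_eq
    rw [← Matrix.rank_eq_finrank_span_cols, h.rank_matrix, Module.finrank_fintype_fun_eq_card]
  have hfin : Finite κ := Finite.of_injective a ha
  have := Fintype.ofFinite κ
  let b : Module.Basis κ k (J → k) := Module.Basis.mk hind (by rw [hspan, h1])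
  have hcard : Fintype.card κ = Fintype.card J := by
    rw [← Module.finrank_eq_card_basis b, Module.finrank_fintype_fun_eq_card]
  let e : J ≃ κ := (Fintype.equivOfCardEq hcard).symm
  refine ⟨fun j => a (e j), ha.comp e.injective, ?_⟩
  have h2 : LinearIndependent k fun j : J => A.col (a (e j)) := hind.comp e e.injective
  have h3 : LinearIndependent k (Matrix.of fun (i j : J) => A j (a (e i))).row := h2
  rw [Matrix.linearIndependent_rows_iff_isUnit, Matrix.isUnit_iff_isUnit_det] at h3
  exact h3.ne_zero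

/-- a nonzero minor gives independence of the rows -/
theorem li_of_minor {k : Type} [Field k] {n : ℕ} {J : Type} [Fintype J] [DecidableEq J]
    (A : J → Fin n → k) (σ : J → Fin n) (h : (Matrix.of fun a b => A b (σ a)).det ≠ 0) :
    LinearIndependent k A := by
  rw [Fintype.linearIndependent_iff]
  intro g hg
  by_contra hne
  push Not at hne
  obtain ⟨i, hi⟩ := hne
  apply h
  rw [← Matrix.exists_mulVec_eq_zero_iff]
  refine ⟨g, fun h0 => hi (congrFun h0 i), funext fun x => ?_⟩
  have h1 := congrFun hg (σ x)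
  rw [Finset.sum_apply] at h1
  rw [Matrix.mulVec, dotProduct]
  simp only [Matrix.of_apply, Pi.zero_apply, Pi.smul_apply, smul_eq_mul] at h1 ⊢
  rw [← h1]
  exact Finset.sum_congr rfl fun j _ => mul_comm _ _

theorem exists_cols {k : Type} [Field k] {d r : ℕ} {κ : Type} [Fintype κ] [DecidableEq κ]
    (a : Fin r → Fin (d + r) → k) (γ : κ → Fin (d + r) → k)
    (h : LinearIndependent k (Sum.elim a γ)) :
    ∃ (C : Type) (_ : Fintype C) (ε : Fin d ≃ κ ⊕ C) (c : C → Fin (d + r)),
      (cmm (fun i => Sum.map id c (ε i)) γ a).det ≠ 0 := by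
  classical
  obtain ⟨σ, hσ, hdet⟩ := exists_minor (Matrix.of (Sum.elim a γ)) h
  have hcard : Fintype.card {l // l ∉ Set.range σ} + (r + Fintype.card κ) = d + r := by
    rw [Fintype.card_subtype_compl, Fintype.card_fin]
    have h1 : Fintype.card {l // l ∈ Set.range σ} = r + Fintype.card κ := by
      have := Set.card_range_of_injective hσ
      rw [Fintype.card_sum, Fintype.card_fin] at this
      convert! this
    have h2 : Fintype.card {l // l ∈ Set.range σ} ≤ Fintype.card (Fin (d + r)) :=
      Fintype.card_subtype_le _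
    rw [Fintype.card_fin] at h2
    omega
  have hcard' : Fintype.card (κ ⊕ {l // l ∉ Set.range σ}) = d := by
    rw [Fintype.card_sum]
    omega
  let ε : Fin d ≃ κ ⊕ {l // l ∉ Set.range σ} := (Fintype.equivFinOfCardEq hcard').symm
  refine ⟨{l // l ∉ Set.range σ}, inferInstance, ε, Subtype.val, ?_⟩
  intro h0
  obtain ⟨v, hv, hv0⟩ := Matrix.exists_mulVec_eq_zero_iff.2 h0
  have hrow : ∀ l, (∑ k : κ, γ k l * v (Fin.castAdd r (ε.symm (Sum.inl k)))) +
      (∑ x : {l // l ∉ Set.range σ}, (if l = x.1 then 1 else 0) *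
        v (Fin.castAdd r (ε.symm (Sum.inr x)))) +
      ∑ j, a j l * v (Fin.natAdd d j) = 0 := by
    intro l
    have h1 := congrFun hv0 l
    rw [Matrix.mulVec, dotProduct, Fin.sum_univ_add] at h1
    simp only [cmm_left, cmm_right, Pi.zero_apply] at h1
    refine Eq.trans ?_ h1
    congr 1
    rw [← ε.symm.sum_comp, Fintype.sum_sum_type]
    simp only [Equiv.apply_symm_apply, Sum.map_inl, Sum.map_inr, tc, Sum.elim_inl, Sum.elim_inr,
      id_eq]
  have hb : (Sum.elim (fun j => v (Fin.natAdd d j))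
      (fun k => v (Fin.castAdd r (ε.symm (Sum.inl k)))) : Fin r ⊕ κ → k) = 0 := by
    by_contra hne
    apply hdet
    rw [← Matrix.exists_mulVec_eq_zero_iff]
    refine ⟨_, hne, funext fun x => ?_⟩
    have h1 := hrow (σ x)
    have h2 : ∑ y : {l // l ∉ Set.range σ}, (if σ x = y.1 then 1 else 0) *
        v (Fin.castAdd r (ε.symm (Sum.inr y))) = 0 := Finset.sum_eq_zero fun y _ => by
      rw [if_neg, zero_mul]
      intro h3
      exact y.2 ⟨x, h3⟩
    rw [h2, add_zero] at h1
    rw [Matrix.mulVec, dotProduct, Fintype.sum_sum_type]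
    simp only [Matrix.of_apply, Sum.elim_inl, Sum.elim_inr, Pi.zero_apply]
    refine Eq.trans ?_ h1
    ring
  have hb1 : ∀ j, v (Fin.natAdd d j) = 0 := fun j => congrFun hb (Sum.inl j)
  have hb2 : ∀ k, v (Fin.castAdd r (ε.symm (Sum.inl k))) = 0 := fun k => congrFun hb (Sum.inr k)
  have hb3 : ∀ y, v (Fin.castAdd r (ε.symm (Sum.inr y))) = 0 := by
    intro y
    have h1 := hrow y.1
    simp only [hb1, hb2, mul_zero, Finset.sum_const_zero, zero_add, add_zero] at h1
    rw [Finset.sum_eq_single y] at h1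
    · simpa using h1
    · intro z _ hz
      rw [if_neg, zero_mul]
      intro h3
      exact hz (Subtype.ext h3.symm)
    · intro h3
      exact absurd (Finset.mem_univ _) h3
  apply hv
  funext l
  refine Fin.addCases (fun i => ?_) (fun j => hb1 j) l
  obtain ⟨x, rfl⟩ := ε.symm.surjective i
  rcases x with x | x
  · exact hb2 x
  · exact hb3 x

/-- Steinitz -/
theorem steinitz {k V : Type} [Field k] [AddCommGroup V] [Module k V] [FiniteDimensional k V]
    {ι ℓ : Type} [Fintype ι] [Fintype ℓ] (A : ι → V) (u : ℓ → V) (hA : LinearIndependent k A)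
    (hu : LinearIndependent k u) :
    ∃ C : Finset ℓ, LinearIndependent k (Sum.elim A fun l : {l // l ∈ C} => u l) ∧
      Fintype.card ℓ ≤ Fintype.card ι + C.card := by
  classical
  have h0 : LinearIndepOn k (Sum.elim A u) (Set.range (Sum.inl : ι → ι ⊕ ℓ)) := by
    rw [linearIndepOn_range_iff Sum.inl_injective]
    exact hA
  obtain ⟨b, -, hb1, hb2, hb3⟩ := exists_linearIndepOn_extension h0 (Set.subset_univ _)
  obtain ⟨C, hC⟩ : ∃ C : Finset ℓ, C = Finset.univ.filter fun l => Sum.inr l ∈ b := ⟨_, rfl⟩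
  have hCm : ∀ l, l ∈ C ↔ Sum.inr l ∈ b := fun l => by rw [hC]; simp
  let φ : ι ⊕ {l // l ∈ C} → b := Sum.elim (fun i => ⟨Sum.inl i, hb1 ⟨i, rfl⟩⟩)
    (fun l => ⟨Sum.inr l.1, (hCm _).1 l.2⟩)
  have hφi : Function.Injective φ := by
    rintro (i | l) (j | m) h
    · have := congrArg Subtype.val h
      simp only [φ, Sum.elim_inl, Sum.inl.injEq] at this
      rw [this]
    · have := congrArg Subtype.val h
      simp only [φ, Sum.elim_inl, Sum.elim_inr, reduceCtorEq] at this
    · have := congrArg Subtype.val h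
      simp only [φ, Sum.elim_inl, Sum.elim_inr, reduceCtorEq] at this
    · have := congrArg Subtype.val h
      simp only [φ, Sum.elim_inr, Sum.inr.injEq] at this
      rw [Subtype.ext this]
  have hφs : Function.Surjective φ := by
    rintro ⟨x | x, hx⟩
    · exact ⟨Sum.inl x, rfl⟩
    · exact ⟨Sum.inr ⟨x, (hCm _).2 hx⟩, rfl⟩
  have hcomp : (fun x : b => Sum.elim A u x) ∘ φ = Sum.elim A fun l : {l // l ∈ C} => u l := by
    funext x
    rcases x with x | x <;> rfl
  have hli : LinearIndependent k (Sum.elim A fun l : {l // l ∈ C} => u l) := by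
    rw [← hcomp]
    exact LinearIndependent.comp hb3 φ hφi
  refine ⟨C, hli, ?_⟩
  have h1 : Fintype.card ℓ = Module.finrank k (Submodule.span k (Set.range u)) :=
    (finrank_span_eq_card hu).symm
  have h2 : Submodule.span k (Set.range u) ≤
      Submodule.span k (Set.range (Sum.elim A fun l : {l // l ∈ C} => u l)) := by
    rw [Submodule.span_le]
    rintro _ ⟨l, rfl⟩
    have h3 := hb2 ⟨Sum.inr l, Set.mem_univ _, rfl⟩
    rw [Sum.elim_inr] at h3
    refine Submodule.span_mono ?_ h3
    rintro _ ⟨x, hx, rfl⟩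
    obtain ⟨y, hy⟩ := hφs ⟨x, hx⟩
    refine ⟨y, ?_⟩
    rw [← hcomp, Function.comp_apply, hy]
  rw [h1]
  refine (Submodule.finrank_mono h2).trans ?_
  rw [finrank_span_eq_card hli, Fintype.card_sum, Fintype.card_coe]

/-- Completion: many of the `u l` and unit vectors. -/
theorem exists_cols2 {k : Type} [Field k] {d r : ℕ} {κ ℓ : Type} [Fintype κ] [DecidableEq κ]
    [Fintype ℓ] [DecidableEq ℓ] (a : Fin r → Fin (d + r) → k) (γ : κ → Fin (d + r) → k)
    (h : LinearIndependent k (Sum.elim a γ)) (u : ℓ → Fin (d + r) → k)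
    (hu : LinearIndependent k u) :
    ∃ (C1 : Finset ℓ) (C : Type) (_ : Fintype C) (ε : Fin d ≃ (κ ⊕ {l // l ∈ C1}) ⊕ C)
      (c : C → Fin (d + r)),
      (cmm (fun i => Sum.map id c (ε i)) (Sum.elim γ fun l => u l.1) a).det ≠ 0 ∧
      Fintype.card ℓ ≤ r + Fintype.card κ + C1.card := by
  classical
  obtain ⟨C1, h1, h2⟩ := steinitz _ u h hu
  have h3 : LinearIndependent k (Sum.elim a (Sum.elim γ fun l : {l // l ∈ C1} => u l.1)) := by
    have h4 := h1.comp (Equiv.sumAssoc (Fin r) κ {l // l ∈ C1}).symm (Equiv.injective _)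
    convert! h4 using 1
    funext x
    rcases x with x | x | x <;> rfl
  obtain ⟨C, iC, ε, c, hdet⟩ := exists_cols _ _ h3
  refine ⟨C1, C, iC, ε, c, hdet, ?_⟩
  rw [Fintype.card_sum, Fintype.card_fin] at h2
  exact h2

/-- **Transfer of independence.** Gradients which are independent at all the common zeros in the torus
over `ℂ` are independent at all the common zeros in the torus over all fields. -/
theorem li_transfer {M : Type} [Field M] [Algebra ℂ M] {n : ℕ} {ι : Type} [Fintype ι]
    [DecidableEq ι] (p : ι → MvPolynomial (Fin n) ℂ) {η : Fin n → M} (hη : ∀ i, η i ≠ 0)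
    (hp : ∀ j, aeval η (p j) = 0)
    (h : ∀ ξ : Fin n → ℂ, (∀ i, ξ i ≠ 0) → (∀ j, eval ξ (p j) = 0) →
      LinearIndependent ℂ fun (j : ι) (i : Fin n) => eval ξ (pderiv i (p j))) :
    LinearIndependent M fun (j : ι) (i : Fin n) => aeval η (X i * pderiv i (p j)) := by
  classical
  set 𝔭 : Ideal (MvPolynomial (Fin n) ℂ) := RingHom.ker (aeval η : _ →ₐ[ℂ] M) with h𝔭e
  have h𝔭 : 𝔭.IsPrime := RingHom.ker_isPrime _
  obtain ⟨ξ, hξ𝔭, hξ⟩ : ∃ ξ ∈ zeroLocus ℂ 𝔭, ∀ i, ξ i ≠ 0 := by
    by_contra h2
    push Not at h2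
    have h3 : (∏ i, (X i : MvPolynomial (Fin n) ℂ)) ∈ vanishingIdeal ℂ (zeroLocus ℂ 𝔭) := by
      rw [mem_vanishingIdeal_iff]
      intro ξ hξ
      obtain ⟨i, hi⟩ := h2 ξ hξ
      rw [map_prod]
      exact Finset.prod_eq_zero (Finset.mem_univ i) (by rw [aeval_X, hi])
    rw [vanishingIdeal_zeroLocus_eq_radical, h𝔭.radical, h𝔭.prod_mem_iff] at h3
    obtain ⟨i, -, hi⟩ := h3
    rw [h𝔭e, RingHom.mem_ker] at hi
    change aeval η (X i) = 0 at hi
    rw [aeval_X] at hi
    exact hη i hi
  have hev : ∀ q, aeval η q = 0 → eval ξ q = 0 := fun q hq => by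
    have h1 : q ∈ 𝔭 := hq
    have := mem_zeroLocus_iff.1 hξ𝔭 q h1
    rwa [← coe_aeval_eq_eval]
  have h4 := h ξ hξ fun j => hev _ (hp j)
  have h5 : LinearIndependent ℂ fun (j : ι) (i : Fin n) => eval ξ (X i * pderiv i (p j)) := by
    let D : (Fin n → ℂ) →ₗ[ℂ] (Fin n → ℂ) := LinearMap.pi fun i => ξ i • LinearMap.proj i
    have hD : ∀ z i, D z i = ξ i * z i := fun z i => rfl
    have h2 := h4.map' D (by
      rw [LinearMap.ker_eq_bot']
      intro z hz
      funext i
      have h3 := congrFun hz i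
      rw [hD] at h3
      exact (mul_eq_zero.1 h3).resolve_left (hξ i))
    convert! h2 using 1
    funext j i
    rw [map_mul, eval_X]
    rfl
  obtain ⟨σ, -, hσ⟩ := exists_minor (Matrix.of fun (j : ι) (i : Fin n) =>
    eval ξ (X i * pderiv i (p j))) h5
  refine li_of_minor _ σ fun h0 => hσ ?_
  have h6 : aeval η (Matrix.of fun a b => X (σ a) * pderiv (σ a) (p b)).det = 0 := by
    rw [← h0]
    have := (aeval η : MvPolynomial (Fin n) ℂ →ₐ[ℂ] M).toRingHom.map_det
      (Matrix.of fun a b => X (σ a) * pderiv (σ a) (p b))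
    exact this
  have h7 := hev _ h6
  rw [RingHom.map_det] at h7
  exact h7

end Pool.Agent.H895.SC
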