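import Mathlib
import Pool.Agent.H895.ND.Low
import Pool.Agent.H895.SC.Lin
import Pool.Agent.H895.SC.Lau
import Pool.Agent.H895.SC.Defs
import Pool.Graph.R_pool_sql_team_seeded_1e53cb71.Helper43K9.LS.Low

/-!
# The lower bound of the canonical order at the closed points near `P`
-/

set_option autoImplicit false
set_option linter.unusedVariables false
set_option linter.unusedSectionVars false

namespace Pool.Agent.H895.SC

open Pool.Agent.H436R3.Fol Pool.Agent.H436R3.KT Pool.Agent.W497.Mld MvPolynomial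
open Pool.Agent.TH165.ACC (pr ex Prim Cn Hs lead part mldsR mvI mem_mvI ord_eq_zero_of_notMem
  lead_eq euler_part support_euler exists_nat_ex pr_sub)
open Pool.Agent.Helper43K9.NH (ch AA wt Inn expo phi dot Phi' reg_mul_zpow' phi_expo der_aeval
  ge_of_weights reg_unit' Phi'_monomial ch_sub ch_ne ch_ex ord_ch aeval_mon)
open Pool.Agent.Helper43K9.CI (CIGerm GM)
open Pool.Agent.H895.ND

variable {d r s n : ℕ} {L : Type} [Field L] [Algebra ℂ L]

section rho

variable {y : Fin n → L} (hy : ∀ i, y i ≠ 0) {v : DVal L} {π : L} (hπ : π ≠ 0) (h1 : v.ord π = 1)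
  {M : Type} [Field M] [Algebra ℂ M] (ρ : v.O →+* M)

/-- the reductions of the normalised coordinates -/
noncomputable def eta (l : Fin n) : M := ρ ⟨y l * π ^ (-v.ord (y l)), reg_unit' hy hπ h1 l⟩

variable {ρ} (hρ : ∀ x, ρ x = 0 ↔ v.Pos (x : L))
  (hρc : ∀ c, ρ ⟨algebraMap ℂ L c, v.reg_const c⟩ = algebraMap ℂ M c)

include hρ in
theorem eta_ne (l : Fin n) : eta hy hπ h1 ρ l ≠ 0 := by
  rw [eta, Ne, hρ]
  rintro (h | h)
  · exact mul_ne_zero (hy l) (zpow_ne_zero _ hπ) h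
  · change 0 < v.ord (y l * π ^ (-v.ord (y l))) at h
    rw [v.map_mul _ _ (hy l) (zpow_ne_zero _ hπ), v.ord_zpow hπ, h1] at h
    omega

include hρc in
theorem rho_Phi (q : MvPolynomial (Fin n) ℂ) :
    ρ (Phi' hy hπ h1 q) = aeval (eta hy hπ h1 ρ) q := by
  have : ρ.comp (Phi' hy hπ h1) = (aeval (eta hy hπ h1 ρ) : _ →ₐ[ℂ] M).toRingHom := by
    apply MvPolynomial.ringHom_ext
    · intro c
      rw [RingHom.comp_apply, Phi', coe_eval₂Hom, eval₂_C]
      change _ = aeval _ (C c)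
      rw [aeval_C]
      exact hρc c
    · intro i
      rw [RingHom.comp_apply, Phi', coe_eval₂Hom, eval₂_X]
      change _ = aeval _ (X i)
      rw [aeval_X]
      rfl
  exact congrArg (fun f : MvPolynomial (Fin n) ℂ →+* M => f q) this

variable (ρ) in
/-- `a` lies in the valuation ring and `b` is its reduction -/
def RedTo (a : L) (b : M) : Prop := ∃ h : v.Reg a, ρ ⟨a, h⟩ = b

include hρ in
theorem rho_eq {a b : L} (ha : v.Reg a) (hb : v.Reg b) (h : v.Pos (a - b)) :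
    ρ ⟨a, ha⟩ = ρ ⟨b, hb⟩ := by
  rw [← sub_eq_zero, ← map_sub, hρ]
  exact h

include hρ hρc in
theorem rho_part {q : MvPolynomial (Fin n) ℂ} {m : ℤ}
    (h : ∀ s ∈ q.support, m ≤ pr (ex s) (wt y v)) :
    RedTo ρ (aeval y q * π ^ (-m)) (aeval (eta hy hπ h1 ρ) (part (wt y v) m q)) := by
  obtain ⟨h2, h3⟩ := reg_mul_zpow' hy hπ h1 h
  refine ⟨h2, ?_⟩
  rw [← rho_Phi hy hπ h1 hρc]
  exact rho_eq hρ _ (Phi' hy hπ h1 (part (wt y v) m q)).2 h3

include hρ hρc in
theorem ord_of_part {q : MvPolynomial (Fin n) ℂ} {m : ℤ}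
    (h : ∀ s ∈ q.support, m ≤ pr (ex s) (wt y v))
    (h0 : aeval (eta hy hπ h1 ρ) (part (wt y v) m q) = 0) :
    aeval y q = 0 ∨ m + 1 ≤ v.ord (aeval y q) := by
  obtain ⟨h2, h3⟩ := rho_part hy hπ h1 hρ hρc h
  rw [h0, hρ] at h3
  by_cases hq : aeval y q = 0
  · exact Or.inl hq
  right
  rcases h3 with h3 | h3
  · exact absurd h3 (mul_ne_zero hq (zpow_ne_zero _ hπ))
  · change 0 < v.ord (aeval y q * π ^ (-m)) at h3
    rw [v.map_mul _ _ hq (zpow_ne_zero _ hπ), v.ord_zpow hπ, h1] at h3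
    omega

include hρ hρc in
theorem part_of_ord {q : MvPolynomial (Fin n) ℂ} {m : ℤ}
    (h : ∀ s ∈ q.support, m ≤ pr (ex s) (wt y v))
    (h0 : aeval y q = 0 ∨ m < v.ord (aeval y q)) :
    aeval (eta hy hπ h1 ρ) (part (wt y v) m q) = 0 := by
  obtain ⟨h2, h3⟩ := rho_part hy hπ h1 hρ hρc h
  rw [← h3, hρ]
  change v.Pos (aeval y q * π ^ (-m))
  by_cases hq : aeval y q = 0
  · exact Or.inl (by rw [hq, zero_mul])
  right
  rw [v.map_mul _ _ hq (zpow_ne_zero _ hπ), v.ord_zpow hπ, h1]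
  have := h0.resolve_left hq
  omega

include hρ hρc in
theorem rho_ch {m : Fin n → ℤ} (hm : pr m (wt y v) = 0) (h : v.Reg (ch y m)) :
    ρ ⟨ch y m, h⟩ = ch (eta hy hπ h1 ρ) m := by
  obtain ⟨s, t, hst⟩ := exists_nat_ex m
  have h2 : Phi' hy hπ h1 (monomial s 1) = ⟨ch y m, h⟩ * Phi' hy hπ h1 (monomial t 1) := by
    apply Subtype.ext
    change (Phi' hy hπ h1 (monomial s 1) : L) = ch y m * (Phi' hy hπ h1 (monomial t 1) : L)
    rw [Phi'_monomial, Phi'_monomial, ← ch_ex, ← ch_ex, hst, ch_sub hy]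
    have h3 : pr (ex s) (wt y v) = pr (ex t) (wt y v) := by
      rw [hst, pr_sub] at hm
      omega
    rw [h3]
    have h4 := ch_ne hy (ex t)
    field_simp
  have h3 := congrArg ρ h2
  rw [map_mul, rho_Phi hy hπ h1 hρc, rho_Phi hy hπ h1 hρc, ← ch_ex, ← ch_ex] at h3
  have hη := eta_ne hy hπ h1 hρ
  have h4 : ρ ⟨ch y m, h⟩ = ch (eta hy hπ h1 ρ) (ex s) * (ch (eta hy hπ h1 ρ) (ex t))⁻¹ := by
    rw [h3, mul_assoc, mul_inv_cancel₀ (ch_ne hη _), mul_one]
  rw [h4, hst, ← ch_sub hη]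

include hρ in
/-- a matrix over the valuation ring whose reduction is invertible has a unit as determinant -/
theorem det_ord_zero {m : Type} [Fintype m] [DecidableEq m] (A : Matrix m m L)
    (Ab : Matrix m m M) (h : ∀ i j, RedTo ρ (A i j) (Ab i j))
    (h0 : Ab.det ≠ 0) : A.det ≠ 0 ∧ v.ord A.det = 0 := by
  choose hr hred using h
  let AO : Matrix m m v.O := Matrix.of fun i j => ⟨A i j, hr i j⟩
  have h1 : ρ AO.det = Ab.det := by
    rw [RingHom.map_det]
    congr 1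
    ext i j
    exact hred i j
  have h2 : ((AO.det : v.O) : L) = A.det := by
    have := RingHom.map_det v.O.subtype AO
    change v.O.subtype AO.det = _
    rw [this]
    congr 1
  have h3 : AO.det ∉ mvI v := by
    intro h
    apply h0
    rw [← h1, hρ]
    exact h
  have h4 := ord_eq_zero_of_notMem h3
  rwa [h2] at h4

end rho

section idx

variable {g : CIGerm r d L} {v : DVal L} {π : L} (hπ : π ≠ 0) (h1 : v.ord π = 1)
  {M : Type} [Field M] [Algebra ℂ M] {ρ : v.O →+* M} (hρ : ∀ x, ρ x = 0 ↔ v.Pos (x : L))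
  (hρc : ∀ c, ρ ⟨algebraMap ℂ L c, v.reg_const c⟩ = algebraMap ℂ M c)

include hρ hρc in
/-- the order of the minor -/
theorem idxG {κ : Type} [Fintype κ] {C : Type} [Fintype C] (ε : Fin d ≃ κ ⊕ C)
    (c : C → Fin (d + r)) (H : κ → MvPolynomial (Fin (d + r)) ℂ) (m' : κ → ℤ)
    (hH : ∀ k, ∀ t ∈ (H k).support, m' k ≤ pr (ex t) (wt g.y v))
    (hdet : (cmm (fun i => Sum.map id c (ε i))
      (fun k l => aeval (eta g.yne hπ h1 ρ) (X l * pderiv l (part (wt g.y v) (m' k) (H k))))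
      (fun j l => aeval (eta g.yne hπ h1 ρ) (X l * pderiv l (lead (wt g.y v) (g.F j))))).det ≠ 0) :
    (cmm (fun i => Sum.map id c (ε i)) (fun k l => aeval g.y (X l * pderiv l (H k)))
        (fun j l => aeval g.y (X l * pderiv l (g.F j)))).det ≠ 0 ∧
      v.ord (cmm (fun i => Sum.map id c (ε i)) (fun k l => aeval g.y (X l * pderiv l (H k)))
        (fun j l => aeval g.y (X l * pderiv l (g.F j)))).det =
        ∑ j, phi (g.S j) (wt g.y v) + ∑ k, m' k := by
  classical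
  set u := wt g.y v with hu
  have hm1 := fun j => (phi_expo (g.Fne j) u).1
  have hm2 := fun j => (phi_expo (g.Fne j) u).2
  obtain ⟨m, hm⟩ : ∃ m : Fin r → ℤ, m = fun j => phi (expo (g.F j)) u := ⟨_, rfl⟩
  have hmj : ∀ j, phi (expo (g.F j)) u = m j := fun j => by rw [hm]
  simp only [hmj] at hm1 hm2
  have hlead : ∀ j, lead u (g.F j) = part u (m j) (g.F j) := fun j => lead_eq (hm1 j) (hm2 j)
  obtain ⟨n1, n2⟩ := det_ord_zero hρ (cmm (fun i => Sum.map id c (ε i))
      (fun k l => aeval g.y (X l * pderiv l (H k)) * π ^ (-m' k))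
      (fun j l => aeval g.y (X l * pderiv l (g.F j)) * π ^ (-m j))) _ (by
    intro l i
    refine Fin.addCases (fun i => ?_) (fun j => ?_) i
    · rw [cmm_left, cmm_left]
      rcases ε i with k | x
      · simp only [tc, Sum.map_inl, Sum.elim_inl, id_eq]
        rw [euler_part]
        exact rho_part g.yne hπ h1 hρ hρc fun t ht => hH k t (support_euler _ _ ht)
      · simp only [tc, Sum.map_inr, Sum.elim_inr]
        by_cases hl : l = c x
        · rw [if_pos hl, if_pos hl]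
          exact ⟨v.reg_one, map_one ρ⟩
        · rw [if_neg hl, if_neg hl]
          exact ⟨v.reg_zero, map_zero ρ⟩
    · rw [cmm_right, cmm_right]
      rw [hlead, euler_part]
      exact rho_part g.yne hπ h1 hρ hρc fun t ht => hm2 j t (support_euler _ _ ht)) hdet
  rw [cmm_scale ε c (fun k l => aeval g.y (X l * pderiv l (H k)))
      (fun j l => aeval g.y (X l * pderiv l (g.F j))) (fun k => π ^ (-m' k)) fun j => π ^ (-m j)]
    at n1 n2
  obtain ⟨G, hG⟩ : ∃ G, G = cmm (fun i => Sum.map id c (ε i))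
      (fun k l => aeval g.y (X l * pderiv l (H k)))
        (fun j l => aeval g.y (X l * pderiv l (g.F j))) := ⟨_, rfl⟩
  rw [← hG] at n1 n2 ⊢
  have hG0 : G.det ≠ 0 := right_ne_zero_of_mul n1
  refine ⟨hG0, ?_⟩
  have hp : (∏ k, π ^ (-m' k)) * ∏ j, π ^ (-m j) ≠ 0 := left_ne_zero_of_mul n1
  have hp1 := left_ne_zero_of_mul hp
  have hp2 := right_ne_zero_of_mul hp
  rw [v.map_mul _ _ hp hG0, v.map_mul _ _ hp1 hp2, v.ord_prod _ _ fun j _ => zpow_ne_zero _ hπ,
    v.ord_prod _ _ fun j _ => zpow_ne_zero _ hπ] at n2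
  have hsum : ∑ j, v.ord (π ^ (-m j)) = -∑ j, m j := by
    rw [← Finset.sum_neg_distrib]
    refine Finset.sum_congr rfl fun j _ => ?_
    rw [v.ord_zpow hπ, h1, mul_one]
  have hsum' : ∑ k, v.ord (π ^ (-m' k)) = -∑ k, m' k := by
    rw [← Finset.sum_neg_distrib]
    refine Finset.sum_congr rfl fun j _ => ?_
    rw [v.ord_zpow hπ, h1, mul_one]
  have hgoal : ∑ j, phi (g.S j) u = ∑ j, m j := Finset.sum_congr rfl fun j _ => hmj j
  rw [hgoal]
  rw [hsum, hsum'] at n2
  omega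

end idx

theorem part_part (w : Fin n → ℤ) (k m : ℤ) (p : MvPolynomial (Fin n) ℂ) :
    part w k (part w m p) = if k = m then part w m p else 0 := by
  ext s
  rw [Pool.Agent.TH165.ACC.coeff_part, Pool.Agent.TH165.ACC.coeff_part]
  by_cases hkm : k = m
  · subst hkm
    rw [if_pos rfl, Pool.Agent.TH165.ACC.coeff_part]
    split_ifs <;> rfl
  · rw [if_neg hkm, coeff_zero]
    split_ifs with h1 h2
    · exact absurd (h1.symm.trans h2) hkm
    · rfl
    · rfl

theorem aeval_part_xiL {M : Type} [Field M] [Algebra ℂ M] {η : Fin n → M} (hη : ∀ l, η l ≠ 0)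
    (w : Fin n → ℤ) (m : ℤ) (p : MvPolynomial (Fin n) ℂ) :
    aeval (xiL η w) (part w m p) = HahnSeries.single m (1 : M) *
      HahnSeries.C (aeval η (part w m p)) := by
  ext k
  rw [coeff_aeval hη, part_part, HahnSeries.C_apply, HahnSeries.single_mul_single, one_mul,
    add_zero]
  split_ifs with h
  · rw [h, HahnSeries.coeff_single_same]
  · rw [HahnSeries.coeff_single_of_ne h, map_zero]

theorem aeval_euler_xiL {M : Type} [Field M] [Algebra ℂ M] {η : Fin n → M} (hη : ∀ l, η l ≠ 0)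
    (w : Fin n → ℤ) (m : ℤ) (p : MvPolynomial (Fin n) ℂ) (l : Fin n) :
    aeval (xiL η w) (X l * pderiv l (part w m p)) = HahnSeries.single m (1 : M) *
      HahnSeries.C (aeval η (X l * pderiv l (part w m p))) := by
  rw [euler_part]
  exact aeval_part_xiL hη w m _

theorem aeval_lead_xiL {M : Type} [Field M] [Algebra ℂ M] {η : Fin n → M} (hη : ∀ l, η l ≠ 0)
    {w : Fin n → ℤ} {p : MvPolynomial (Fin n) ℂ} (hp : p ≠ 0)
    (h : aeval η (part w (phi (expo p) w) p) = 0) : aeval (xiL η w) (lead w p) = 0 := by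
  rw [lead_eq (phi_expo hp w).1 (phi_expo hp w).2]
  refine aeval_part_of hη fun k => ?_
  rw [part_part]
  split_ifs
  · exact h
  · exact map_zero _

theorem inC_of_over {g : CIGerm r d L} {x : Pt g.X} {v : DVal L} (hv : IsOverGerm x v) :
    ∀ m ∈ Cn g.E, 0 ≤ pr m (wt g.y v) := by
  intro m hm
  have hmem : ch g.y m ∈ g.X.R := by
    rw [g.hR]
    exact Pool.Agent.Helper43K9.NH.ch_mem_AA hm
  rw [← ord_ch g.yne]
  obtain ⟨⟨S, -, h1, h2⟩, -⟩ := hv
  exact v.ord_nonneg (ch_ne g.yne _) (h2.1 _ (h1 hmem))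

/-- **The lower bound of the canonical order** at a closed point near `P`. -/
theorem lowG {g : CIGerm r d L} (G : Fin s → MvPolynomial (Fin (d + r)) ℂ)
    (hG : ∀ k, aeval g.y (G k) ≠ 0) {x : Pt g.X} {v : DVal L}
    (hv : IsOverGerm x v) {c : ℤ} (hc : IsCanOrd g.X.T v c) :
    ∃ (K : Type) (_ : Field K) (_ : Algebra ℂ K) (ξ : Fin (d + r) → K)
      (D : Finset (Fin (d + r))),
      (∀ l, ξ l ≠ 0) ∧ (∀ j, aeval ξ (lead (wt g.y v) (g.F j)) = 0) ∧
      (∀ k ∈ KKG g G v, aeval ξ (lead (wt g.y v) (G k)) = 0) ∧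
      (∀ m ∈ Cn g.E, pr m (wt g.y v) = 0 → ∀ f : g.X.R, (f : L) = ch g.y m →
        ∏ l, ξ l ^ m l = algebraMap ℂ K (x f)) ∧
      (AlgebraicIndependent ℂ fun l : {l // l ∈ D} => ξ l) ∧
      ((∃ σ, aeval ξ (Mnr g G (wt g.y v) (KKG g G v) σ) ≠ 0) → (-1 : ℤ) - ∑ j, phi (g.S j) (wt g.y v) + ((d : ℤ) - D.card) +
        (∑ k ∈ KKG g G v, v.ord (aeval g.y (G k)) - ∑ k ∈ KKG g G v,
          phi (expo (G k)) (wt g.y v) - (KKG g G v).card) ≤ c) := by
  classical
  have hG0 : ∀ k, G k ≠ 0 := fun k h => hG k (by rw [h, map_zero])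
  obtain ⟨π, hπ, h1⟩ := v.surj
  obtain ⟨M, fM, aM, ρ, hρ, hρc⟩ : ∃ (M : Type) (_ : Field M) (_ : Algebra ℂ M)
      (ρ : v.O →+* M), (∀ x, ρ x = 0 ↔ v.Pos (x : L)) ∧
      (∀ c, ρ ⟨algebraMap ℂ L c, v.reg_const c⟩ = algebraMap ℂ M c) :=
    ⟨Pool.Agent.Helper43K9.LS.Kp v, inferInstance,
      ((Pool.Agent.Helper43K9.LS.red v).comp
        ((algebraMap ℂ L).codRestrict v.O fun c => v.reg_const c)).toAlgebra,
      Pool.Agent.Helper43K9.LS.red v, fun x => Pool.Agent.Helper43K9.LS.red_eq_zero,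
      fun c => rfl⟩
  have hη := eta_ne g.yne hπ h1 hρ
  obtain ⟨η, hηe⟩ : ∃ η, η = eta g.yne hπ h1 ρ := ⟨_, rfl⟩
  obtain ⟨w, hw⟩ : ∃ w, w = wt g.y v := ⟨_, rfl⟩
  have hwC := inC_of_over hv
  have hpo := fun (q : MvPolynomial (Fin (d + r)) ℂ) (m : ℤ) => part_of_ord g.yne hπ h1 hρ hρc
    (q := q) (m := m)
  have hop := fun (q : MvPolynomial (Fin (d + r)) ℂ) (m : ℤ) => ord_of_part g.yne hπ h1 hρ hρc
    (q := q) (m := m)
  rw [← hηe] at hη
  simp only [← hηe, ← hw] at hpo hop hwC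
  obtain ⟨D, hD, hrel⟩ := exists_rel_w hη w
  have hF0 : ∀ j, aeval g.y (g.F j) = 0 := by
    intro j
    rw [g.ker]
    refine ⟨0, ?_⟩
    have : (monomial (0 : Fin (d + r) →₀ ℕ) (1 : ℂ)) = 1 := rfl
    rw [this, one_mul]
    exact Ideal.subset_span ⟨j, rfl⟩
  have hFη : ∀ j, aeval η (part w (phi (expo (g.F j)) w) (g.F j)) = 0 := fun j =>
    hpo _ _ (phi_expo (g.Fne j) w).2 (Or.inl (hF0 j))
  have hGη : ∀ k ∈ KKG g G v, aeval η (part w (phi (expo (G k)) w) (G k)) = 0 := by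
    intro k hk
    refine hpo _ _ (phi_expo (hG0 k) w).2 (Or.inr ?_)
    rw [hw]
    exact (Finset.mem_filter.1 hk).2
  have hFl : ∀ j, aeval η (lead w (g.F j)) = 0 := fun j => by
    rw [lead_eq (phi_expo (g.Fne j) w).1 (phi_expo (g.Fne j) w).2]
    exact hFη j
  have hGl : ∀ k ∈ KKG g G v, aeval η (lead w (G k)) = 0 := fun k hk => by
    rw [lead_eq (phi_expo (hG0 k) w).1 (phi_expo (hG0 k) w).2]
    exact hGη k hk
  refine ⟨HahnSeries ℤ M, inferInstance, inferInstance, xiL η w, D, xiL_ne hη w, ?_, ?_, ?_, hD,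
    ?_⟩
  · intro j
    rw [← hw]
    exact aeval_lead_xiL hη (g.Fne j) (hFη j)
  · intro k hk
    rw [← hw]
    exact aeval_lead_xiL hη (hG0 k) (hGη k hk)
  · intro m hm hm0 f hf
    have hreg : v.Reg (f : L) := by
      obtain ⟨⟨S, -, h1, h2⟩, -⟩ := hv
      exact h2.1 _ (h1 f.2)
    have h2 : ρ ⟨(f : L), hreg⟩ = ρ ⟨algebraMap ℂ L (x f), v.reg_const _⟩ := by
      refine rho_eq hρ _ _ ?_
      have h3 := (hv.2 (f - algebraMap ℂ g.X.R (x f))).2 (by
        rw [map_sub, AlgHom.commutes]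
        exact sub_self _)
      exact h3
    rw [hρc] at h2
    have h4 : ∀ (a : L) (ha : v.Reg a), a = ch g.y m → ρ ⟨a, ha⟩ = ch η m := by
      intro a ha ham
      subst ham
      rw [hηe]
      exact rho_ch g.yne hπ h1 hρ hρc hm0 ha
    rw [h4 _ hreg hf] at h2
    rw [← hw] at hm0
    rw [prod_xiL hη, hm0, algebraMap_lau, ← h2]
    rfl
  -- the determinant
  choose! mq q hq1 hq2 hq3 hq4 using hrel
  rintro ⟨σ, hσ⟩
  have hli0 : LinearIndependent M (fun (j : Fin r ⊕ {k // k ∈ KKG g G v}) (i : Fin (d + r)) =>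
      aeval η (X i * pderiv i (Sum.elim (fun j : Fin r => lead w (g.F j))
        (fun k : {k // k ∈ KKG g G v} => lead w (G k.1)) j))) := by
    refine li_of_minor _ σ fun h0 => hσ ?_
    rw [← hw, Mnr]
    have h1 : aeval (xiL η w) (Matrix.of fun a b => X (σ a) * pderiv (σ a) (Sum.elim
        (fun j : Fin r => lead w (g.F j))
        (fun k : {k // k ∈ KKG g G v} => lead w (G k.1)) b)).det =
        (Matrix.of fun a b => aeval (xiL η w) (X (σ a) * pderiv (σ a) (Sum.elim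
        (fun j : Fin r => lead w (g.F j))
        (fun k : {k // k ∈ KKG g G v} => lead w (G k.1)) b))).det := by
      have := (aeval (xiL η w) : MvPolynomial (Fin (d + r)) ℂ →ₐ[ℂ] _).toRingHom.map_det
        (Matrix.of fun a b => X (σ a) * pderiv (σ a) (Sum.elim
        (fun j : Fin r => lead w (g.F j))
        (fun k : {k // k ∈ KKG g G v} => lead w (G k.1)) b))
      exact this
    rw [h1]
    have h2 : (Matrix.of fun a b => aeval (xiL η w) (X (σ a) * pderiv (σ a) (Sum.elim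
        (fun j : Fin r => lead w (g.F j))
        (fun k : {k // k ∈ KKG g G v} => lead w (G k.1)) b))) = Matrix.of fun a b =>
        (HahnSeries.single (Sum.elim (fun j : Fin r => phi (expo (g.F j)) w)
          (fun k : {k // k ∈ KKG g G v} => phi (expo (G k.1)) w) b) (1 : M)) *
        (Matrix.of fun a b => HahnSeries.C (aeval η (X (σ a) * pderiv (σ a) (Sum.elim
        (fun j : Fin r => lead w (g.F j))
        (fun k : {k // k ∈ KKG g G v} => lead w (G k.1)) b)))) a b := by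
      ext1 a b
      rw [Matrix.of_apply, Matrix.of_apply, Matrix.of_apply]
      rcases b with j | k
      · simp only [Sum.elim_inl]
        rw [lead_eq (phi_expo (g.Fne j) w).1 (phi_expo (g.Fne j) w).2]
        exact aeval_euler_xiL hη _ _ _ _
      · simp only [Sum.elim_inr]
        rw [lead_eq (phi_expo (hG0 k.1) w).1 (phi_expo (hG0 k.1) w).2]
        exact aeval_euler_xiL hη _ _ _ _
    rw [h2, Matrix.det_mul_row]
    have h3 := (HahnSeries.C : M →+* HahnSeries ℤ M).map_det (Matrix.of fun a b =>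
      aeval η (X (σ a) * pderiv (σ a) (Sum.elim (fun j : Fin r => lead w (g.F j))
        (fun k : {k // k ∈ KKG g G v} => lead w (G k.1)) b)))
    rw [h0, map_zero] at h3
    have h4 : (Matrix.of fun a b => (HahnSeries.C (aeval η (X (σ a) * pderiv (σ a) (Sum.elim
        (fun j : Fin r => lead w (g.F j))
        (fun k : {k // k ∈ KKG g G v} => lead w (G k.1)) b))) : HahnSeries ℤ M)).det = 0 := h3.symm
    rw [h4, mul_zero]
  have hli : LinearIndependent M (Sum.elim
      (fun (j : Fin r) (i : Fin (d + r)) => aeval η (X i * pderiv i (lead w (g.F j))))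
      (fun (k : {k // k ∈ KKG g G v}) (i : Fin (d + r)) =>
        aeval η (X i * pderiv i (lead w (G k.1))))) := by
    have h4 : (fun (j : Fin r ⊕ {k // k ∈ KKG g G v}) (i : Fin (d + r)) => aeval η (X i * pderiv i
        (Sum.elim (fun j : Fin r => lead w (g.F j))
          (fun k : {k // k ∈ KKG g G v} => lead w (G k.1)) j))) = Sum.elim
        (fun (j : Fin r) (i : Fin (d + r)) => aeval η (X i * pderiv i (lead w (g.F j))))
        (fun (k : {k // k ∈ KKG g G v}) (i : Fin (d + r)) =>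
          aeval η (X i * pderiv i (lead w (G k.1)))) := by
      funext j i
      rcases j with j | j <;> rfl
    rw [← h4]
    exact hli0
  have hu : LinearIndependent M fun (l : {l // l ∉ D}) (i : Fin (d + r)) =>
      aeval η (X i * pderiv i (q l.1)) := by
    rw [Fintype.linearIndependent_iff]
    intro a ha l0
    have h2 := congrFun ha l0.1
    rw [Finset.sum_apply, Finset.sum_eq_single l0] at h2
    · rw [Pi.smul_apply, smul_eq_mul] at h2
      exact (mul_eq_zero.1 h2).resolve_right (hq3 l0.1 l0.2)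
    · intro l _ hl
      rw [Pi.smul_apply, hq4 l.1 l.2 l0.1 l0.2 fun h => hl (Subtype.ext h.symm), map_zero,
        smul_zero]
    · intro h
      exact absurd (Finset.mem_univ _) h
  obtain ⟨C1, C, iC, ε, cc, hdet, hcard⟩ := exists_cols2 _ _ hli _ hu
  obtain ⟨A, hA0, hA, rfl⟩ := hc.1
  have hHd : ∀ k : {k // k ∈ KKG g G v} ⊕ {l // l ∈ C1},
      part (wt g.y v) (Sum.elim (fun k : {k // k ∈ KKG g G v} => phi (expo (G k.1)) w)
        (fun l : {l // l ∈ C1} => mq l.1.1) k) (Sum.elim (fun k : {k // k ∈ KKG g G v} => G k.1)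
        (fun l : {l // l ∈ C1} => q l.1.1) k) = Sum.elim
        (fun k : {k // k ∈ KKG g G v} => lead w (G k.1)) (fun l : {l // l ∈ C1} => q l.1.1) k := by
    rintro (k | l)
    · simp only [Sum.elim_inl]
      rw [← hw, lead_eq (phi_expo (hG0 k.1) w).1 (phi_expo (hG0 k.1) w).2]
    · simp only [Sum.elim_inr]
      rw [← hw]
      exact hq1 l.1.1 l.1.2
  have hHs : ∀ k : {k // k ∈ KKG g G v} ⊕ {l // l ∈ C1}, ∀ t ∈
      (Sum.elim (fun k : {k // k ∈ KKG g G v} => G k.1)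
        (fun l : {l // l ∈ C1} => q l.1.1) k).support,
      (Sum.elim (fun k : {k // k ∈ KKG g G v} => phi (expo (G k.1)) w)
        (fun l : {l // l ∈ C1} => mq l.1.1) k) ≤ pr (ex t) (wt g.y v) := by
    rintro (k | l) t ht
    · rw [← hw]
      exact (phi_expo (hG0 k.1) w).2 t ht
    · rw [← hw]
      simp only [Sum.elim_inr] at ht ⊢
      rw [← hq1 l.1.1 l.1.2, mem_support_iff, Pool.Agent.TH165.ACC.coeff_part] at ht
      by_contra h2
      rw [if_neg (by omega)] at ht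
      exact ht rfl
  obtain ⟨hk0, hk⟩ := idxG (g := g) hπ h1 hρ hρc ε cc
    (Sum.elim (fun k : {k // k ∈ KKG g G v} => G k.1) (fun l : {l // l ∈ C1} => q l.1.1))
    (Sum.elim (fun k : {k // k ∈ KKG g G v} => phi (expo (G k.1)) w)
        (fun l : {l // l ∈ C1} => mq l.1.1)) hHs (by
    rw [← hηe]
    simp only [hHd]
    rw [← hw]
    have h2 : (fun (k : {k // k ∈ KKG g G v} ⊕ {l // l ∈ C1}) (l : Fin (d + r)) =>
        aeval η (X l * pderiv l (Sum.elim (fun k : {k // k ∈ KKG g G v} => lead w (G k.1))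
          (fun l : {l // l ∈ C1} => q l.1.1) k))) = Sum.elim
        (fun (k : {k // k ∈ KKG g G v}) (i : Fin (d + r)) =>
          aeval η (X i * pderiv i (lead w (G k.1))))
        (fun (l : {l // l ∈ C1}) (i : Fin (d + r)) => aeval η (X i * pderiv i (q l.1.1))) := by
      funext k l
      rcases k with k | k <;> rfl
    rw [h2]
    exact hdet)
  obtain ⟨H, hH⟩ : ∃ H : {k // k ∈ KKG g G v} ⊕ {l // l ∈ C1} → MvPolynomial (Fin (d + r)) ℂ,
      H = Sum.elim (fun k : {k // k ∈ KKG g G v} => G k.1)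
        (fun l : {l // l ∈ C1} => q l.1.1) := ⟨_, rfl⟩
  rw [← hH] at hk0 hk
  have hp : (∏ x, g.y (cc x)) ≠ 0 := Finset.prod_ne_zero_iff.2 fun i _ => g.yne _
  have hJ0 : (Matrix.of fun (j i : Fin g.X.d) =>
      g.X.T.D j (hh g H (Sum.map id cc (ε (g.e i))))).det ≠ 0 := by
    rw [det_h]
    exact mul_ne_zero hp hk0
  have hh0 : ∀ i : Fin g.X.d, hh g H (Sum.map id cc (ε (g.e i))) ≠ 0 := by
    intro i h0
    apply hJ0
    refine Matrix.det_eq_zero_of_column_eq_zero i fun j => ?_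
    rw [Matrix.of_apply, h0, map_zero]
  have h3 := gji v g.X.T.D A hA0 hA (fun i => hh g H (Sum.map id cc (ε (g.e i)))) hh0 hJ0
  rw [det_h, v.map_mul _ _ hp hk0, hk, v.ord_prod _ _ fun i _ => g.yne _] at h3
  have h4 : ∑ i, v.ord (hh g H (Sum.map id cc (ε (g.e i)))) =
      (∑ k ∈ KKG g G v, v.ord (aeval g.y (G k)) + ∑ l ∈ C1, v.ord (aeval g.y (q l.1))) +
        ∑ x, v.ord (g.y (cc x)) := by
    refine ((g.e.trans ε).sum_comp (fun x => v.ord (hh g H (Sum.map id cc x)))).trans ?_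
    rw [Fintype.sum_sum_type, Fintype.sum_sum_type]
    congr 1
    congr 1
    · rw [← Finset.sum_coe_sort (KKG g G v) fun k => v.ord (aeval g.y (G k)), hH]
      rfl
    · rw [← Finset.sum_coe_sort C1 fun l => v.ord (aeval g.y (q l.1)), hH]
      rfl
  have h5 : ∑ k, (Sum.elim (fun k : {k // k ∈ KKG g G v} => phi (expo (G k.1)) w)
        (fun l : {l // l ∈ C1} => mq l.1.1) k) =
      ∑ k ∈ KKG g G v, phi (expo (G k)) w + ∑ l ∈ C1, mq l.1 := by
    rw [Fintype.sum_sum_type, ← Finset.sum_coe_sort (KKG g G v) fun k => phi (expo (G k)) w,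
      ← Finset.sum_coe_sort C1 fun l => mq l.1]
    rfl
  have h6 : ∑ l ∈ C1, (mq l.1 + 1) ≤ ∑ l ∈ C1, v.ord (aeval g.y (q l.1)) := by
    refine Finset.sum_le_sum fun l hl => ?_
    have h7 : aeval g.y (q l.1) ≠ 0 := by
      obtain ⟨i, hi⟩ := (g.e.trans ε).surjective (Sum.inl (Sum.inr ⟨l, hl⟩))
      have h8 := hh0 i
      have h9 : ε (g.e i) = Sum.inl (Sum.inr ⟨l, hl⟩) := hi
      rw [h9, hH] at h8
      exact h8
    refine (hop (q l.1) (mq l.1) ?_ ?_).resolve_left h7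
    · intro t ht
      rw [← hq1 l.1 l.2, mem_support_iff, Pool.Agent.TH165.ACC.coeff_part] at ht
      by_contra h2
      rw [if_neg (by omega)] at ht
      exact ht rfl
    · rw [hq1 l.1 l.2]
      exact hq2 l.1 l.2
  rw [Finset.sum_add_distrib, Finset.sum_const, nsmul_eq_mul, mul_one] at h6
  rw [h4, h5] at h3
  have hDc : Fintype.card {l // l ∉ D} = d + r - D.card := by
    rw [Fintype.card_subtype_compl, Fintype.card_fin]
    congr 1
    exact Fintype.card_coe D
  have hDle : D.card ≤ d + r := by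
    have := Finset.card_le_univ D
    rwa [Fintype.card_fin] at this
  rw [hDc, Fintype.card_coe] at hcard
  rw [← hw] at h3 ⊢
  omega

/-- the lower bound of the log discrepancy -/
theorem lowG_real {g : CIGerm r d L} (b : Bdry g s) (hb : ∀ k, b.b k ≤ 1) {v : DVal L} {c : ℤ}
    {D : ℕ} (hmain : (-1 : ℤ) - ∑ j, phi (g.S j) (wt g.y v) + ((d : ℤ) - D) +
        (∑ k ∈ KKG g b.G v, v.ord (aeval g.y (b.G k)) - ∑ k ∈ KKG g b.G v,
          phi (expo (b.G k)) (wt g.y v) - (KKG g b.G v).card) ≤ c) :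
      la b.ψ g.S b.T b.b (wt g.y v) + d - D - ∑ k ∈ KKG g b.G v, b.b k ≤
        1 + (c : ℝ) + dot b.ψ (wt g.y v) -
          ∑ k, b.b k * (v.ord (aeval g.y (b.G k)) : ℝ) := by
  obtain ⟨w, hw⟩ : ∃ w, w = wt g.y v := ⟨_, rfl⟩
  rw [← hw] at hmain ⊢
  have hmainR : (-1 : ℝ) - ∑ j, (phi (g.S j) w : ℝ) + ((d : ℝ) - D) +
      (∑ k ∈ KKG g b.G v, (v.ord (aeval g.y (b.G k)) : ℝ) -
        ∑ k ∈ KKG g b.G v, (phi (expo (b.G k)) w : ℝ) - (KKG g b.G v).card) ≤ (c : ℝ) := by
    exact_mod_cast hmain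
  have h8 : ∑ k, b.b k * (v.ord (aeval g.y (b.G k)) : ℝ) -
      ∑ k, b.b k * (phi (b.T k) w : ℝ) - ∑ k ∈ KKG g b.G v, b.b k ≤
      ∑ k ∈ KKG g b.G v, (v.ord (aeval g.y (b.G k)) : ℝ) -
        ∑ k ∈ KKG g b.G v, (phi (expo (b.G k)) w : ℝ) - (KKG g b.G v).card := by
    have h9 : ∑ k, b.b k * (v.ord (aeval g.y (b.G k)) : ℝ) - ∑ k, b.b k * (phi (b.T k) w : ℝ) =
        ∑ k ∈ KKG g b.G v, b.b k * ((v.ord (aeval g.y (b.G k)) : ℝ) - phi (expo (b.G k)) w) := by
      rw [← Finset.sum_sub_distrib]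
      symm
      refine (Finset.sum_subset (Finset.subset_univ _) fun k _ hk => ?_).trans
        (Finset.sum_congr rfl fun k _ => mul_sub _ _ _)
      have h10 : ¬ phi (expo (b.G k)) (wt g.y v) < v.ord (aeval g.y (b.G k)) := fun h6 =>
        hk (Finset.mem_filter.2 ⟨Finset.mem_univ _, h6⟩)
      have h11 := phi_le_ord b v k
      have h12 : v.ord (aeval g.y (b.G k)) = phi (expo (b.G k)) w := by rw [hw]; omega
      rw [h12, sub_self, mul_zero]
    have h13 : (∑ k ∈ KKG g b.G v, (v.ord (aeval g.y (b.G k)) : ℝ) -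
        ∑ k ∈ KKG g b.G v, (phi (expo (b.G k)) w : ℝ) - ((KKG g b.G v).card : ℝ)) =
        ∑ k ∈ KKG g b.G v, ((v.ord (aeval g.y (b.G k)) : ℝ) - phi (expo (b.G k)) w - 1) := by
      rw [Finset.sum_sub_distrib, Finset.sum_sub_distrib, Finset.sum_const, nsmul_eq_mul, mul_one]
    rw [h9, h13, ← Finset.sum_sub_distrib]
    refine Finset.sum_le_sum fun k hk => ?_
    have h14 := (Finset.mem_filter.1 hk).2
    rw [← hw] at h14
    have h15 : (phi (expo (b.G k)) w : ℝ) + 1 ≤ (v.ord (aeval g.y (b.G k)) : ℝ) := by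
      exact_mod_cast h14
    have h16 := hb k
    nlinarith
  rw [la]
  linarith

end Pool.Agent.H895.SC
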