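import Mathlib
import Pool.Agent.H895.SC.Stm2

/-!
# SPLIT (helper996)
-/

set_option autoImplicit false

namespace Pool.Agent.H895.SC

open MvPolynomial

theorem split : S_SPLIT := by
  intro R _ _ hR P M _ _ ev hP κ hκ Ω _ _ _ _ σ _ c hc
  -- the map from the polynomial ring over `R`
  let Θ : MvPolynomial σ R →ₐ[ℂ] Ω := aevalTower ((IsScalarTower.toAlgHom ℂ M Ω).comp ev) c
  let Ψ : MvPolynomial σ R →ₐ[ℂ] MvPolynomial σ ℂ := mapAlgHom P
  let ev' : R →ₐ[ℂ] κ := ev.codRestrict κ.toSubalgebra hκ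
  have hfac : ∀ p : MvPolynomial σ R, Θ p = aeval c (map (ev' : R →+* κ) p) := by
    intro p
    induction p using MvPolynomial.induction_on with
    | C a =>
      rw [map_C, aeval_C]
      show aevalTower _ _ (C a) = _
      rw [aevalTower_C]
      rfl
    | add p q hp hq => rw [map_add, map_add, map_add, hp, hq]
    | mul_X p x hp =>
      rw [map_mul, map_mul, map_mul, hp, map_X, aeval_X]
      congr 1
      show aevalTower _ _ (X x) = _
      rw [aevalTower_X]
  have hker : ∀ p : MvPolynomial σ R, Θ p = 0 → Ψ p = 0 := by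
    intro p hp
    rw [hfac] at hp
    have h1 : map (ev' : R →+* κ) p = 0 := hc (by rw [hp, map_zero])
    ext m
    have h2 : (ev' : R →+* κ) (coeff m p) = 0 := by
      rw [← coeff_map, h1, coeff_zero]
    have h3 : ev (coeff m p) = 0 := by
      have := congrArg (fun x : κ => (x : M)) h2
      exact this
    show coeff m (map (P : R →+* ℂ) p) = coeff m 0
    rw [coeff_map, coeff_zero]
    exact hP _ h3
  have hmem : ∀ p, Θ p ∈ Θ.range := fun p => ⟨p, rfl⟩
  have hsurj : Function.Surjective Θ.rangeRestrict := Θ.rangeRestrict_surjective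
  have hI : ∀ p ∈ RingHom.ker Θ.rangeRestrict, Ψ p = 0 := by
    intro p hp
    apply hker
    have h1 : Θ.rangeRestrict p = 0 := hp
    have := congrArg (fun x : Θ.range => (x : Ω)) h1
    exact this
  let φ : Θ.range →ₐ[ℂ] MvPolynomial σ ℂ :=
    (Ideal.Quotient.liftₐ (RingHom.ker Θ.rangeRestrict) Ψ hI).comp
      (Ideal.quotientKerAlgEquivOfSurjective hsurj).symm.toAlgHom
  have hφ : ∀ p, φ (Θ.rangeRestrict p) = Ψ p := by
    intro p
    show (Ideal.Quotient.liftₐ (RingHom.ker Θ.rangeRestrict) Ψ hI)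
      ((Ideal.quotientKerAlgEquivOfSurjective hsurj).symm (Θ.rangeRestrict p)) = _
    have h1 : (Ideal.quotientKerAlgEquivOfSurjective hsurj).symm (Θ.rangeRestrict p) =
        Ideal.Quotient.mk _ p := by
      rw [AlgEquiv.symm_apply_eq]
      rfl
    rw [h1]
    rfl
  have hev : ∀ f, Θ (C f) = algebraMap M Ω (ev f) := by
    intro f
    show aevalTower _ _ (C f) = _
    rw [aevalTower_C]
    rfl
  have hcx : ∀ x, Θ (X x) = c x := by
    intro x
    show aevalTower _ _ (X x) = _
    rw [aevalTower_X]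
  refine ⟨Θ.range, fun f => hev f ▸ hmem _, fun x => hcx x ▸ hmem _, φ, ?_, ?_, ?_⟩
  · have h1 : Algebra.FiniteType ℂ (MvPolynomial σ R) := by
      have h2 : Algebra.FiniteType R (MvPolynomial σ R) := inferInstance
      exact Algebra.FiniteType.trans hR h2
    have h2 : Algebra.FiniteType ℂ Θ.range := Algebra.FiniteType.of_surjective Θ.rangeRestrict hsurj
    exact (Subalgebra.fg_iff_finiteType _).2 h2
  · intro f
    have h1 : (⟨algebraMap M Ω (ev f), hev f ▸ hmem _⟩ : Θ.range) = Θ.rangeRestrict (C f) :=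
      Subtype.ext (hev f).symm
    rw [h1, hφ]
    show map (P : R →+* ℂ) (C f) = _
    rw [map_C]
    rfl
  · intro x
    have h1 : (⟨c x, hcx x ▸ hmem _⟩ : Θ.range) = Θ.rangeRestrict (X x) :=
      Subtype.ext (hcx x).symm
    rw [h1, hφ]
    show map (P : R →+* ℂ) (X x) = _
    rw [map_X]

end Pool.Agent.H895.SC
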