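import Mathlib
import Pool.Agent.H895.SC.LowG
import Pool.Agent.H895.SC.DV
import Pool.Agent.H895.SC.Split

/-!
# Reduction to the residue field of a suitable discrete valuation
-/

set_option autoImplicit false
set_option linter.unusedVariables false
set_option linter.unusedSectionVars false

namespace Pool.Agent.H895.SC

open Pool.Agent.H436R3.Fol Pool.Agent.H436R3.KT Pool.Agent.W497.Mld MvPolynomial
open Pool.Agent.TH165.ACC (pr ex Prim Cn Hs lead part mldsR mvI mem_mvI ord_eq_zero_of_notMem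
  lead_eq euler_part support_euler exists_nat_ex pr_sub)
open Pool.Agent.Helper43K9.NH (ch AA wt Inn expo phi dot Phi' reg_mul_zpow' phi_expo der_aeval
  ge_of_weights reg_unit' Phi'_monomial ch_sub ch_ne ch_ex ord_ch aeval_mon)

variable {n : ℕ} {L : Type} [Field L] [Algebra ℂ L]

section rho

variable {y : Fin n → L} (hy : ∀ i, y i ≠ 0) {v : DVal L} {π : L} (hπ : π ≠ 0) (h1 : v.ord π = 1)
  {M : Type} [Field M] [Algebra ℂ M] {ρ : v.O →+* M} (hρ : ∀ x, ρ x = 0 ↔ v.Pos (x : L))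
  (hρc : ∀ c, ρ ⟨algebraMap ℂ L c, v.reg_const c⟩ = algebraMap ℂ M c)

include hρ hρc in
theorem rho_ch' (m : Fin n → ℤ) :
    RedTo ρ (ch y m * π ^ (-pr m (wt y v))) (ch (eta hy hπ h1 ρ) m) := by
  have h : v.Reg (ch y m * π ^ (-pr m (wt y v))) := by
    right
    rw [v.map_mul _ _ (ch_ne hy _) (zpow_ne_zero _ hπ), v.ord_zpow hπ, h1, ord_ch hy]
    omega
  refine ⟨h, ?_⟩
  obtain ⟨s, t, hst⟩ := exists_nat_ex m
  have h2 : Phi' hy hπ h1 (monomial s 1) = ⟨ch y m * π ^ (-pr m (wt y v)), h⟩ *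
      Phi' hy hπ h1 (monomial t 1) := by
    apply Subtype.ext
    change (Phi' hy hπ h1 (monomial s 1) : L) = ch y m * π ^ (-pr m (wt y v)) *
      (Phi' hy hπ h1 (monomial t 1) : L)
    rw [Phi'_monomial, Phi'_monomial, ← ch_ex, ← ch_ex, hst, ch_sub hy, pr_sub]
    have h4 := ch_ne hy (ex t)
    have h5 : π ^ (-pr (ex s) (wt y v)) = π ^ (-(pr (ex s) (wt y v) - pr (ex t) (wt y v))) *
        π ^ (-pr (ex t) (wt y v)) := by
      rw [← zpow_add₀ hπ]
      congr 1
      ring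
    rw [h5]
    field_simp
  have h3 := congrArg ρ h2
  rw [map_mul, rho_Phi hy hπ h1 hρc, rho_Phi hy hπ h1 hρc, ← ch_ex, ← ch_ex] at h3
  have hη := eta_ne hy hπ h1 hρ
  have h4 : ρ ⟨ch y m * π ^ (-pr m (wt y v)), h⟩ =
      ch (eta hy hπ h1 ρ) (ex s) * (ch (eta hy hπ h1 ρ) (ex t))⁻¹ := by
    rw [h3, mul_assoc, mul_inv_cancel₀ (ch_ne hη _), mul_one]
  rw [h4, hst, ← ch_sub hη]

/-- the residue field -/
theorem exists_rho (v : DVal L) : ∃ (M : Type) (_ : Field M) (_ : Algebra ℂ M)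
      (ρ : v.O →+* M), (∀ x, ρ x = 0 ↔ v.Pos (x : L)) ∧
      (∀ c, ρ ⟨algebraMap ℂ L c, v.reg_const c⟩ = algebraMap ℂ M c) :=
  ⟨Pool.Agent.Helper43K9.LS.Kp v, inferInstance,
    ((Pool.Agent.Helper43K9.LS.red v).comp
      ((algebraMap ℂ L).codRestrict v.O fun c => v.reg_const c)).toAlgebra,
    Pool.Agent.Helper43K9.LS.red v, fun x => Pool.Agent.Helper43K9.LS.red_eq_zero,
    fun c => rfl⟩

end rho

theorem dvred {R : Type} [CommRing R] [Algebra ℂ R]
    (hfg : Algebra.FiniteType ℂ R) (P : R →ₐ[ℂ] ℂ) {M : Type} [Field M] [Algebra ℂ M]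
    (ev : R →ₐ[ℂ] M) (hevP : ∀ f, ev f = 0 → P f = 0) (κ : IntermediateField ℂ M)
    (hκ : ∀ f, ev f ∈ κ) {Ω : Type} [Field Ω] [Algebra ℂ Ω] [Algebra M Ω] [IsScalarTower ℂ M Ω]
    {σ : Type} [Finite σ] (c : σ → Ω) (hc : AlgebraicIndependent κ c) (η : Fin n → M)
    (hη : ∀ l, η l ≠ 0) (hne : ∃ f, ev f ≠ 0 ∧ P f = 0) :
    ∃ (k : Type) (_ : Field k) (_ : Algebra ℂ k) (ζ : Fin n → k) (u : Fin n → ℤ) (cb : σ → k),
      (∀ l, ζ l ≠ 0) ∧ AlgebraicIndependent ℂ cb ∧
      (∀ (m : Fin n → ℤ) (f : R), ∏ l, η l ^ m l = ev f → P f = 0 → 0 < pr m u) ∧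
      (∀ q : MvPolynomial (Fin n) ℂ, q ≠ 0 → aeval η q = 0 → aeval ζ (lead u q) = 0) ∧
      (∀ (A : Finset (Fin n → ℤ)) (C : (Fin n → ℤ) → Ω) (Cb : (Fin n → ℤ) → k),
        (∀ m ∈ A, ∃ s, C m = c s ∧ Cb m = cb s) →
        ∑ m ∈ A, C m * algebraMap M Ω (∏ l, η l ^ m l) = 0 →
        ∑ m ∈ A with (∀ m' ∈ A, pr m u ≤ pr m' u), Cb m * ∏ l, ζ l ^ m l = 0) ∧
      (∀ (ι : Type) [Fintype ι] [DecidableEq ι] (q : ι → MvPolynomial (Fin n) ℂ)
        (τ : ι → Fin n), (∀ b, q b ≠ 0) →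
        aeval η (Matrix.of fun a b => X (τ a) * pderiv (τ a) (q b)).det = 0 →
        (Matrix.of fun a b => aeval ζ (X (τ a) * pderiv (τ a) (lead u (q b)))).det = 0) := by
  classical
  obtain ⟨S0, hev, hcS, φ, hS, hφ, hφc⟩ := split hfg P ev hevP κ hκ c hc
  have hp : (RingHom.ker φ : Ideal S0).IsPrime := RingHom.ker_isPrime _
  have hp0 : (RingHom.ker φ : Ideal S0) ≠ ⊥ := by
    obtain ⟨f, hf1, hf2⟩ := hne
    intro h0
    have h1 : (⟨algebraMap M Ω (ev f), hev f⟩ : S0) ∈ (RingHom.ker φ : Ideal S0) := by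
      rw [RingHom.mem_ker]
      change φ _ = 0
      rw [hφ, hf2, map_zero]
    rw [h0, Ideal.mem_bot] at h1
    have h2 := congrArg Subtype.val h1
    change algebraMap M Ω (ev f) = 0 at h2
    rw [map_eq_zero] at h2
    exact hf1 h2
  obtain ⟨L, hSL, μ, hZ, hμ⟩ := dv S0 hS _ hp hp0 (Finset.univ.image fun l => algebraMap M Ω (η l))
  have hηL : ∀ l, algebraMap M Ω (η l) ∈ L := fun l => hZ _ (Finset.mem_image_of_mem _
    (Finset.mem_univ l))
  let y : Fin n → L := fun l => ⟨algebraMap M Ω (η l), hηL l⟩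
  have hy : ∀ l, y l ≠ 0 := by
    intro l h0
    have h2 := congrArg Subtype.val h0
    change algebraMap M Ω (η l) = 0 at h2
    rw [map_eq_zero] at h2
    exact hη l h2
  have hyΩ : ∀ m : Fin n → ℤ, ((ch y m : L) : Ω) = algebraMap M Ω (∏ l, η l ^ m l) := by
    intro m
    rw [map_prod]
    have : ((ch y m : L) : Ω) = L.val (ch y m) := rfl
    rw [this, ch, map_prod]
    refine Finset.prod_congr rfl fun l _ => ?_
    rw [map_zpow₀, map_zpow₀]
    rfl
  have hyq : ∀ q : MvPolynomial (Fin n) ℂ, ((aeval y q : L) : Ω) = algebraMap M Ω (aeval η q) := by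
    intro q
    have h1 : ((aeval y q : L) : Ω) = L.val (aeval y q) := rfl
    have h2 : algebraMap M Ω (aeval η q) = IsScalarTower.toAlgHom ℂ M Ω (aeval η q) := rfl
    rw [h1, h2, ← AlgHom.comp_apply, ← AlgHom.comp_apply]
    congr 1
    apply MvPolynomial.algHom_ext
    intro i
    rw [AlgHom.comp_apply, AlgHom.comp_apply, aeval_X, aeval_X]
    rfl
  obtain ⟨π, hπ, h1⟩ := μ.surj
  obtain ⟨k, fk, ak, ρ, hρ, hρc⟩ := exists_rho μ
  have hreg : ∀ f : S0, μ.Reg ⟨f, hSL f f.2⟩ := fun f => (hμ f).1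
  let cO : σ → μ.O := fun s => ⟨⟨c s, hSL _ (hcS s)⟩, hreg ⟨c s, hcS s⟩⟩
  refine ⟨k, fk, ak, eta hy hπ h1 ρ, wt y μ, fun s => ρ (cO s), eta_ne hy hπ h1 hρ, ?_, ?_, ?_,
    ?_, ?_⟩
  · -- algebraic independence
    rw [algebraicIndependent_iff]
    intro p hp'
    let Θ : MvPolynomial σ ℂ →+* μ.O :=
      eval₂Hom ((algebraMap ℂ L).codRestrict μ.O fun c => μ.reg_const c) cO
    have hΘ : ∀ q, ρ (Θ q) = aeval (fun s => ρ (cO s)) q := by
      intro q
      have : ρ.comp Θ = (aeval (fun s => ρ (cO s)) : _ →ₐ[ℂ] k).toRingHom := by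
        apply MvPolynomial.ringHom_ext
        · intro a
          rw [RingHom.comp_apply, coe_eval₂Hom, eval₂_C]
          change _ = aeval _ (C a)
          rw [aeval_C]
          exact hρc a
        · intro i
          rw [RingHom.comp_apply, coe_eval₂Hom, eval₂_X]
          change _ = aeval _ (X i)
          rw [aeval_X]
      exact congrArg (fun f : MvPolynomial σ ℂ →+* k => f q) this
    have hΘ2 : ∀ q, (((Θ q : μ.O) : L) : Ω) =
        ((aeval (fun s => (⟨c s, hcS s⟩ : S0)) q : S0) : Ω) := by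
      intro q
      have h2 : (L.val : L →+* Ω).comp ((μ.O.subtype).comp Θ) =
          (S0.val.comp (aeval (fun s => (⟨c s, hcS s⟩ : S0)))).toRingHom := by
        apply MvPolynomial.ringHom_ext
        · intro a
          rw [RingHom.comp_apply, RingHom.comp_apply, coe_eval₂Hom, eval₂_C]
          change _ = S0.val (aeval _ (C a))
          rw [aeval_C]
          rfl
        · intro i
          rw [RingHom.comp_apply, RingHom.comp_apply, coe_eval₂Hom, eval₂_X]
          change _ = S0.val (aeval _ (X i))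
          rw [aeval_X]
          rfl
      exact congrArg (fun f : MvPolynomial σ ℂ →+* Ω => f q) h2
    have h3 : φ (aeval (fun s => (⟨c s, hcS s⟩ : S0)) p) = p := by
      have h4 : φ.comp (aeval (fun s => (⟨c s, hcS s⟩ : S0))) = AlgHom.id ℂ _ := by
        apply MvPolynomial.algHom_ext
        intro i
        rw [AlgHom.comp_apply, aeval_X, hφc]
        rfl
      exact congrArg (fun f : MvPolynomial σ ℂ →ₐ[ℂ] MvPolynomial σ ℂ => f p) h4
    rw [← hΘ, hρ] at hp'
    have h5 := (hμ (aeval (fun s => (⟨c s, hcS s⟩ : S0)) p)).2.1 (by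
      have h6 : (⟨((aeval (fun s => (⟨c s, hcS s⟩ : S0)) p : S0) : Ω), hSL _ (aeval
          (fun s => (⟨c s, hcS s⟩ : S0)) p).2⟩ : L) = ((Θ p : μ.O) : L) :=
        Subtype.ext (hΘ2 p).symm
      rw [h6]
      exact hp')
    rw [RingHom.mem_ker] at h5
    rw [← h3]
    exact h5
  · -- the weights
    intro m f hm hf
    have h2 : (⟨algebraMap M Ω (ev f), hev f⟩ : S0) ∈ (RingHom.ker φ : Ideal S0) := by
      rw [RingHom.mem_ker]
      change φ _ = 0
      rw [hφ, hf, map_zero]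
    have h3 := (hμ ⟨algebraMap M Ω (ev f), hev f⟩).2.2 h2
    have h4 : (⟨algebraMap M Ω (ev f), hSL _ (hev f)⟩ : L) = ch y m := by
      apply Subtype.ext
      rw [hyΩ, hm]
    have h5 : μ.Pos (ch y m) := by
      rw [← h4]
      exact h3
    rw [← ord_ch hy]
    rcases h5 with h5 | h5
    · exact absurd h5 (ch_ne hy _)
    · exact h5
  · -- the equations
    intro q hq0 hq
    have h2 : aeval y q = 0 := by
      apply Subtype.ext
      rw [hyq, hq, map_zero]
      rfl
    rw [lead_eq (phi_expo hq0 (wt y μ)).1 (phi_expo hq0 (wt y μ)).2]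
    exact part_of_ord hy hπ h1 hρ hρc (phi_expo hq0 (wt y μ)).2 (Or.inl h2)
  · -- the relations
    intro A Cc Cb hCs hrel
    by_cases hA : A.Nonempty
    swap
    · rw [Finset.not_nonempty_iff_eq_empty] at hA
      subst hA
      simp
    obtain ⟨m1, hm1, hmin⟩ := A.exists_min_image (fun m => pr m (wt y μ)) hA
    have hfil : (A.filter fun m => ∀ m' ∈ A, pr m (wt y μ) ≤ pr m' (wt y μ)) =
        A.filter fun m => pr m (wt y μ) = pr m1 (wt y μ) := by
      apply Finset.filter_congr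
      intro m hm
      constructor
      · intro h
        exact le_antisymm (h m1 hm1) (hmin m hm)
      · intro h m' hm'
        rw [h]
        exact hmin m' hm'
    rw [hfil]
    have hCL : ∀ m ∈ A, ∃ a : μ.O, ((a : L) : Ω) = Cc m ∧ ρ a = Cb m := by
      intro m hm
      obtain ⟨s, hs1, hs2⟩ := hCs m hm
      exact ⟨cO s, hs1.symm, hs2.symm⟩
    choose! a ha1 ha2 using hCL
    have hred : ∀ m ∈ A, ∃ e : μ.O, (e : L) = ch y m * π ^ (-pr m1 (wt y μ)) ∧
        ρ e = if pr m (wt y μ) = pr m1 (wt y μ) then ch (eta hy hπ h1 ρ) m else 0 := by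
      intro m hm
      by_cases hmm : pr m (wt y μ) = pr m1 (wt y μ)
      · obtain ⟨h2, h3⟩ := rho_ch' hy hπ h1 hρ hρc m
        rw [if_pos hmm]
        refine ⟨⟨_, h2⟩, ?_, h3⟩
        change ch y m * π ^ (-pr m (wt y μ)) = _
        rw [hmm]
      · have h2 : μ.Pos (ch y m * π ^ (-pr m1 (wt y μ))) := by
          right
          rw [μ.map_mul _ _ (ch_ne hy _) (zpow_ne_zero _ hπ), μ.ord_zpow hπ, h1, ord_ch hy]
          have := hmin m hm
          omega
        have h3 : μ.Reg (ch y m * π ^ (-pr m1 (wt y μ))) := by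
          rcases h2 with h2 | h2
          · exact Or.inl h2
          · exact Or.inr h2.le
        rw [if_neg hmm]
        exact ⟨⟨_, h3⟩, rfl, (hρ _).2 h2⟩
    choose! e he1 he2 using hred
    have hsum : ∑ m ∈ A, a m * e m = 0 := by
      apply Subtype.ext
      apply Subtype.ext
      have h2 : (((∑ m ∈ A, a m * e m : μ.O) : L) : Ω) =
          ∑ m ∈ A, (((a m : μ.O) : L) : Ω) * (((e m : μ.O) : L) : Ω) := by
        have h3 : (((∑ m ∈ A, a m * e m : μ.O) : L) : Ω) =
          ((L.val : L →+* Ω).comp μ.O.subtype) (∑ m ∈ A, a m * e m) := rfl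
        rw [h3, map_sum]
        refine Finset.sum_congr rfl fun m _ => ?_
        rw [map_mul]
        rfl
      rw [h2]
      have h4 : ∑ m ∈ A, (((a m : μ.O) : L) : Ω) * (((e m : μ.O) : L) : Ω) =
          (∑ m ∈ A, Cc m * algebraMap M Ω (∏ l, η l ^ m l)) *
            ((π ^ (-pr m1 (wt y μ)) : L) : Ω) := by
        rw [Finset.sum_mul]
        refine Finset.sum_congr rfl fun m hm => ?_
        rw [ha1 m hm, he1 m hm, ← hyΩ]
        push_cast
        ring
      rw [h4, hrel, zero_mul]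
      rfl
    have h5 := congrArg ρ hsum
    rw [map_sum, map_zero] at h5
    rw [← h5, Finset.sum_filter]
    refine Finset.sum_congr rfl fun m hm => ?_
    rw [map_mul, ha2 m hm, he2 m hm]
    split_ifs
    · rfl
    · rw [mul_zero]
  · -- the minors
    intro ι _ _ q τ hq h0
    by_contra hne
    obtain ⟨m, hm⟩ : ∃ m : ι → ℤ, m = fun b => phi (expo (q b)) (wt y μ) := ⟨_, rfl⟩
    have hmb : ∀ b, phi (expo (q b)) (wt y μ) = m b := fun b => by rw [hm]
    have hm1 := fun b => (phi_expo (hq b) (wt y μ)).1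
    have hm2 := fun b => (phi_expo (hq b) (wt y μ)).2
    simp only [hmb] at hm1 hm2
    obtain ⟨n1, -⟩ := det_ord_zero hρ (Matrix.of fun a b =>
      (fun b => π ^ (-m b)) b * (Matrix.of fun a b => aeval y (X (τ a) * pderiv (τ a) (q b))) a b)
      _ (by
        intro a b
        rw [Matrix.of_apply, Matrix.of_apply, mul_comm]
        rw [Matrix.of_apply, lead_eq (hm1 b) (hm2 b), euler_part]
        exact rho_part hy hπ h1 hρ hρc fun t ht => hm2 b t (support_euler _ _ ht)) hne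
    rw [Matrix.det_mul_row] at n1
    apply right_ne_zero_of_mul n1
    have h2 := (aeval y : MvPolynomial (Fin n) ℂ →ₐ[ℂ] L).toRingHom.map_det
      (Matrix.of fun a b => X (τ a) * pderiv (τ a) (q b))
    have h3 : (aeval y : MvPolynomial (Fin n) ℂ →ₐ[ℂ] L)
      (Matrix.of fun a b => X (τ a) * pderiv (τ a) (q b)).det = 0 := by
      apply Subtype.ext
      rw [hyq, h0, map_zero]
      rfl
    exact h2.symm.trans h3

end Pool.Agent.H895.SC
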