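import Mathlib
import Pool.Agent.H895.SC.Stm
import Pool.Graph.R_seed8.H135R2.VS.Der

/-! GP: generic hyperplane sections are algebraically independent (task of helper895). -/

set_option autoImplicit false

namespace Pool.Agent.H895.SC

namespace GPaux

open Pool.Agent.H135R2.VS

/-! ### Derivations -/

section der

variable {κ M Ω : Type} [Field κ] [Field M] [Field Ω] [Algebra κ M] [Algebra M Ω] [Algebra κ Ω]
  [IsScalarTower κ M Ω]

theorem der_adjoin (D : Derivation κ M Ω) (S : Set M) (hS : ∀ a ∈ S, D a = 0) (x : M)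
    (hx : x ∈ IntermediateField.adjoin κ S) : D x = 0 := by
  induction hx using IntermediateField.adjoin_induction with
  | mem x hx => exact hS x hx
  | algebraMap x => exact D.map_algebraMap x
  | add x y _ _ hx hy => rw [map_add, hx, hy, add_zero]
  | inv x _ hx => rw [D.leibniz_inv, hx, smul_zero]
  | mul x y _ _ hx hy => rw [D.leibniz, hx, hy, smul_zero, smul_zero, add_zero]

theorem der_zero [CharZero κ] (D : Derivation κ M Ω) {ι : Type} (b : ι → M)
    (hb : IsTranscendenceBasis κ b) (h : ∀ i, D (b i) = 0) (a : M) : D a = 0 := by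
  have halg := hb.isAlgebraic_field
  have hS : ∀ x ∈ Set.range b, D x = 0 := by
    rintro x ⟨i, rfl⟩
    exact h i
  have hD := der_adjoin D _ hS
  let D' : Derivation (IntermediateField.adjoin κ (Set.range b)) M Ω :=
    { toFun := D
      map_add' := D.map_add
      map_smul' := by
        intro l y
        change D ((l : M) * y) = (l : M) • D y
        rw [D.leibniz, hD l l.2, smul_zero, add_zero]
      map_one_eq_zero' := D.map_one_eq_zero
      leibniz' := D.leibniz }
  have h1 : D' a = D a := rfl
  have hint : IsIntegral (IntermediateField.adjoin κ (Set.range b)) a :=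
    isAlgebraic_iff_isIntegral.1 (halg.isAlgebraic a)
  have h2 : D' (Polynomial.aeval a (minpoly (IntermediateField.adjoin κ (Set.range b)) a)) =
      Polynomial.aeval a (Polynomial.derivative
        (minpoly (IntermediateField.adjoin κ (Set.range b)) a)) • D' a := D'.map_aeval _ _
  rw [minpoly.aeval, map_zero] at h2
  have h3 : Polynomial.aeval a
      (Polynomial.derivative (minpoly (IntermediateField.adjoin κ (Set.range b)) a)) ≠ 0 :=
    (minpoly.irreducible hint).separable.aeval_derivative_ne_zero (minpoly.aeval _ _)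
  rw [← h1]
  exact (smul_eq_zero.1 h2.symm).resolve_left h3

/-- extension of a derivation of `M` -/
theorem ext_der [CharZero κ] {σ : Type} (T : σ → Ω) (hT : AlgebraicIndependent M T)
    (δ : Derivation κ M M) : ∃ D : Derivation κ Ω Ω,
    (∀ a, D (algebraMap M Ω a) = algebraMap M Ω (δ a)) ∧ ∀ t, D (T t) = 0 := by
  obtain ⟨ι, b, hb⟩ := exists_isTranscendenceBasis' κ M
  have h := hb.1.sumElim_comp hT
  obtain ⟨D, hD⟩ := exists_der h (Sum.elim (fun _ => 0) (fun i => algebraMap M Ω (δ (b i))))
  refine ⟨D, fun a => ?_, fun t => hD (Sum.inl t)⟩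
  have h0 := der_zero (D.compAlgebraMap M - (Algebra.linearMap M Ω).compDer δ) b hb (by
    intro i
    have h1 := hD (Sum.inr i)
    change D (algebraMap M Ω (b i)) - algebraMap M Ω (δ (b i)) = 0
    rw [sub_eq_zero]
    exact h1) a
  change D (algebraMap M Ω a) - algebraMap M Ω (δ a) = 0 at h0
  exact sub_eq_zero.1 h0

theorem sum_der {ι : Type} (s : Finset ι) (F : ι → Derivation κ M Ω) (x : M) :
    (∑ k ∈ s, F k) x = ∑ k ∈ s, F k x := by
  classical
  induction s using Finset.induction_on with
  | empty => simp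
  | insert a s ha ih => rw [Finset.sum_insert ha, Finset.sum_insert ha, Derivation.add_apply, ih]

/-- a derivation vanishing on `M` -/
theorem var_der [CharZero M] {σ : Type} (T : σ → Ω) (hT : AlgebraicIndependent M T)
    (v : σ → Ω) : ∃ D : Derivation κ Ω Ω,
    (∀ a, D (algebraMap M Ω a) = 0) ∧ ∀ t, D (T t) = v t := by
  obtain ⟨D, hD⟩ := exists_der hT v
  exact ⟨D.restrictScalars κ, fun a => D.map_algebraMap a, hD⟩

/-- the logarithmic derivative of a monomial -/
theorem der_mono {n : ℕ} (δ : Derivation κ M M) (η : Fin n → M) (hη : ∀ l, η l ≠ 0)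
    (m : Fin n → ℤ) (s : Finset (Fin n)) :
    δ (∏ l ∈ s, η l ^ m l) = (∏ l ∈ s, η l ^ m l) * ∑ l ∈ s, (m l : M) * (δ (η l) / η l) := by
  classical
  induction s using Finset.induction_on with
  | empty => simp
  | insert a s ha ih =>
    rw [Finset.prod_insert ha, Finset.sum_insert ha, δ.leibniz, ih, δ.leibniz_zpow]
    have h1 : η a ^ m a = η a ^ (m a - 1) * η a := by
      rw [zpow_sub_one₀ (hη a), inv_mul_cancel_right₀ (hη a)]
    simp only [smul_eq_mul, zsmul_eq_mul]
    rw [h1]
    field_simp [hη a]
    ring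

end der

/-! ### The matrix of the derivatives of the monomials -/

section lin

variable {M : Type} [Field M] [Algebra ℂ M] (κ : IntermediateField ℂ M) {n : ℕ}

theorem exists_mat (η : Fin n → M) (hη : ∀ l, η l ≠ 0) (D : Finset (Fin n))
    (hind : AlgebraicIndependent κ fun l : D => η l) (w0 : Fin n → ℤ) (A : Finset (Fin n → ℤ))
    (hker : ∀ u : Fin n → M, (∀ m ∈ A, ∑ l, (m l : M) * u l = 0) →
      ∃ c : M, ∀ l, u l = c * (w0 l : M)) (e : ℕ)
    (he : e = D.card - (if w0 = 0 then 0 else 1)) :
    ∃ (δ : Fin e → Derivation κ M M) (C : Fin e → A → M), ∀ i k,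
      ∑ m : A, C i m * δ k (∏ l, η l ^ (m.1 l)) = if i = k then 1 else 0 := by
  classical
  have hc0 : CharZero κ := charZero_of_injective_algebraMap (algebraMap ℂ κ).injective
  have hd : ∀ j : D, ∃ d : Derivation κ M M, ∀ l : D, d (η l) = if l = j then η l else 0 :=
    fun j => exists_der hind _
  choose d hd using hd
  -- the linear map
  let dd : (D → M) →ₗ[M] Derivation κ M M := Fintype.linearCombination M d
  have hdd : ∀ (a : D → M) (x : M), dd a x = ∑ j, a j * d j x := by
    intro a x
    change (Fintype.linearCombination M d a) x = _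
    rw [Fintype.linearCombination_apply, sum_der]
    rfl
  let Φ : (D → M) →ₗ[M] (A → M) :=
    { toFun := fun a m => dd a (∏ l, η l ^ (m.1 l))
      map_add' := by intro a b; funext m; simp
      map_smul' := by intro a b; funext m; simp }
  have hΦ : ∀ a m, Φ a m = dd a (∏ l, η l ^ (m.1 l)) := fun _ _ => rfl
  -- its kernel
  have hk : ∀ a, Φ a = 0 → ∃ c : M, ∀ j : D, a j = c * (w0 j : M) := by
    intro a ha
    obtain ⟨c, hc⟩ := hker (fun l => dd a (η l) / η l) (by
      intro m hm
      have h1 : Φ a ⟨m, hm⟩ = 0 := by rw [ha]; rfl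
      rw [hΦ, der_mono (dd a) η hη m Finset.univ] at h1
      exact (mul_eq_zero.1 h1).resolve_left
        (Finset.prod_ne_zero_iff.2 fun l _ => zpow_ne_zero _ (hη l)))
    refine ⟨c, fun j => ?_⟩
    rw [← hc j, hdd]
    have h2 : ∑ i, a i * d i (η j) = a j * η j := by
      rw [Finset.sum_eq_single j]
      · rw [hd, if_pos rfl]
      · intro i _ hij
        rw [hd, if_neg (Ne.symm hij), mul_zero]
      · intro h
        exact absurd (Finset.mem_univ _) h
    rw [h2, mul_div_cancel_right₀ _ (hη j)]
  have hfk : Module.finrank M (LinearMap.ker Φ) ≤ if w0 = 0 then 0 else 1 := by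
    split_ifs with h
    · have : LinearMap.ker Φ = ⊥ := by
        rw [LinearMap.ker_eq_bot']
        intro a ha
        obtain ⟨c, hc⟩ := hk a ha
        funext j
        rw [hc j, h]
        simp
      rw [this, finrank_bot]
    · have h1 : LinearMap.ker Φ ≤ Submodule.span M {fun j : D => (w0 j : M)} := by
        intro a ha
        obtain ⟨c, hc⟩ := hk a (LinearMap.mem_ker.1 ha)
        rw [Submodule.mem_span_singleton]
        refine ⟨c, funext fun j => ?_⟩
        rw [hc j]
        rfl
      refine (Submodule.finrank_mono h1).trans ?_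
      refine (finrank_span_le_card _).trans ?_
      simp
  have hrk : e ≤ Module.finrank M (LinearMap.range Φ) := by
    have h1 := LinearMap.finrank_range_add_finrank_ker Φ
    have h2 : Module.finrank M (D → M) = D.card := by
      rw [Module.finrank_fintype_fun_eq_card, Fintype.card_coe]
    omega
  obtain ⟨f, hf⟩ := exists_linearIndependent_of_le_finrank hrk
  have hpre : ∀ k, ∃ a : D → M, Φ a = (f k).1 := fun k => (f k).2
  choose a ha using hpre
  have hli : LinearIndependent M fun k => Φ (a k) := by
    have h1 := hf.map' (LinearMap.range Φ).subtype (LinearMap.range Φ).ker_subtype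
    have h2 : (fun k => Φ (a k)) = (LinearMap.range Φ).subtype ∘ f := funext fun k => ha k
    rw [h2]
    exact h1
  have hinj : LinearMap.ker (Fintype.linearCombination M fun k => Φ (a k)) = ⊥ := by
    rw [LinearMap.ker_eq_bot]
    exact linearIndependent_iff_injective_fintypeLinearCombination.1 hli
  obtain ⟨g, hg⟩ := LinearMap.exists_leftInverse_of_injective _ hinj
  refine ⟨fun k => dd (a k), fun i m => g (Pi.single m 1) i, fun i k => ?_⟩
  have h1 : g (Φ (a k)) = Pi.single k 1 := by
    have h2 := LinearMap.congr_fun hg (Pi.single k 1)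
    rw [LinearMap.comp_apply, Fintype.linearCombination_apply_single, one_smul] at h2
    exact h2
  have h3 : Φ (a k) = ∑ m, Φ (a k) m • (Pi.single m (1 : M) : A → M) := by
    funext m'
    simp [Finset.sum_apply, Pi.single_apply]
  have h4 : g (Φ (a k)) i = ∑ m : A, g (Pi.single m 1) i * dd (a k) (∏ l, η l ^ (m.1 l)) := by
    conv_lhs => rw [h3]
    rw [map_sum, Finset.sum_apply]
    refine Finset.sum_congr rfl fun m _ => ?_
    rw [map_smul, Pi.smul_apply, smul_eq_mul, mul_comm]
    rfl
  rw [← h4, h1, Pi.single_apply]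

end lin

/-! ### The generic sections -/

section gen

variable {M : Type} [Field M] [Algebra ℂ M] (κ : IntermediateField ℂ M) {A Ω : Type} [Fintype A]
  [DecidableEq A] [Field Ω] [Algebra M Ω] {e : ℕ}

/-- the generic coefficients -/
noncomputable def cc (T : Fin e × A → Ω) (z : A → M) (o : A) (i : Fin e) (m : A) : Ω :=
  if m = o then -∑ m' ∈ Finset.univ.erase o, T (i, m') * algebraMap M Ω (z m') else T (i, m)

theorem cc_sum (T : Fin e × A → Ω) (z : A → M) (o : A) (ho : z o = 1) (i : Fin e) :
    ∑ m, cc T z o i m * algebraMap M Ω (z m) = 0 := by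
  rw [← Finset.add_sum_erase _ _ (Finset.mem_univ o), ho, map_one, mul_one]
  have h1 : cc T z o i o = -∑ m' ∈ Finset.univ.erase o, T (i, m') * algebraMap M Ω (z m') :=
    if_pos rfl
  rw [h1, neg_add_eq_zero]
  refine Finset.sum_congr rfl fun m hm => ?_
  have h2 : cc T z o i m = T (i, m) := if_neg (Finset.ne_of_mem_erase hm)
  rw [h2]

theorem cc_ind (T : Fin e × A → Ω) (hT : AlgebraicIndependent M T) (z : A → M) (o : A)
    (ho : z o = 1) (δ : Fin e → Derivation κ M M) (C : Fin e → A → M)
    (hC : ∀ i k, ∑ m, C i m * δ k (z m) = if i = k then 1 else 0) :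
    AlgebraicIndependent κ fun x : Fin e × A => cc T z o x.1 x.2 := by
  have hc0 : CharZero κ := charZero_of_injective_algebraMap (algebraMap ℂ κ).injective
  have hc1 : CharZero M := charZero_of_injective_algebraMap (algebraMap ℂ M).injective
  have hδo : ∀ k, δ k (z o) = 0 := fun k => by rw [ho, Derivation.map_one_eq_zero]
  have hE : ∀ k, ∃ D : Derivation κ Ω Ω,
    (∀ a, D (algebraMap M Ω a) = algebraMap M Ω (δ k a)) ∧ ∀ t, D (T t) = 0 := fun k =>
    ext_der T hT (δ k)
  choose E hE1 hE2 using hE
  -- the matrix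
  let N' : Matrix (Fin e) (Fin e) (MvPolynomial (Fin e × A) M) := fun i k =>
    ∑ m, MvPolynomial.X (i, m) * MvPolynomial.C (δ k (z m))
  let N : Matrix (Fin e) (Fin e) Ω := fun i k => ∑ m, T (i, m) * algebraMap M Ω (δ k (z m))
  have hdet' : N'.det ≠ 0 := by
    intro h0
    have h1 := congrArg (MvPolynomial.eval (fun x : Fin e × A => C x.1 x.2)) h0
    rw [RingHom.map_det, map_zero] at h1
    have h2 : (MvPolynomial.eval (fun x : Fin e × A => C x.1 x.2)).mapMatrix N' = 1 := by
      ext i k
      rw [RingHom.mapMatrix_apply, Matrix.map_apply, Matrix.one_apply, ← hC i k]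
      simp only [N', map_sum, map_mul, MvPolynomial.eval_X, MvPolynomial.eval_C]
    rw [h2, Matrix.det_one] at h1
    exact one_ne_zero h1
  have hdet : N.det ≠ 0 := by
    have h1 : (MvPolynomial.aeval T : MvPolynomial (Fin e × A) M →ₐ[M] Ω).mapMatrix N' = N := by
      ext i k
      rw [AlgHom.mapMatrix_apply, Matrix.map_apply]
      simp only [N', N, map_sum, map_mul, MvPolynomial.aeval_X, MvPolynomial.aeval_C]
    rw [← h1, ← AlgHom.map_det]
    intro h0
    exact hdet' (hT (by rw [h0, map_zero]))
  apply algInd_of_der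
  intro v
  obtain ⟨D0, hD1, hD2⟩ := var_der (κ := κ) T hT v
  let rr : Fin e → Ω := fun i => -v (i, o) - ∑ m ∈ Finset.univ.erase o,
    v (i, m) * algebraMap M Ω (z m)
  let β : Fin e → Ω := N⁻¹.mulVec rr
  have hβ : ∀ i, ∑ k, N i k * β k = rr i := by
    intro i
    have h1 : N.mulVec β = rr := by
      rw [Matrix.mulVec_mulVec, Matrix.mul_nonsing_inv _ (isUnit_iff_ne_zero.2 hdet),
        Matrix.one_mulVec]
    exact congrFun h1 i
  refine ⟨D0 + ∑ k, β k • E k, ?_⟩
  have hval : ∀ x : Ω, (D0 + ∑ k, β k • E k) x = D0 x + ∑ k, β k * E k x := by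
    intro x
    rw [Derivation.add_apply, sum_der]
    rfl
  have hTv : ∀ t, (D0 + ∑ k, β k • E k) (T t) = v t := by
    intro t
    rw [hval, hD2]
    simp [hE2]
  have hzv : ∀ a : M, (D0 + ∑ k, β k • E k) (algebraMap M Ω a) =
      ∑ k, β k * algebraMap M Ω (δ k a) := by
    intro a
    rw [hval, hD1, zero_add]
    simp [hE1]
  rintro ⟨i, m⟩
  by_cases hm : m = o
  · have h1 : cc T z o i m = -∑ m' ∈ Finset.univ.erase o, T (i, m') * algebraMap M Ω (z m') :=
      if_pos hm
    change (D0 + ∑ k, β k • E k) (cc T z o i m) = v (i, m)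
    rw [h1, map_neg, map_sum]
    have h2 : ∀ m' ∈ Finset.univ.erase o, (D0 + ∑ k, β k • E k) (T (i, m') * algebraMap M Ω (z m')) =
        v (i, m') * algebraMap M Ω (z m') +
          ∑ k, T (i, m') * (β k * algebraMap M Ω (δ k (z m'))) := by
      intro m' _
      rw [Derivation.leibniz, hTv, hzv, smul_eq_mul, smul_eq_mul, Finset.mul_sum]
      ring
    rw [Finset.sum_congr rfl h2, Finset.sum_add_distrib]
    have h3 : ∑ m' ∈ Finset.univ.erase o, ∑ k, T (i, m') * (β k * algebraMap M Ω (δ k (z m'))) =
        rr i := by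
      rw [← hβ i, Finset.sum_comm]
      refine Finset.sum_congr rfl fun k _ => ?_
      simp only [N]
      rw [← Finset.add_sum_erase _ _ (Finset.mem_univ o), hδo, map_zero, mul_zero, zero_add,
        Finset.sum_mul]
      refine Finset.sum_congr rfl fun m' _ => ?_
      ring
    rw [h3, hm]
    simp only [rr]
    ring
  · have h1 : cc T z o i m = T (i, m) := if_neg hm
    change (D0 + ∑ k, β k • E k) (cc T z o i m) = v (i, m)
    rw [h1, hTv]

end gen

end GPaux

theorem gp : S_GP := by
  classical
  intro M _ _ κ n η hη D hind w0 A hA hker e he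
  obtain ⟨δ, C, hC⟩ := GPaux.exists_mat κ η hη D hind w0 A hker e he
  let T : Fin e × A → FractionRing (MvPolynomial (Fin e × A) M) := fun t =>
    algebraMap (MvPolynomial (Fin e × A) M) (FractionRing (MvPolynomial (Fin e × A) M))
      (MvPolynomial.X t)
  have hT : AlgebraicIndependent M T := by
    have h1 := MvPolynomial.algebraicIndependent_X (Fin e × A) M
    exact h1.map' (f := IsScalarTower.toAlgHom M (MvPolynomial (Fin e × A) M)
      (FractionRing (MvPolynomial (Fin e × A) M))) (IsFractionRing.injective _ _)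
  refine ⟨FractionRing (MvPolynomial (Fin e × A) M), inferInstance, inferInstance, inferInstance,
    inferInstance, fun i m => GPaux.cc T (fun m : A => ∏ l, η l ^ (m.1 l)) ⟨0, hA⟩ i m, ?_, ?_⟩
  · intro i
    exact GPaux.cc_sum T (fun m : A => ∏ l, η l ^ (m.1 l)) ⟨0, hA⟩ (by simp) i
  · exact GPaux.cc_ind κ T hT (fun m : A => ∏ l, η l ^ (m.1 l)) ⟨0, hA⟩ (by simp) δ C hC

end Pool.Agent.H895.SC
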