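import Mathlib
import Pool.Agent.H895.SC.Stm
import Pool.Graph.R_seed8.TH165.ACC.Cara

/-!
# LPA (H895, lower semicontinuity of mlds of nondegenerate complete intersections, MP_f23696_ag)

Linear programming over `ℚ`: a finite set of certificates.
-/

set_option autoImplicit false

namespace Pool.Agent.H895.SC

open Pool.Agent.TH165.ACC (pr Cn)

/-- Farkas' lemma over `ℚ` with inequalities and equalities -/
theorem lpa_farkas {U : Type*} [AddCommGroup U] [Module ℚ U] {ι κ : Type} [Fintype ι] [Fintype κ]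
    (l : ι → (U →ₗ[ℚ] ℚ)) (g : κ → (U →ₗ[ℚ] ℚ)) (f : U →ₗ[ℚ] ℚ)
    (h : ∀ x, (∀ i, 0 ≤ l i x) → (∀ j, g j x = 0) → 0 ≤ f x) :
    ∃ (w : ι → ℚ) (v : κ → ℚ), (∀ i, 0 ≤ w i) ∧ ∀ x, f x = ∑ i, w i * l i x + ∑ j, v j * g j x := by
  classical
  let L : ι ⊕ (κ ⊕ κ) → (U →ₗ[ℚ] ℚ) := Sum.elim (fun i => -l i) (Sum.elim g fun j => -g j)
  let e : ι ⊕ (κ ⊕ κ) ≃ Fin (Fintype.card (ι ⊕ (κ ⊕ κ))) := Fintype.equivFin _
  obtain ⟨w, hw, hf⟩ := Pool.Agent.TH152.AC.farkas_q _ (fun k => L (e.symm k)) (-f) (by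
    intro x hx
    have h1 : ∀ t, L t x ≤ 0 := fun t => by
      have := hx (e t)
      rwa [Equiv.symm_apply_apply] at this
    have h2 : 0 ≤ f x := by
      apply h
      · intro i
        have := h1 (Sum.inl i)
        simp only [L, Sum.elim_inl, LinearMap.neg_apply] at this
        linarith
      · intro j
        have h3 := h1 (Sum.inr (Sum.inl j))
        have h4 := h1 (Sum.inr (Sum.inr j))
        simp only [L, Sum.elim_inl, Sum.elim_inr, LinearMap.neg_apply] at h3 h4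
        linarith
    rw [LinearMap.neg_apply]
    linarith)
  refine ⟨fun i => w (e (Sum.inl i)), fun j => w (e (Sum.inr (Sum.inr j))) - w (e (Sum.inr (Sum.inl j))),
    fun i => hw _, fun x => ?_⟩
  have h1 := hf x
  rw [← e.sum_comp (fun k => w k * L (e.symm k) x)] at h1
  simp only [Equiv.symm_apply_apply, Fintype.sum_sum_type, L, Sum.elim_inl, Sum.elim_inr,
    LinearMap.neg_apply, mul_neg, Finset.sum_neg_distrib] at h1
  simp only [sub_mul, Finset.sum_sub_distrib]
  linarith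

/-- the functional of an integral vector -/
def lpa_ev {n : ℕ} (x : Fin n → ℤ) : (Fin n → ℚ) →ₗ[ℚ] ℚ :=
  ∑ k, (x k : ℚ) • (LinearMap.proj k : (Fin n → ℚ) →ₗ[ℚ] ℚ)

theorem lpa_ev_apply {n : ℕ} (x : Fin n → ℤ) (q : Fin n → ℚ) : lpa_ev x q = ∑ k, (x k : ℚ) * q k := by
  simp only [lpa_ev]
  rw [LinearMap.sum_apply]
  exact Finset.sum_congr rfl fun k _ => by simp

theorem lpa_ev_single {n : ℕ} (x : Fin n → ℤ) (k : Fin n) : lpa_ev x (Pi.single k 1) = x k := by
  rw [lpa_ev_apply, Finset.sum_eq_single k]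
  · simp
  · intro b _ hb
    simp [hb]
  · intro h; exact absurd (Finset.mem_univ _) h

theorem lpa_clear {n : ℕ} (q : Fin n → ℚ) : ∃ (D : ℤ) (z : Fin n → ℤ), 0 < D ∧
    ∀ x : Fin n → ℤ, (pr z x : ℚ) = D * lpa_ev x q := by
  obtain ⟨D, hD, hz⟩ := Pool.Agent.TH165.ACC.exists_denom q
  choose z hz using hz
  refine ⟨D, z, hD, fun x => ?_⟩
  rw [lpa_ev_apply, Finset.mul_sum, pr]
  push_cast
  exact Finset.sum_congr rfl fun k _ => by rw [← hz k]; ring

section feas

variable {n N : ℕ} (E : Fin N → Fin n → ℤ) (w0 : Fin n → ℤ)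

/-- feasible pairs -/
def LFeas (u : Fin n → ℤ) (a : Fin N → ℚ) (lam : ℚ) : Prop :=
  (∀ i, 0 ≤ a i) ∧ ∀ k, (u k : ℚ) = ∑ i, a i * (E i k : ℚ) + lam * (w0 k : ℚ)

/-- free sets -/
def LFree (J : Finset (Fin N)) : Prop :=
  ∀ (b : Fin N → ℚ) (c : ℚ), (∀ k, ∑ i ∈ J, b i * (E i k : ℚ) + c * (w0 k : ℚ) = 0) → ∀ i ∈ J, b i = 0

/-- the certificates -/
def LCert (J : Finset (Fin N)) (T : ℤ) : Prop :=
  ∃ m : Fin n → ℤ, pr m w0 = 0 ∧ (∀ i, -T ≤ pr m (E i)) ∧ ∀ i ∈ J, pr m (E i) = -T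

/-- the support -/
def lsup (a : Fin N → ℚ) : Finset (Fin N) := Finset.univ.filter fun i => a i ≠ 0

theorem mem_lsup {a : Fin N → ℚ} {i : Fin N} : i ∈ lsup a ↔ a i ≠ 0 := by simp [lsup]

theorem lpa_sum_sup (a : Fin N → ℚ) (f : Fin N → ℚ) {J : Finset (Fin N)} (hJ : ∀ i, a i ≠ 0 → i ∈ J) :
    ∑ i ∈ J, a i * f i = ∑ i, a i * f i := by
  apply Finset.sum_subset (Finset.subset_univ _)
  intro i _ hi
  have : a i = 0 := by
    by_contra h
    exact hi (hJ i h)
  rw [this, zero_mul]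

variable {E w0}

/-- (1) feasibility -/
theorem lpa_feas {u : Fin n → ℤ} (hu : ∀ m ∈ Cn E, pr m w0 = 0 → 0 ≤ pr m u) :
    ∃ a lam, LFeas E w0 u a lam := by
  obtain ⟨w, v, hw, h⟩ := lpa_farkas (fun i => lpa_ev (E i)) (fun _ : Unit => lpa_ev w0) (lpa_ev u) (by
    intro q h1 h2
    obtain ⟨D, z, hD, hz⟩ := lpa_clear q
    have hD' : (0 : ℚ) < D := by exact_mod_cast hD
    have h3 : z ∈ Cn E := by
      intro i
      have : (0 : ℚ) ≤ pr z (E i) := by
        rw [hz]; exact mul_nonneg hD'.le (h1 i)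
      exact_mod_cast this
    have h4 : pr z w0 = 0 := by
      have : (pr z w0 : ℚ) = 0 := by rw [hz, h2 (), mul_zero]
      exact_mod_cast this
    have h5 := hu z h3 h4
    have h6 : (0 : ℚ) ≤ D * lpa_ev u q := by
      rw [← hz]; exact_mod_cast h5
    exact (mul_nonneg_iff_of_pos_left hD').1 h6)
  refine ⟨w, v (), hw, fun k => ?_⟩
  have h1 := h (Pi.single k 1)
  simp only [lpa_ev_single, Finset.univ_unique, Finset.sum_singleton] at h1
  exact h1

/-- (2) reduction -/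
theorem lpa_red {u : Fin n → ℤ} (c : ℕ) : ∀ (a : Fin N → ℚ) (lam : ℚ), LFeas E w0 u a lam → (lsup a).card = c →
    ∃ a' lam', LFeas E w0 u a' lam' ∧ ∑ i, a' i ≤ ∑ i, a i ∧ LFree E w0 (lsup a') := by
  classical
  induction c using Nat.strong_induction_on with
  | _ c ih =>
  intro a lam ha hc
  by_cases hfree : LFree E w0 (lsup a)
  · exact ⟨a, lam, ha, le_refl _, hfree⟩
  have hfree' := hfree
  simp only [LFree, not_forall] at hfree'
  obtain ⟨b, c', hb, i1, hi1, hbi1⟩ := hfree'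
  -- a dependency with nonnegative sum
  obtain ⟨l, c0, hl, hl0, hs, i2, hi2⟩ : ∃ (l : Fin N → ℚ) (c0 : ℚ),
      (∀ k, ∑ i, l i * (E i k : ℚ) + c0 * (w0 k : ℚ) = 0) ∧ (∀ i, a i = 0 → l i = 0) ∧ 0 ≤ ∑ i, l i ∧
        ∃ i, 0 < l i := by
    let l : Fin N → ℚ := fun i => if a i ≠ 0 then b i else 0
    have hl0 : ∀ i, a i = 0 → l i = 0 := fun i hi => by simp [l, hi]
    have hl : ∀ k, ∑ i, l i * (E i k : ℚ) + c' * (w0 k : ℚ) = 0 := by
      intro k
      rw [← hb k]
      congr 1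
      rw [← lpa_sum_sup l (fun i => (E i k : ℚ)) (J := lsup a) (by
        intro i hi
        rw [mem_lsup]
        intro h
        exact hi (hl0 i h))]
      refine Finset.sum_congr rfl fun i hi => ?_
      rw [mem_lsup] at hi
      simp only [l]
      rw [if_pos hi]
    have hl1 : l i1 ≠ 0 := by
      rw [mem_lsup] at hi1
      simp only [l]
      rw [if_pos hi1]
      exact hbi1
    have pos : ∀ l' : Fin N → ℚ, 0 ≤ ∑ i, l' i → l' i1 ≠ 0 → ∃ i, 0 < l' i := by
      intro l' h1 h2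
      by_contra hcon
      push Not at hcon
      have h3 : ∑ i, l' i ≤ 0 := Finset.sum_nonpos fun i _ => hcon i
      have h4 : ∑ i, l' i = 0 := le_antisymm h3 h1
      exact h2 ((Finset.sum_eq_zero_iff_of_nonpos fun i _ => hcon i).1 h4 i1 (Finset.mem_univ _))
    rcases le_total 0 (∑ i, l i) with h | h
    · exact ⟨l, c', hl, hl0, h, pos l h hl1⟩
    · have hn : 0 ≤ ∑ i, -l i := by rw [Finset.sum_neg_distrib]; linarith
      refine ⟨fun i => -l i, -c', fun k => ?_, fun i hi => ?_, hn, pos _ hn (neg_ne_zero.2 hl1)⟩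
      · have := hl k
        simp only [neg_mul, Finset.sum_neg_distrib]
        linarith
      · change -l i = 0
        rw [hl0 i hi, neg_zero]
  obtain ⟨i0, hi0, hmin⟩ := (Finset.univ.filter fun i => 0 < l i).exists_min_image
    (fun i => a i / l i) ⟨i2, by simp [hi2]⟩
  have hi0' : 0 < l i0 := (Finset.mem_filter.1 hi0).2
  set t : ℚ := a i0 / l i0 with ht
  have ht0 : 0 ≤ t := div_nonneg (ha.1 _) hi0'.le
  have hw' : ∀ i, 0 ≤ a i - t * l i := by
    intro i
    rcases lt_or_ge 0 (l i) with h | h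
    · have := hmin i (by simp [h])
      have h2 : t * l i ≤ a i := by
        rw [← le_div_iff₀ h]
        exact this
      linarith
    · have := mul_nonpos_of_nonneg_of_nonpos ht0 h
      have := ha.1 i
      linarith
  have hwi0 : a i0 ≠ 0 := fun h => by
    have := hl0 i0 h
    exact hi0'.ne' this
  have hlt : (lsup fun i => a i - t * l i).card < c := by
    rw [← hc]
    apply Finset.card_lt_card
    rw [Finset.ssubset_iff_of_subset]
    · refine ⟨i0, mem_lsup.2 hwi0, ?_⟩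
      rw [mem_lsup, not_not, ht, div_mul_cancel₀ _ hi0'.ne', sub_self]
    · intro i hi
      rw [mem_lsup] at hi ⊢
      intro h
      apply hi
      rw [h, hl0 i h, mul_zero, sub_zero]
  have hfe : LFeas E w0 u (fun i => a i - t * l i) (lam - t * c0) := by
    refine ⟨hw', fun k => ?_⟩
    have h1 := ha.2 k
    have h2 := hl k
    have h3 : ∑ i, (a i - t * l i) * (E i k : ℚ) =
        ∑ i, a i * (E i k : ℚ) - t * ∑ i, l i * (E i k : ℚ) := by
      rw [Finset.mul_sum, ← Finset.sum_sub_distrib]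
      exact Finset.sum_congr rfl fun i _ => by ring
    rw [h3]
    linear_combination h1 + t * h2
  obtain ⟨a', lam', h1, h2, h3⟩ := ih _ hlt _ _ hfe rfl
  refine ⟨a', lam', h1, h2.trans ?_, h3⟩
  rw [Finset.sum_sub_distrib, ← Finset.mul_sum]
  have := mul_nonneg ht0 hs
  linarith

/-- uniqueness for a free support -/
theorem lpa_uniq {u : Fin n → ℤ} {a a' : Fin N → ℚ} {lam lam' : ℚ} (h : LFeas E w0 u a lam)
    (h' : LFeas E w0 u a' lam') (he : lsup a = lsup a') (hf : LFree E w0 (lsup a)) : a = a' := by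
  have h1 := hf (fun i => a i - a' i) (lam - lam') (by
    intro k
    have e1 := h.2 k
    have e2 := h'.2 k
    have e3 := lpa_sum_sup a (fun i => (E i k : ℚ)) (J := lsup a) (fun i hi => mem_lsup.2 hi)
    have e4 := lpa_sum_sup a' (fun i => (E i k : ℚ)) (J := lsup a) (fun i hi => by rw [he]; exact mem_lsup.2 hi)
    simp only [sub_mul, Finset.sum_sub_distrib]
    rw [e3, e4]
    linarith)
  funext i
  by_cases hi : i ∈ lsup a
  · exact sub_eq_zero.1 (h1 i hi)
  · have hi' : i ∉ lsup a' := he ▸ hi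
    rw [mem_lsup, not_not] at hi hi'
    rw [hi, hi']

/-- (3) an optimal solution with free support -/
theorem lpa_opt {u : Fin n → ℤ} (hu : ∀ m ∈ Cn E, pr m w0 = 0 → 0 ≤ pr m u) :
    ∃ a lam, LFeas E w0 u a lam ∧ LFree E w0 (lsup a) ∧
      ∀ a' lam', LFeas E w0 u a' lam' → ∑ i, a i ≤ ∑ i, a' i := by
  classical
  let P : Finset (Fin N) → Prop := fun J => ∃ a lam, LFeas E w0 u a lam ∧ LFree E w0 J ∧ lsup a = J
  have hex : ∀ J : Finset (Fin N), ∃ a : Fin N → ℚ, P J → ∃ lam, LFeas E w0 u a lam ∧ LFree E w0 J ∧ lsup a = J := by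
    intro J
    by_cases h : P J
    · obtain ⟨a, lam, h1⟩ := h
      exact ⟨a, fun _ => ⟨lam, h1⟩⟩
    · exact ⟨0, fun h' => absurd h' h⟩
  choose A hA using hex
  obtain ⟨a0, lam0, h0⟩ := lpa_feas hu
  obtain ⟨a1, lam1, h1, -, h1'⟩ := lpa_red _ a0 lam0 h0 rfl
  obtain ⟨J, hJ, hmin⟩ := (Finset.univ.filter P).exists_min_image (fun J => ∑ i, A J i)
    ⟨lsup a1, by simp only [Finset.mem_filter, Finset.mem_univ, true_and]; exact ⟨a1, lam1, h1, h1', rfl⟩⟩
  have hPJ : P J := (Finset.mem_filter.1 hJ).2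
  obtain ⟨lam, e1, e2, e3⟩ := hA J hPJ
  refine ⟨A J, lam, e1, by rw [e3]; exact e2, ?_⟩
  intro a' lam' h'
  obtain ⟨a2, lam2, f1, f2, f3⟩ := lpa_red _ a' lam' h' rfl
  have hP2 : P (lsup a2) := ⟨a2, lam2, f1, f3, rfl⟩
  obtain ⟨lam3, g1, g2, g3⟩ := hA _ hP2
  have h5 : A (lsup a2) = a2 := lpa_uniq g1 f1 g3 (by rw [g3]; exact g2)
  have h6 := hmin (lsup a2) (by simp only [Finset.mem_filter, Finset.mem_univ, true_and]; exact hP2)
  rw [h5] at h6
  exact h6.trans f2

/-- (4) the certificate -/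
theorem lpa_cert {u : Fin n → ℤ} {a : Fin N → ℚ} {lam : ℚ} (ha : LFeas E w0 u a lam)
    (hopt : ∀ a' lam', LFeas E w0 u a' lam' → ∑ i, a i ≤ ∑ i, a' i) :
    ∃ T : ℤ, 0 < T ∧ LCert E w0 (lsup a) T := by
  classical
  by_cases hq : ∃ (q : Fin n → ℚ) (t : ℚ), (∀ i, 0 ≤ lpa_ev (E i) q + t) ∧
      (∀ i ∈ lsup a, lpa_ev (E i) q + t = 0) ∧ lpa_ev w0 q = 0 ∧ 0 < t
  · obtain ⟨q, t, h1, h2, h3, ht⟩ := hq
    -- clear denominators
    obtain ⟨D, z, hD, hz⟩ := lpa_clear fun k => q k / t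
    have hD' : (0 : ℚ) < D := by exact_mod_cast hD
    have hsc : ∀ x : Fin n → ℤ, (pr z x : ℚ) = D * (lpa_ev x q / t) := by
      intro x
      rw [hz, lpa_ev_apply, lpa_ev_apply, Finset.sum_div]
      congr 1
      exact Finset.sum_congr rfl fun k _ => by ring
    refine ⟨D, hD, z, ?_, ?_, ?_⟩
    · have : (pr z w0 : ℚ) = 0 := by rw [hsc, h3]; simp
      exact_mod_cast this
    · intro i
      have : -(D : ℚ) ≤ pr z (E i) := by
        rw [hsc]
        have h4 : -1 ≤ lpa_ev (E i) q / t := by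
          rw [le_div_iff₀ ht]
          have := h1 i
          linarith
        nlinarith
      exact_mod_cast this
    · intro i hi
      have : (pr z (E i) : ℚ) = -(D : ℚ) := by
        rw [hsc]
        have h4 : lpa_ev (E i) q = -t := by
          have := h2 i hi
          linarith
        rw [h4, neg_div, div_self ht.ne']
        ring
      exact_mod_cast this
  · exfalso
    push Not at hq
    let J := lsup a
    let l : Fin N → (((Fin n → ℚ) × ℚ) →ₗ[ℚ] ℚ) := fun i => (lpa_ev (E i)).coprod LinearMap.id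
    let g : {i // i ∈ J} ⊕ Unit → (((Fin n → ℚ) × ℚ) →ₗ[ℚ] ℚ) :=
      Sum.elim (fun i => (lpa_ev (E i.1)).coprod LinearMap.id) (fun _ => (lpa_ev w0).coprod 0)
    let f : (((Fin n → ℚ) × ℚ) →ₗ[ℚ] ℚ) := (0 : (Fin n → ℚ) →ₗ[ℚ] ℚ).coprod (-LinearMap.id)
    have hl : ∀ i q t, l i (q, t) = lpa_ev (E i) q + t := fun i q t => rfl
    have hg1 : ∀ (i : {i // i ∈ J}) q t, g (Sum.inl i) (q, t) = lpa_ev (E i.1) q + t := fun i q t => rfl
    have hg2 : ∀ (i : Unit) q t, g (Sum.inr i) (q, t) = lpa_ev w0 q := fun i q t => by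
      change lpa_ev w0 q + 0 = _
      rw [add_zero]
    have hf : ∀ q t, f (q, t) = -t := fun q t => by
      change 0 + -t = _
      rw [zero_add]
    obtain ⟨w, v, hw, h⟩ := lpa_farkas l g f (by
      rintro ⟨q, t⟩ h1 h2
      rw [hf]
      have h3 := hq q t (fun i => by have := h1 i; rwa [hl] at this)
        (fun i hi => by have := h2 (Sum.inl ⟨i, hi⟩); rwa [hg1] at this)
        (by have := h2 (Sum.inr ()); rwa [hg2] at this)
      linarith)
    -- the direction
    let b : Fin N → ℚ := fun i => w i + if hi : i ∈ J then v (Sum.inl ⟨i, hi⟩) else 0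
    have hb0 : ∀ i, i ∉ J → 0 ≤ b i := fun i hi => by
      simp only [b]
      rw [dif_neg hi, add_zero]
      exact hw i
    have hsum : ∀ F : Fin N → ℚ, ∑ i, b i * F i = ∑ i, w i * F i + ∑ i : {i // i ∈ J}, v (Sum.inl i) * F i.1 := by
      intro F
      simp only [b, add_mul, Finset.sum_add_distrib]
      congr 1
      rw [← Finset.sum_subset (Finset.subset_univ J) (by intro i _ hi; rw [dif_neg hi, zero_mul])]
      rw [← Finset.sum_coe_sort J]
      refine Finset.sum_congr rfl fun i _ => ?_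
      rw [dif_pos i.2]
    have hb1 : ∑ i, b i = -1 := by
      have h1 := h (0, 1)
      rw [hf] at h1
      simp only [Fintype.sum_sum_type, hl, hg1, hg2, map_zero, zero_add, mul_one, mul_zero,
        Finset.sum_const_zero, add_zero] at h1
      have h2 := hsum (fun _ => 1)
      simp only [mul_one] at h2
      rw [h2, ← h1]
    have hbk : ∀ k, ∑ i, b i * (E i k : ℚ) + v (Sum.inr ()) * (w0 k : ℚ) = 0 := by
      intro k
      have h1 := h (Pi.single k 1, 0)
      rw [hf] at h1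
      simp only [Fintype.sum_sum_type, hl, hg1, hg2, lpa_ev_single, add_zero, neg_zero,
        Finset.univ_unique, Finset.sum_singleton] at h1
      rw [hsum]
      rw [h1]
      exact (add_assoc _ _ _)
    -- a small step
    obtain ⟨ε, hε, hε'⟩ : ∃ ε : ℚ, 0 < ε ∧ ∀ i ∈ J, ε * |b i| ≤ a i := by
      have hpos : ∀ i ∈ J, 0 < a i := fun i hi => lt_of_le_of_ne (ha.1 i) (Ne.symm (mem_lsup.1 hi))
      have hS : 0 ≤ ∑ i ∈ J, |b i| / a i := Finset.sum_nonneg fun i hi => div_nonneg (abs_nonneg _) (hpos i hi).le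
      refine ⟨1 / (1 + ∑ i ∈ J, |b i| / a i), by positivity, fun i hi => ?_⟩
      have h1 : |b i| / a i ≤ ∑ i ∈ J, |b i| / a i :=
        Finset.single_le_sum (f := fun i => |b i| / a i)
          (fun j hj => div_nonneg (abs_nonneg _) (hpos j hj).le) hi
      rw [div_mul_eq_mul_div, one_mul, div_le_iff₀ (by linarith)]
      rw [div_le_iff₀ (hpos i hi)] at h1
      have := hpos i hi
      nlinarith
    have hnew : LFeas E w0 u (fun i => a i + ε * b i) (lam + ε * v (Sum.inr ())) := by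
      refine ⟨fun i => ?_, fun k => ?_⟩
      · by_cases hi : i ∈ J
        · have h1 := hε' i hi
          have h2 : -(ε * |b i|) ≤ ε * b i := by
            have := neg_abs_le (b i)
            nlinarith
          change 0 ≤ a i + ε * b i
          linarith
        · have h1 := mul_nonneg hε.le (hb0 i hi)
          have h2 := ha.1 i
          change 0 ≤ a i + ε * b i
          linarith
      · have h1 := ha.2 k
        have h2 := hbk k
        have h3 : ∑ i, (a i + ε * b i) * (E i k : ℚ) =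
            ∑ i, a i * (E i k : ℚ) + ε * ∑ i, b i * (E i k : ℚ) := by
          rw [Finset.mul_sum, ← Finset.sum_add_distrib]
          exact Finset.sum_congr rfl fun i _ => by ring
        rw [h3]
        linear_combination h1 - ε * h2
    have hlast := hopt _ _ hnew
    rw [Finset.sum_add_distrib, ← Finset.mul_sum, hb1] at hlast
    linarith

theorem LCert.mul {J : Finset (Fin N)} {T k : ℤ} (hk : 0 ≤ k) (h : LCert E w0 J T) : LCert E w0 J (k * T) := by
  obtain ⟨m, h1, h2, h3⟩ := h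
  have hsm : ∀ x : Fin n → ℤ, pr (fun i => k * m i) x = k * pr m x := by
    intro x
    simp only [pr]
    rw [Finset.mul_sum]
    exact Finset.sum_congr rfl fun i _ => by ring
  refine ⟨fun i => k * m i, ?_, fun i => ?_, fun i hi => ?_⟩
  · rw [hsm, h1, mul_zero]
  · rw [hsm]
    have := mul_le_mul_of_nonneg_left (h2 i) hk
    linarith
  · rw [hsm, h3 i hi]; ring

/-- a common multiple -/
theorem lpa_common (𝒥 : Finset (Finset (Fin N))) (S : ℤ) (hS : 0 < S)
    (h𝒥 : ∀ J ∈ 𝒥, ∃ T : ℤ, 0 < T ∧ LCert E w0 J T) :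
    ∃ T : ℤ, S ≤ T ∧ ∀ J ∈ 𝒥, LCert E w0 J T := by
  classical
  induction 𝒥 using Finset.induction_on with
  | empty => exact ⟨S, le_refl _, fun J hJ => absurd hJ (Finset.notMem_empty _)⟩
  | insert J0 𝒥 _ ih =>
    obtain ⟨T, hT, h1⟩ := ih fun J hJ => h𝒥 J (Finset.mem_insert_of_mem hJ)
    obtain ⟨T', hT', h2⟩ := h𝒥 J0 (Finset.mem_insert_self _ _)
    refine ⟨T' * T, ?_, fun J hJ => ?_⟩
    · nlinarith
    · rcases Finset.mem_insert.1 hJ with rfl | hJ
      · rw [mul_comm]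
        exact h2.mul (by linarith)
      · exact (h1 J hJ).mul hT'.le

end feas

theorem lpa : S_LPA := by
  classical
  intro n N E w0 B hB
  obtain ⟨T, hT, hcert⟩ := lpa_common (E := E) (w0 := w0)
    (Finset.univ.filter fun J => ∃ T : ℤ, 0 < T ∧ LCert E w0 J T)
    (1 + ∑ m ∈ B, ∑ i, |pr m (E i)|) (by
      have : 0 ≤ ∑ m ∈ B, ∑ i, |pr m (E i)| :=
        Finset.sum_nonneg fun m _ => Finset.sum_nonneg fun i _ => abs_nonneg _
      linarith)
    (fun J hJ => (Finset.mem_filter.1 hJ).2)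
  have hT0 : 0 < T := by
    have : 0 ≤ ∑ m ∈ B, ∑ i, |pr m (E i)| :=
      Finset.sum_nonneg fun m _ => Finset.sum_nonneg fun i _ => abs_nonneg _
    linarith
  have hBT : ∀ m ∈ B, ∀ i, -T ≤ pr m (E i) := by
    intro m hm i
    have h1 : |pr m (E i)| ≤ ∑ i, |pr m (E i)| :=
      Finset.single_le_sum (f := fun i => |pr m (E i)|) (fun j _ => abs_nonneg _) (Finset.mem_univ i)
    have h2 : ∑ i, |pr m (E i)| ≤ ∑ m ∈ B, ∑ i, |pr m (E i)| :=
      Finset.single_le_sum (f := fun m => ∑ i, |pr m (E i)|)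
        (fun j _ => Finset.sum_nonneg fun i _ => abs_nonneg _) hm
    have h3 := neg_abs_le (pr m (E i))
    linarith
  have hex : ∀ J : Finset (Fin N), ∃ m : Fin n → ℤ, pr m w0 = 0 ∧ (∀ i, -T ≤ pr m (E i)) ∧
      (LCert E w0 J T → ∀ i ∈ J, pr m (E i) = -T) := by
    intro J
    by_cases h : LCert E w0 J T
    · obtain ⟨m, h1, h2, h3⟩ := h
      exact ⟨m, h1, h2, fun _ => h3⟩
    · refine ⟨0, by simp [pr], fun i => ?_, fun h' => absurd h' h⟩
      have : pr (0 : Fin n → ℤ) (E i) = 0 := by simp [pr]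
      rw [this]
      linarith
  choose M hM1 hM2 hM3 using hex
  refine ⟨B ∪ {0} ∪ Finset.univ.image M, fun m hm => ?_, ?_, ?_, ?_⟩
  · exact Finset.mem_union_left _ (Finset.mem_union_left _ hm)
  · exact Finset.mem_union_left _ (Finset.mem_union_right _ (Finset.mem_singleton_self _))
  · intro m hm
    rcases Finset.mem_union.1 hm with hm | hm
    · rcases Finset.mem_union.1 hm with hm | hm
      · exact hB m hm
      · rw [Finset.mem_singleton.1 hm]; simp [pr]
    · obtain ⟨J, -, rfl⟩ := Finset.mem_image.1 hm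
      exact hM1 J
  intro u hu
  have hA1 : ∀ m ∈ B ∪ {0} ∪ Finset.univ.image M, pr m w0 = 0 ∧ ∀ i, -T ≤ pr m (E i) := by
    intro m hm
    rcases Finset.mem_union.1 hm with hm | hm
    · rcases Finset.mem_union.1 hm with hm | hm
      · exact ⟨hB m hm, hBT m hm⟩
      · rw [Finset.mem_singleton.1 hm]
        refine ⟨by simp [pr], fun i => ?_⟩
        have : pr (0 : Fin n → ℤ) (E i) = 0 := by simp [pr]
        rw [this]
        linarith
    · obtain ⟨J, -, rfl⟩ := Finset.mem_image.1 hm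
      exact ⟨hM1 J, hM2 J⟩
  obtain ⟨a, lam, ha, hfree, hopt⟩ := lpa_opt hu
  obtain ⟨T', hT', hc⟩ := lpa_cert ha hopt
  have hcJ : LCert E w0 (lsup a) T := by
    apply hcert
    simp only [Finset.mem_filter, Finset.mem_univ, true_and]
    exact ⟨T', hT', hc⟩
  have hMJ := hM3 (lsup a) hcJ
  have hpos : ∀ i ∈ lsup a, 0 < a i := fun i hi => lt_of_le_of_ne (ha.1 i) (Ne.symm (mem_lsup.1 hi))
  have hdec : ∀ k, (u k : ℚ) = ∑ i ∈ lsup a, a i * (E i k : ℚ) + lam * (w0 k : ℚ) := by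
    intro k
    rw [ha.2 k, lpa_sum_sup a (fun i => (E i k : ℚ)) (J := lsup a) (fun i hi => mem_lsup.2 hi)]
  -- the pairing with `u`
  have hpair : ∀ m : Fin n → ℤ, pr m w0 = 0 → (pr m u : ℚ) = ∑ i ∈ lsup a, a i * (pr m (E i) : ℚ) := by
    intro m hm
    have h0 : (pr m w0 : ℚ) = 0 := by exact_mod_cast hm
    simp only [pr] at h0 ⊢
    push_cast at h0 ⊢
    have h1 : ∑ k, (m k : ℚ) * (u k : ℚ) = ∑ k, ((m k : ℚ) * ∑ i ∈ lsup a, a i * (E i k : ℚ)) +
        lam * ∑ k, (m k : ℚ) * (w0 k : ℚ) := by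
      rw [Finset.mul_sum, ← Finset.sum_add_distrib]
      exact Finset.sum_congr rfl fun k _ => by rw [hdec k]; ring
    rw [h1, h0, mul_zero, add_zero]
    simp only [Finset.mul_sum]
    rw [Finset.sum_comm]
    exact Finset.sum_congr rfl fun i _ => Finset.sum_congr rfl fun k _ => by ring
  refine ⟨lsup a, a, lam, hpos, hdec, hfree, ?_⟩
  have key : ∀ m ∈ B ∪ {0} ∪ Finset.univ.image M, (∀ m'' ∈ B ∪ {0} ∪ Finset.univ.image M, pr m u ≤ pr m'' u) →
      ∀ i ∈ lsup a, pr m (E i) = -T := by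
    intro m hm hmin
    have hMA : M (lsup a) ∈ B ∪ {0} ∪ Finset.univ.image M :=
      Finset.mem_union_right _ (Finset.mem_image_of_mem _ (Finset.mem_univ _))
    have h1 := hmin _ hMA
    have h2 : (pr m u : ℚ) ≤ pr (M (lsup a)) u := by exact_mod_cast h1
    rw [hpair m (hA1 m hm).1, hpair _ (hM1 _)] at h2
    have h3 : ∑ i ∈ lsup a, a i * (pr (M (lsup a)) (E i) : ℚ) = ∑ i ∈ lsup a, a i * (-(T : ℚ)) := by
      refine Finset.sum_congr rfl fun i hi => ?_
      rw [hMJ i hi]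
      push_cast
      rfl
    rw [h3] at h2
    have h4 : ∑ i ∈ lsup a, a i * ((pr m (E i) : ℚ) + T) ≤ 0 := by
      have : ∑ i ∈ lsup a, a i * ((pr m (E i) : ℚ) + T) =
          ∑ i ∈ lsup a, a i * (pr m (E i) : ℚ) - ∑ i ∈ lsup a, a i * (-(T : ℚ)) := by
        rw [← Finset.sum_sub_distrib]
        exact Finset.sum_congr rfl fun i _ => by ring
      rw [this]
      linarith
    have h5 : ∀ i ∈ lsup a, 0 ≤ a i * ((pr m (E i) : ℚ) + T) := by
      intro i hi
      apply mul_nonneg (hpos i hi).le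
      have := (hA1 m hm).2 i
      have h6 : (-T : ℚ) ≤ pr m (E i) := by exact_mod_cast this
      linarith
    have h6 := (Finset.sum_eq_zero_iff_of_nonneg h5).1 (le_antisymm h4 (Finset.sum_nonneg h5))
    intro i hi
    have h7 := (mul_eq_zero.1 (h6 i hi)).resolve_left (hpos i hi).ne'
    have h8 : (pr m (E i) : ℚ) = ((-T : ℤ) : ℚ) := by push_cast; linarith
    exact_mod_cast h8
  intro m hm m' hm' h h' i hi
  rw [key m hm h i hi, key m' hm' h' i hi]

end Pool.Agent.H895.SC
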