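import Mathlib
import Pool.Agent.H895.SC.LowG

/-!
# Initial forms of initial forms
-/

set_option autoImplicit false
set_option linter.unusedVariables false
set_option linter.unusedSectionVars false

namespace Pool.Agent.H895.SC

open MvPolynomial
open Pool.Agent.TH165.ACC (pr ex Cn lead part pr_smul_right)
open Pool.Agent.Helper43K9.NH (expo phi Inn phi_spec mem_expo expo_nonempty)
open Pool.Agent.Helper58K9.CI (pr_add_right pr_sum_right)

variable {n N : ℕ}

theorem coeff_lead (w : Fin n → ℤ) (p : MvPolynomial (Fin n) ℂ) (s : Fin n →₀ ℕ)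
    [Decidable (∀ t ∈ p.support, pr (ex s) w ≤ pr (ex t) w)] :
    (lead w p).coeff s = if ∀ t ∈ p.support, pr (ex s) w ≤ pr (ex t) w then p.coeff s else 0 := by
  classical
  rw [lead, coeff_sum]
  simp only [coeff_monomial]
  rw [Finset.sum_ite_eq']
  by_cases hs : s ∈ p.support
  · by_cases h' : ∀ t ∈ p.support, pr (ex s) w ≤ pr (ex t) w
    · rw [if_pos h', if_pos (Finset.mem_filter.2 ⟨hs, h'⟩)]
    · rw [if_neg h', if_neg fun h => h' (Finset.mem_filter.1 h).2]
  · rw [if_neg fun h => hs (Finset.mem_filter.1 h).1, notMem_support_iff.1 hs]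
    split_ifs <;> rfl

theorem mem_support_lead {w : Fin n → ℤ} {p : MvPolynomial (Fin n) ℂ} {s : Fin n →₀ ℕ} :
    s ∈ (lead w p).support ↔ s ∈ p.support ∧ ∀ t ∈ p.support, pr (ex s) w ≤ pr (ex t) w := by
  classical
  rw [mem_support_iff, coeff_lead, mem_support_iff]
  split_ifs with h
  · exact ⟨fun h2 => ⟨h2, h⟩, fun h2 => h2.1⟩
  · exact ⟨fun h2 => absurd rfl h2, fun h2 => absurd h2.2 h⟩

theorem lead_ne {w : Fin n → ℤ} {p : MvPolynomial (Fin n) ℂ} (hp : p ≠ 0) : lead w p ≠ 0 := by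
  classical
  obtain ⟨s, hs, h⟩ := p.support.exists_min_image (fun s => pr (ex s) w) (support_nonempty.2 hp)
  have : s ∈ (lead w p).support := mem_support_lead.2 ⟨hs, h⟩
  intro h0
  rw [h0] at this
  simp at this

/-- the initial form for `K w0 + u`, `K ≫ 0` -/
theorem lead_lead (w0 u : Fin n → ℤ) (p : MvPolynomial (Fin n) ℂ) :
    ∃ K0 : ℤ, ∀ K, K0 ≤ K → lead (K • w0 + u) p = lead u (lead w0 p) := by
  classical
  obtain ⟨B, hB⟩ := ((p.support ×ˢ p.support).image fun x : (Fin n →₀ ℕ) × (Fin n →₀ ℕ) =>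
    pr (ex x.1) u - pr (ex x.2) u).exists_le
  refine ⟨B + 1, fun K hK => ?_⟩
  have hBs : ∀ s ∈ p.support, ∀ t ∈ p.support, pr (ex s) u - pr (ex t) u < K := by
    intro s hs t ht
    have := hB _ (Finset.mem_image.2 ⟨(s, t), Finset.mk_mem_product hs ht, rfl⟩)
    simp only at this
    omega
  have hW : ∀ s : Fin n →₀ ℕ, pr (ex s) (K • w0 + u) = K * pr (ex s) w0 + pr (ex s) u := by
    intro s
    rw [pr_add_right, pr_smul_right]
  ext s
  rw [coeff_lead, coeff_lead, coeff_lead]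
  by_cases hs : s ∈ p.support
  swap
  · rw [notMem_support_iff.1 hs]
    simp
  have key : (∀ t ∈ p.support, pr (ex s) (K • w0 + u) ≤ pr (ex t) (K • w0 + u)) ↔
      (∀ t ∈ p.support, pr (ex s) w0 ≤ pr (ex t) w0) ∧
      ∀ t ∈ (lead w0 p).support, pr (ex s) u ≤ pr (ex t) u := by
    constructor
    · intro h
      have h1 : ∀ t ∈ p.support, pr (ex s) w0 ≤ pr (ex t) w0 := by
        intro t ht
        by_contra hlt
        push Not at hlt
        have h2 := h t ht
        rw [hW, hW] at h2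
        have h3 := hBs t ht s hs
        have hK0 : 0 < K := by
          have := hBs s hs s hs
          omega
        nlinarith
      refine ⟨h1, fun t ht => ?_⟩
      obtain ⟨ht1, ht2⟩ := mem_support_lead.1 ht
      have h2 := h t ht1
      rw [hW, hW, le_antisymm (h1 t ht1) (ht2 s hs)] at h2
      omega
    · rintro ⟨h1, h2⟩ t ht
      rw [hW, hW]
      by_cases ht' : t ∈ (lead w0 p).support
      · have h3 := h2 t ht'
        have h4 := (mem_support_lead.1 ht').2 s hs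
        rw [le_antisymm (h1 t ht) h4]
        omega
      · have h3 : pr (ex s) w0 + 1 ≤ pr (ex t) w0 := by
          by_contra hlt
          push Not at hlt
          apply ht'
          refine mem_support_lead.2 ⟨ht, fun t' ht'' => ?_⟩
          have := h1 t' ht''
          omega
        have h4 := hBs s hs t ht
        have hK0 : 0 < K := by
          have := hBs s hs s hs
          omega
        nlinarith
  by_cases h : ∀ t ∈ p.support, pr (ex s) (K • w0 + u) ≤ pr (ex t) (K • w0 + u)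
  · obtain ⟨h1, h2⟩ := key.1 h
    rw [if_pos h, if_pos h2, if_pos h1]
  · rw [if_neg h]
    split_ifs with h1 h2
    · exact absurd (key.2 ⟨h2, h1⟩) h
    · rfl
    · rfl

theorem lead_lead_all {ι : Type} [Finite ι] (w0 u : Fin n → ℤ) (p : ι → MvPolynomial (Fin n) ℂ) :
    ∃ K0 : ℤ, ∀ K, K0 ≤ K → ∀ i, lead (K • w0 + u) (p i) = lead u (lead w0 (p i)) := by
  classical
  have := Fintype.ofFinite ι
  choose K0 hK0 using fun i => lead_lead w0 u (p i)
  obtain ⟨B, hB⟩ := (Finset.univ.image K0).exists_le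
  exact ⟨B, fun K hK i => hK0 i K ((hB _ (Finset.mem_image_of_mem _ (Finset.mem_univ i))).trans hK)⟩

/-- superadditivity along a set of rays -/
theorem phi_sum_le {S : Finset (Fin n → ℤ)} (hS : S.Nonempty) {E : Fin N → Fin n → ℤ}
    (J : Finset (Fin N)) (w : Fin n → ℤ) :
    phi S w + ∑ i ∈ J, phi S (E i) ≤ phi S (w + ∑ i ∈ J, E i) := by
  obtain ⟨⟨m, hm, h1⟩, -⟩ := phi_spec hS (w + ∑ j ∈ J, E j)
  rw [← h1, pr_add_right, pr_sum_right]
  exact add_le_add ((phi_spec hS w).2 m hm)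
    (Finset.sum_le_sum fun j _ => (phi_spec hS (E j)).2 m hm)

/-- if `φ` is additive along `w0` and the rays `E i` then the initial form is homogeneous for all of
them -/
theorem homog {E : Fin N → Fin n → ℤ} {J : Finset (Fin N)} {w0 u : Fin n → ℤ} {a : Fin N → ℚ}
    {lam : ℚ} (ha : ∀ i ∈ J, 0 < a i)
    (hu : ∀ k, (u k : ℚ) = ∑ i ∈ J, a i * (E i k : ℚ) + lam * (w0 k : ℚ))
    {p : MvPolynomial (Fin n) ℂ} (hp : p ≠ 0)
    (h : phi (expo p) (w0 + ∑ i ∈ J, E i) = phi (expo p) w0 + ∑ i ∈ J, phi (expo p) (E i))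
    {t : Fin n →₀ ℕ} (ht : t ∈ (lead u (lead w0 p)).support) :
    pr (ex t) w0 = phi (expo p) w0 ∧ ∀ i ∈ J, pr (ex t) (E i) = phi (expo p) (E i) := by
  classical
  have hS := expo_nonempty hp
  have hpru : ∀ m : Fin n → ℤ, (pr m u : ℚ) = ∑ i ∈ J, a i * (pr m (E i) : ℚ) +
      lam * (pr m w0 : ℚ) := by
    intro m
    simp only [pr]
    push_cast
    simp only [hu, mul_add, Finset.mul_sum, Finset.sum_add_distrib]
    rw [Finset.sum_comm]
    congr 1
    · refine Finset.sum_congr rfl fun i _ => Finset.sum_congr rfl fun l _ => by ring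
    · exact Finset.sum_congr rfl fun l _ => by ring
  obtain ⟨⟨m1, hm1, h1⟩, -⟩ := phi_spec hS (w0 + ∑ j ∈ J, E j)
  obtain ⟨t1, ht1, rfl⟩ := mem_expo.1 hm1
  rw [pr_add_right, pr_sum_right] at h1
  have h2 := (phi_spec hS w0).2 _ hm1
  have h3 : ∀ j ∈ J, phi (expo p) (E j) ≤ pr (ex t1) (E j) := fun j _ =>
    (phi_spec hS (E j)).2 _ hm1
  have h4 := Finset.sum_le_sum h3
  have ht1w : pr (ex t1) w0 = phi (expo p) w0 := by omega
  have ht1E : ∀ j ∈ J, pr (ex t1) (E j) = phi (expo p) (E j) := by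
    have h5 : ∑ j ∈ J, phi (expo p) (E j) = ∑ j ∈ J, pr (ex t1) (E j) := by omega
    exact fun j hj => ((Finset.sum_eq_sum_iff_of_le h3).1 h5 j hj).symm
  obtain ⟨ht2, ht3⟩ := mem_support_lead.1 ht
  obtain ⟨ht4, ht5⟩ := mem_support_lead.1 ht2
  have ht6 : ex t ∈ expo p := mem_expo.2 ⟨t, ht4, rfl⟩
  have htw : pr (ex t) w0 = phi (expo p) w0 := le_antisymm (by rw [← ht1w]; exact ht5 t1 ht1)
    ((phi_spec hS w0).2 _ ht6)
  have ht1l : t1 ∈ (lead w0 p).support := by
    refine mem_support_lead.2 ⟨ht1, fun t' ht' => ?_⟩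
    rw [ht1w]
    exact (phi_spec hS w0).2 _ (mem_expo.2 ⟨t', ht', rfl⟩)
  have h6 : (pr (ex t) u : ℚ) ≤ pr (ex t1) u := by exact_mod_cast ht3 t1 ht1l
  rw [hpru, hpru, htw, ht1w] at h6
  have h7 : ∀ i ∈ J, a i * (pr (ex t1) (E i) : ℚ) ≤ a i * (pr (ex t) (E i) : ℚ) := by
    intro i hi
    refine mul_le_mul_of_nonneg_left ?_ (ha i hi).le
    rw [ht1E i hi]
    exact_mod_cast (phi_spec hS (E i)).2 _ ht6
  have h8 : ∑ i ∈ J, a i * (pr (ex t1) (E i) : ℚ) = ∑ i ∈ J, a i * (pr (ex t) (E i) : ℚ) :=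
    le_antisymm (Finset.sum_le_sum h7) (by linarith)
  refine ⟨htw, fun i hi => ?_⟩
  have h9 := (Finset.sum_eq_sum_iff_of_le h7).1 h8 i hi
  have h10 := mul_left_cancel₀ (ha i hi).ne' h9
  rw [← ht1E i hi]
  exact_mod_cast h10.symm

end Pool.Agent.H895.SC
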