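import Mathlib
import Pool.Agent.H895.SC.Stm

set_option autoImplicit false

namespace Pool.Agent.H895.SC

open MvPolynomial

namespace Ultra

/-- ultraproducts of fields -/
theorem ultraprod {I : Type} (U : Ultrafilter I) (K : I → Type) [∀ i, Field (K i)]
    [∀ i, Algebra ℂ (K i)] :
    ∃ (M : Type) (_ : Field M) (_ : Algebra ℂ M) (π : (∀ i, K i) →ₐ[ℂ] M),
      ∀ a, π a = 0 ↔ ∀ᶠ i in (U : Filter I), a i = 0 := by
  let J : Ideal (∀ i, K i) :=
    { carrier := {a | ∀ᶠ i in (U : Filter I), a i = 0}
      add_mem' := by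
        intro a b ha hb
        have ha' : ∀ᶠ i in (U : Filter I), a i = 0 := ha
        have hb' : ∀ᶠ i in (U : Filter I), b i = 0 := hb
        show ∀ᶠ i in (U : Filter I), (a + b) i = 0
        filter_upwards [ha', hb'] with i h1 h2
        rw [Pi.add_apply, h1, h2, add_zero]
      zero_mem' := Filter.Eventually.of_forall fun i => rfl
      smul_mem' := by
        intro c a ha
        have ha' : ∀ᶠ i in (U : Filter I), a i = 0 := ha
        show ∀ᶠ i in (U : Filter I), (c • a) i = 0
        filter_upwards [ha'] with i h1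
        rw [smul_eq_mul, Pi.mul_apply, h1, mul_zero] }
  have hmem : ∀ a, a ∈ J ↔ ∀ᶠ i in (U : Filter I), a i = 0 := fun a => Iff.rfl
  have hJ : J.IsMaximal := by
    rw [Ideal.isMaximal_iff]
    constructor
    · intro h
      have h' := ((hmem 1).1 h).exists
      obtain ⟨i, hi⟩ := h'
      exact one_ne_zero hi
    · intro L a hJL ha haL
      have h1 : ∀ᶠ i in (U : Filter I), a i ≠ 0 := by
        exact Ultrafilter.eventually_not.2 fun h => ha ((hmem a).2 h)
      have h2 : 1 - (fun i => (a i)⁻¹) * a ∈ J := by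
        rw [hmem]
        filter_upwards [h1] with i hi
        rw [Pi.sub_apply, Pi.mul_apply, Pi.one_apply, inv_mul_cancel₀ hi, sub_self]
      have h3 := L.add_mem (hJL h2) (L.mul_mem_left (fun i => (a i)⁻¹) haL)
      rwa [sub_add_cancel] at h3
  let _ := Ideal.Quotient.field J
  refine ⟨_ ⧸ J, Ideal.Quotient.field J, inferInstance, Ideal.Quotient.mkₐ ℂ J, ?_⟩
  intro a
  rw [Ideal.Quotient.mkₐ_eq_mk, ← hmem]
  exact Ideal.Quotient.eq_zero_iff_mem

theorem exists_U {R : Type} [CommRing R] [Algebra ℂ R] (P : R →ₐ[ℂ] ℂ) {I : Type}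
    (x : I → R →ₐ[ℂ] ℂ) (h : ∀ f : R, P f ≠ 0 → ∃ i, x i f ≠ 0) :
    ∃ U : Ultrafilter I, ∀ f, P f ≠ 0 → ∀ᶠ i in (U : Filter I), x i f ≠ 0 := by
  let F : Filter I :=
    { sets := {s | ∃ f, P f ≠ 0 ∧ ∀ i, x i f ≠ 0 → i ∈ s}
      univ_sets := ⟨1, by rw [map_one]; exact one_ne_zero, fun i _ => Set.mem_univ i⟩
      sets_of_superset := by
        rintro s t ⟨f, hf, hs⟩ hst
        exact ⟨f, hf, fun i hi => hst (hs i hi)⟩
      inter_sets := by
        rintro s t ⟨f, hf, hs⟩ ⟨g, hg, ht⟩
        refine ⟨f * g, by rw [map_mul]; exact mul_ne_zero hf hg, fun i hi => ?_⟩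
        rw [map_mul] at hi
        exact ⟨hs i (left_ne_zero_of_mul hi), ht i (right_ne_zero_of_mul hi)⟩ }
  have hF : F.NeBot := by
    constructor
    intro hb
    have h1 : (∅ : Set I) ∈ F := by
      rw [hb]
      exact Filter.mem_bot
    obtain ⟨f, hf, hi⟩ := h1
    obtain ⟨i, hi'⟩ := h f hf
    exact hi i hi'
  refine ⟨Ultrafilter.of F, fun f hf => ?_⟩
  exact Ultrafilter.of_le F (⟨f, hf, fun i hi => hi⟩ : {i | x i f ≠ 0} ∈ F)

end Ultra

open Ultra in
theorem ultra : S_ULTRA := by
  intro R _ _ P n I x K _ _ ξ hξ h D hD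
  obtain ⟨U, hU⟩ := exists_U P x h
  obtain ⟨M, iM, iA, π, hπ⟩ := ultraprod U K
  let ev' : R →ₐ[ℂ] (∀ i, K i) := AlgHom.pi fun i => (Algebra.ofId ℂ (K i)).comp (x i)
  have hev' : ∀ f i, ev' f i = algebraMap ℂ (K i) (x i f) := fun f i => rfl
  let ev : R →ₐ[ℂ] M := π.comp ev'
  have hev : ∀ f, ev f = π (fun i => algebraMap ℂ (K i) (x i f)) := fun f => rfl
  let η : Fin n → M := fun l => π fun i => ξ i l
  have hη : ∀ l, η l = π fun i => ξ i l := fun l => rfl
  have hev0 : ∀ f, ev f = 0 ↔ ∀ᶠ i in (U : Filter I), x i f = 0 := by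
    intro f
    rw [hev, hπ]
    refine Filter.eventually_congr (Filter.Eventually.of_forall fun i => ?_)
    exact map_eq_zero_iff _ (algebraMap ℂ (K i)).injective
  have hpow : ∀ (a : ∀ i, K i), (∀ i, a i ≠ 0) → ∀ k : ℤ, π (fun i => a i ^ k) = π a ^ k := by
    intro a ha k
    obtain ⟨m, rfl | rfl⟩ := k.eq_nat_or_neg
    · rw [zpow_natCast, ← map_pow]
      congr 1
      funext i
      rw [zpow_natCast, Pi.pow_apply]
    · rw [zpow_neg, zpow_natCast, ← map_pow]
      refine eq_inv_of_mul_eq_one_left ?_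
      rw [← map_mul, ← map_one π]
      congr 1
      funext i
      rw [Pi.mul_apply, Pi.pow_apply, zpow_neg, zpow_natCast, Pi.one_apply]
      exact inv_mul_cancel₀ (pow_ne_zero _ (ha i))
  refine ⟨M, iM, iA, ev, η, ?_, ?_, ?_, ?_, IntermediateField.adjoin ℂ (Set.range ev), ?_, ?_⟩
  · intro l hl
    rw [hη, hπ] at hl
    obtain ⟨i, hi⟩ := hl.exists
    exact hξ i l hi
  · intro f hf
    by_contra hP
    rw [hev0] at hf
    obtain ⟨i, h1, h2⟩ := (hf.and (hU f hP)).exists
    exact h2 h1
  · intro q hq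
    have h1 : aeval η q = π (aeval (fun l i => ξ i l) q) := by
      rw [← AlgHom.comp_apply, comp_aeval]
    rw [h1]
    have h2 : aeval (fun l i => ξ i l) q = (0 : ∀ i, K i) := by
      funext i
      have h3 : (aeval (fun l i => ξ i l) q : ∀ i, K i) i =
          (Pi.evalAlgHom ℂ K i) (aeval (fun l i => ξ i l) q) := rfl
      rw [h3, ← AlgHom.comp_apply, comp_aeval]
      exact hq i
    rw [h2, map_zero]
  · intro m f hm
    rw [hev]
    have h1 : (fun i => algebraMap ℂ (K i) (x i f)) = ∏ l, fun i => ξ i l ^ m l := by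
      funext i
      rw [Finset.prod_apply, hm i]
    rw [h1, map_prod]
    exact Finset.prod_congr rfl fun l _ => (hpow (fun i => ξ i l) (fun i => hξ i l) (m l)).symm
  · intro f
    exact IntermediateField.subset_adjoin _ _ ⟨f, rfl⟩
  · open scoped IntermediateField.algebraAdjoinAdjoin in
    have key : AlgebraicIndependent (Algebra.adjoin ℂ (Set.range ev)) fun l : D => η l := by
      rw [algebraicIndependent_iff]
      intro p hp
      have hr : ∀ s, ∃ f : R, ev f = ((coeff s p : Algebra.adjoin ℂ (Set.range ev)) : M) := by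
        intro s
        have h1 : Algebra.adjoin ℂ (Set.range ev) ≤ ev.range :=
          Algebra.adjoin_le (by rintro _ ⟨f, rfl⟩; exact ⟨f, rfl⟩)
        exact h1 (coeff s p).2
      choose g hg using hr
      rw [aeval_def, eval₂_eq'] at hp
      have h2 : ∑ s ∈ p.support, (algebraMap (Algebra.adjoin ℂ (Set.range ev)) M) (coeff s p) *
          ∏ l : D, η l ^ s l = π (∑ s ∈ p.support, ev' (g s) *
            ∏ l : D, (fun i => ξ i l : ∀ i, K i) ^ s l) := by
        rw [map_sum]
        refine Finset.sum_congr rfl fun s _ => ?_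
        rw [map_mul, map_prod]
        congr 1
        · exact (hg s).symm
        · exact Finset.prod_congr rfl fun l _ => by rw [map_pow]
      rw [h2, hπ] at hp
      ext s
      by_contra hs
      have hs' : s ∈ p.support := by
        rw [mem_support_iff]
        intro h3
        apply hs
        rw [h3, coeff_zero]
      have h4 : ev (g s) = 0 := by
        rw [hev0]
        filter_upwards [hp] with i hi
        rw [Finset.sum_apply] at hi
        have h5 : aeval (fun l : D => ξ i l) (∑ s ∈ p.support, monomial s (x i (g s))) = 0 := by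
          rw [map_sum, ← hi]
          refine Finset.sum_congr rfl fun s _ => ?_
          rw [aeval_monomial, Pi.mul_apply, Finset.prod_apply, hev', Finsupp.prod_fintype _ _
            (fun l => pow_zero _)]
          rfl
        have h6 := (hD i).eq_zero_of_aeval_eq_zero _ h5
        have h7 := congrArg (coeff s) h6
        rw [coeff_sum, coeff_zero] at h7
        simp only [coeff_monomial] at h7
        rw [Finset.sum_ite_eq', if_pos hs'] at h7
        exact h7
      apply hs
      rw [hg s] at h4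
      rw [coeff_zero, h4]
      rfl
    exact key.extendScalars (IntermediateField.adjoin ℂ (Set.range ev))

end Pool.Agent.H895.SC
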