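import Mathlib
import Pool.Agent.H895.SC.DVRed
import Pool.Agent.H895.SC.Lead
import Pool.Agent.H895.SC.Cnt
import Pool.Agent.H895.SC.LPA
import Pool.Agent.H895.SC.GP
import Pool.Agent.H895.SC.Ultra

/-!
# The set of rays
-/

set_option autoImplicit false
set_option linter.unusedVariables false
set_option linter.unusedSectionVars false

namespace Pool.Agent.H895.SC

open Pool.Agent.H436R3.Fol Pool.Agent.H436R3.KT Pool.Agent.W497.Mld MvPolynomial
open Pool.Agent.TH165.ACC (pr ex Prim Cn Hs lead part mldsR pr_add pr_zero pr_sub pr_smul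
  pr_smul_right)
open Pool.Agent.Helper43K9.NH (ch AA wt Inn expo phi dot ch_ne ch_mem_AA)
open Pool.Agent.Helper43K9.CI (CIGerm)
open Pool.Agent.Helper58K9.CI (pr_add_right pr_sum_right)

variable {d r s n : ℕ} {L : Type} [Field L] [Algebra ℂ L]

/-- the test vectors -/
noncomputable def Btest (w0 : Fin n → ℤ) : Finset (Fin n → ℤ) :=
  (Finset.univ.image fun x : Fin n × Fin n => w0 x.1 • (Pi.single x.2 1 : Fin n → ℤ) -
    w0 x.2 • Pi.single x.1 1) ∪ if w0 = 0 then Finset.univ.image fun l => Pi.single l 1 else ∅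

theorem pr_single (l : Fin n) (u : Fin n → ℤ) : pr (Pi.single l 1) u = u l := by
  simp [pr, Pi.single_apply]

theorem Btest_pr {w0 : Fin n → ℤ} : ∀ m ∈ Btest w0, pr m w0 = 0 := by
  classical
  intro m hm
  rcases Finset.mem_union.1 hm with h | h
  · obtain ⟨x, -, rfl⟩ := Finset.mem_image.1 h
    rw [pr_sub, pr_smul, pr_smul, pr_single, pr_single]
    ring
  · split_ifs at h with h0
    · obtain ⟨l, -, rfl⟩ := Finset.mem_image.1 h
      rw [pr_single, h0]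
      rfl
    · exact absurd h (Finset.notMem_empty _)

theorem Btest_ker {k : Type} [Field k] [CharZero k] {w0 : Fin n → ℤ} {u : Fin n → k}
    (h : ∀ m ∈ Btest w0, ∑ l, (m l : k) * u l = 0) : ∃ c : k, ∀ l, u l = c * (w0 l : k) := by
  classical
  by_cases h0 : w0 = 0
  · refine ⟨0, fun l => ?_⟩
    have h1 := h (Pi.single l 1) (Finset.mem_union_right _ (by
      rw [if_pos h0]
      exact Finset.mem_image_of_mem _ (Finset.mem_univ l)))
    rw [Finset.sum_eq_single l] at h1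
    · simpa using h1
    · intro j _ hj
      rw [Pi.single_eq_of_ne hj]
      simp
    · intro h2
      exact absurd (Finset.mem_univ _) h2
  · obtain ⟨i, hi⟩ : ∃ i, w0 i ≠ 0 := by
      by_contra h1
      push Not at h1
      exact h0 (funext h1)
    have hik : (w0 i : k) ≠ 0 := by exact_mod_cast hi
    refine ⟨u i / w0 i, fun l => ?_⟩
    have h1 := h _ (Finset.mem_union_left _ (Finset.mem_image_of_mem _ (Finset.mem_univ (i, l))))
    simp only [Pi.sub_apply, Pi.smul_apply, smul_eq_mul] at h1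
    push_cast at h1
    simp only [sub_mul, Finset.sum_sub_distrib, mul_assoc, ← Finset.mul_sum] at h1
    have h2 : ∀ a : Fin n, ∑ x, ((Pi.single a (1 : ℤ) : Fin n → ℤ) x : k) * u x = u a := by
      intro a
      rw [Finset.sum_eq_single a]
      · rw [Pi.single_eq_same]; simp
      · intro j _ hj
        rw [Pi.single_eq_of_ne hj]
        simp
      · intro h2
        exact absurd (Finset.mem_univ _) h2
    rw [h2, h2] at h1
    field_simp
    linear_combination h1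

theorem pr_of_comb {N : ℕ} {E : Fin N → Fin n → ℤ} {w0 u : Fin n → ℤ} {J : Finset (Fin N)}
    {a : Fin N → ℚ} {lam : ℚ}
    (hu : ∀ k, (u k : ℚ) = ∑ i ∈ J, a i * (E i k : ℚ) + lam * (w0 k : ℚ)) (m : Fin n → ℤ) :
    (pr m u : ℚ) = ∑ i ∈ J, a i * (pr m (E i) : ℚ) + lam * (pr m w0 : ℚ) := by
  simp only [pr]
  push_cast
  simp only [hu, mul_add, Finset.mul_sum, Finset.sum_add_distrib]
  rw [Finset.sum_comm]
  congr 1
  · refine Finset.sum_congr rfl fun i _ => Finset.sum_congr rfl fun l _ => by ring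
  · exact Finset.sum_congr rfl fun l _ => by ring

/-- the weight `W = K w0 + u` -/
theorem exists_W {g : CIGerm r d L} (G : Fin s → MvPolynomial (Fin (d + r)) ℂ)
    {w0 u : Fin (d + r) → ℤ} (hw0 : ∀ m ∈ Cn g.E, 0 ≤ pr m w0)
    (hupos : ∀ m ∈ Cn g.E, pr m w0 = 0 → m ≠ 0 → 0 < pr m u) {J : Finset (Fin g.N)}
    {a : Fin g.N → ℚ} {lam : ℚ} (ha : ∀ i ∈ J, 0 < a i)
    (hu : ∀ k, (u k : ℚ) = ∑ i ∈ J, a i * (g.E i k : ℚ) + lam * (w0 k : ℚ)) :
    ∃ W, Inn g.E W ∧ (∀ j, lead W (g.F j) = lead u (lead w0 (g.F j))) ∧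
      ∀ k, lead W (G k) = lead u (lead w0 (G k)) := by
  obtain ⟨K1, hK1⟩ := lead_lead_all w0 u g.F
  obtain ⟨K2, hK2⟩ := lead_lead_all w0 u G
  obtain ⟨K3, hK3⟩ : ∃ K3 : ℤ, (-lam) < (K3 : ℚ) := by
    obtain ⟨K3, hK3⟩ := exists_int_gt (-lam)
    exact ⟨K3, hK3⟩
  obtain ⟨K, hKe⟩ : ∃ K, K = max (max K1 K2) K3 := ⟨_, rfl⟩
  have hK1' : K1 ≤ K := hKe ▸ (le_max_left _ _).trans (le_max_left _ _)
  have hK2' : K2 ≤ K := hKe ▸ (le_max_right _ _).trans (le_max_left _ _)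
  have hK3' : K3 ≤ K := hKe ▸ le_max_right _ _
  refine ⟨K • w0 + u, ?_, hK1 K hK1', hK2 K hK2'⟩
  intro m hm hm0
  rw [pr_add_right, pr_smul_right]
  rcases (hw0 m hm).lt_or_eq with h0 | h0
  · have h1 : (0 : ℚ) < (K : ℚ) * (pr m w0 : ℚ) + (pr m u : ℚ) := by
      rw [pr_of_comb hu]
      have h2 : (0 : ℚ) ≤ ∑ i ∈ J, a i * (pr m (g.E i) : ℚ) := Finset.sum_nonneg fun i hi =>
        mul_nonneg (ha i hi).le (by exact_mod_cast hm i)
      have h3 : (K3 : ℚ) ≤ (K : ℚ) := by exact_mod_cast hK3'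
      have h4 : (0 : ℚ) < (pr m w0 : ℚ) := by exact_mod_cast h0
      have h5 : 0 < ((K : ℚ) + lam) * (pr m w0 : ℚ) := mul_pos (by linarith) h4
      linarith
    exact_mod_cast h1
  · rw [← h0, mul_zero, zero_add]
    exact hupos m hm h0.symm hm0

/-- independence of the gradients -/
theorem li_W {g : CIGerm r d L} {G : Fin s → MvPolynomial (Fin (d + r)) ℂ} (hnd : NDI g G)
    {w0 u W : Fin (d + r) → ℤ} (hW : Inn g.E W)
    (hWF : ∀ j, lead W (g.F j) = lead u (lead w0 (g.F j)))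
    (hWG : ∀ k, lead W (G k) = lead u (lead w0 (G k))) (KK0 : Finset (Fin s)) {k : Type}
    [Field k] [Algebra ℂ k] {ζ : Fin (d + r) → k} (hζ : ∀ l, ζ l ≠ 0)
    (hFζ : ∀ j, aeval ζ (lead u (lead w0 (g.F j))) = 0)
    (hGζ : ∀ k ∈ KK0, aeval ζ (lead u (lead w0 (G k))) = 0) :
    LinearIndependent k fun (j : Fin r ⊕ {k // k ∈ KK0}) (i : Fin (d + r)) =>
      aeval ζ (X i * pderiv i (Sum.elim (fun j : Fin r => lead u (lead w0 (g.F j)))
        (fun k : {k // k ∈ KK0} => lead u (lead w0 (G k.1))) j)) := by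
  classical
  refine li_transfer _ hζ ?_ ?_
  · rintro (j | k)
    · exact hFζ j
    · exact hGζ k.1 k.2
  · intro ξ hξ h0
    have h3 := hnd _ hW KK0 ξ hξ (fun j => by rw [hWF]; exact h0 (Sum.inl j))
      (fun k hk => by rw [hWG]; exact h0 (Sum.inr ⟨k, hk⟩))
    have h4 : (fun (j : Fin r ⊕ {k // k ∈ KK0}) (i : Fin (d + r)) => eval ξ (pderiv i
        (Sum.elim (fun j : Fin r => lead u (lead w0 (g.F j)))
          (fun k : {k // k ∈ KK0} => lead u (lead w0 (G k.1))) j))) = Sum.elim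
        (fun (j : Fin r) (i : Fin (d + r)) => eval ξ (pderiv i (lead W (g.F j))))
        (fun (k : {k // k ∈ KK0}) (i : Fin (d + r)) =>
          eval ξ (pderiv i (lead W (G k.1)))) := by
      funext j i
      rcases j with j | j
      · simp only [Sum.elim_inl]
        rw [hWF]
      · simp only [Sum.elim_inr]
        rw [hWG]
    rw [h4]
    exact h3

theorem keyJ {g : CIGerm r d L} (G : Fin s → MvPolynomial (Fin (d + r)) ℂ) (hG0 : ∀ k, G k ≠ 0)
    (hnd : NDI g G) {w0 : Fin (d + r) → ℤ} (hw0 : ∀ m ∈ Cn g.E, 0 ≤ pr m w0)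
    (hw0i : ∃ m ∈ Cn g.E, m ≠ 0 ∧ pr m w0 = 0) (KK0 : Finset (Fin s)) (D : Finset (Fin (d + r)))
    {M : Type} [Field M] [Algebra ℂ M] (ev : g.X.R →ₐ[ℂ] M) (η : Fin (d + r) → M)
    (hη : ∀ l, η l ≠ 0) (hevP : ∀ f, ev f = 0 → g.P f = 0)
    (hF : ∀ j, aeval η (lead w0 (g.F j)) = 0) (hGk : ∀ k ∈ KK0, aeval η (lead w0 (G k)) = 0)
    (hch : ∀ m ∈ Cn g.E, pr m w0 = 0 → ∀ f : g.X.R, (f : L) = ch g.y m → ∏ l, η l ^ m l = ev f)
    (κ : IntermediateField ℂ M) (hκ : ∀ f, ev f ∈ κ)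
    (hD : AlgebraicIndependent κ fun l : {l // l ∈ D} => η l) :
    ∃ J : Finset (Fin g.N), Inn g.E (w0 + ∑ i ∈ J, g.E i) ∧
      J.card + D.card + (Finset.univ.filter fun j => phi (expo (g.F j)) (w0 + ∑ i ∈ J, g.E i) =
          phi (expo (g.F j)) w0 + ∑ i ∈ J, phi (expo (g.F j)) (g.E i)).card +
        (KK0.filter fun k => phi (expo (G k)) (w0 + ∑ i ∈ J, g.E i) =
          phi (expo (G k)) w0 + ∑ i ∈ J, phi (expo (G k)) (g.E i)).card ≤ d + r := by
  classical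
  obtain ⟨A, hBA, h0A, hAw, hLP⟩ := lpa g.E w0 (Btest w0) Btest_pr
  have hch0 : CharZero M := charZero_of_injective_algebraMap (algebraMap ℂ M).injective
  obtain ⟨Ω, fΩ, aΩ, aM, tΩ, c, hcrel, hcind⟩ := gp κ η hη D hD w0 A h0A (fun u hu =>
    Btest_ker fun m hm => hu m (hBA hm)) _ rfl
  have hPch : ∀ m ∈ Cn g.E, pr m w0 = 0 → m ≠ 0 → ∃ f : g.X.R, ∏ l, η l ^ m l = ev f ∧
      g.P f = 0 := by
    intro m hm hmw hm0
    have hmem : ch g.y m ∈ g.X.R := by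
      rw [g.hR]
      exact ch_mem_AA hm
    exact ⟨⟨_, hmem⟩, hch m hm hmw _ rfl, g.hP _ m hm hm0 rfl⟩
  obtain ⟨k, fk, ak, ζ, u, cb, hζ, hcb, hwt, hEq, hRel, -⟩ := dvred
    ((Subalgebra.fg_iff_finiteType _).1 g.X.fg) g.P ev hevP κ hκ
    (fun x : Fin (D.card - (if w0 = 0 then 0 else 1)) × {m // m ∈ A} => c x.1 x.2) hcind η hη (by
      obtain ⟨m, hm, hm0, hmw⟩ := hw0i
      obtain ⟨f, hf1, hf2⟩ := hPch m hm hmw hm0
      refine ⟨f, ?_, hf2⟩
      rw [← hf1]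
      exact Finset.prod_ne_zero_iff.2 fun l _ => zpow_ne_zero _ (hη l))
  have hupos : ∀ m ∈ Cn g.E, pr m w0 = 0 → m ≠ 0 → 0 < pr m u := by
    intro m hm hmw hm0
    obtain ⟨f, hf1, hf2⟩ := hPch m hm hmw hm0
    exact hwt m f hf1 hf2
  obtain ⟨J, a, lam, ha, hu, hind, hAE⟩ := hLP u fun m hm hmw => by
    by_cases hm0 : m = 0
    · rw [hm0, pr_zero]
    · exact (hupos m hm hmw hm0).le
  have hpru := pr_of_comb hu
  have hInn : Inn g.E (w0 + ∑ i ∈ J, g.E i) := by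
    intro m hm hm0
    rw [pr_add_right, pr_sum_right]
    have h1 := hw0 m hm
    have h2 : 0 ≤ ∑ i ∈ J, pr m (g.E i) := Finset.sum_nonneg fun i _ => hm i
    rcases h1.lt_or_eq with h1 | h1
    · omega
    · have h3 := hupos m hm h1.symm hm0
      have h4 : ∑ i ∈ J, pr m (g.E i) ≠ 0 := by
        intro h5
        have h6 := (Finset.sum_eq_zero_iff_of_nonneg (fun i _ => hm i)).1 h5
        have h7 : (pr m u : ℚ) = 0 := by
          rw [hpru, ← h1, Finset.sum_eq_zero fun i hi => by rw [h6 i hi]; simp]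
          simp
        have h8 : pr m u = 0 := by exact_mod_cast h7
        omega
      omega
  refine ⟨J, hInn, ?_⟩
  -- the weight `W = K w0 + u`
  obtain ⟨W, hW, hWF, hWG⟩ := exists_W G hw0 hupos ha hu
  have hFζ : ∀ j, aeval ζ (lead u (lead w0 (g.F j))) = 0 := fun j =>
    hEq _ (lead_ne (g.Fne j)) (hF j)
  have hGζ : ∀ k ∈ KK0, aeval ζ (lead u (lead w0 (G k))) = 0 := fun k hk =>
    hEq _ (lead_ne (hG0 k)) (hGk k hk)
  -- independence of the gradients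
  have hli := li_W hnd hW hWF hWG KK0 hζ hFζ hGζ
  obtain ⟨R0, hR0⟩ : ∃ R0 : Finset (Fin r), R0 = Finset.univ.filter fun j =>
    phi (expo (g.F j)) (w0 + ∑ i ∈ J, g.E i) =
      phi (expo (g.F j)) w0 + ∑ i ∈ J, phi (expo (g.F j)) (g.E i) := ⟨_, rfl⟩
  obtain ⟨K0, hK0⟩ : ∃ K0 : Finset (Fin s), K0 = KK0.filter fun k =>
    phi (expo (G k)) (w0 + ∑ i ∈ J, g.E i) =
      phi (expo (G k)) w0 + ∑ i ∈ J, phi (expo (G k)) (g.E i) := ⟨_, rfl⟩
  rw [← hR0, ← hK0]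
  let ι := {j // j ∈ R0} ⊕ {k // k ∈ K0}
  have hK0s : ∀ k ∈ K0, k ∈ KK0 := by
    intro k hk
    rw [hK0] at hk
    exact (Finset.mem_filter.1 hk).1
  let φ : ι → Fin r ⊕ {k // k ∈ KK0} := Sum.map (fun j => j.1) (fun k => ⟨k.1, hK0s k.1 k.2⟩)
  have hφ : Function.Injective φ := by
    refine Sum.map_injective.2 ⟨Subtype.val_injective, fun x y hxy => ?_⟩
    have := congrArg Subtype.val hxy
    exact Subtype.ext this
  have hhomF : ∀ j ∈ R0, ∀ t ∈ (lead u (lead w0 (g.F j))).support,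
      pr (ex t) w0 = phi (expo (g.F j)) w0 ∧ ∀ i ∈ J, pr (ex t) (g.E i) =
        phi (expo (g.F j)) (g.E i) := by
    intro j hj t ht
    rw [hR0] at hj
    exact homog ha hu (g.Fne j) (Finset.mem_filter.1 hj).2 ht
  have hhomG : ∀ k ∈ K0, ∀ t ∈ (lead u (lead w0 (G k))).support,
      pr (ex t) w0 = phi (expo (G k)) w0 ∧ ∀ i ∈ J, pr (ex t) (g.E i) =
        phi (expo (G k)) (g.E i) := by
    intro k hk t ht
    rw [hK0] at hk
    exact homog ha hu (hG0 k) (Finset.mem_filter.1 hk).2 ht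
  -- the count
  obtain ⟨A', hA'⟩ : ∃ A', A' = A.filter fun m => ∀ m' ∈ A, pr m u ≤ pr m' u := ⟨_, rfl⟩
  have hA'A : ∀ m ∈ A', m ∈ A := fun m hm => by
    rw [hA'] at hm
    exact (Finset.mem_filter.1 hm).1
  have hcount := cnt (e := D.card - (if w0 = 0 then 0 else 1)) ζ hζ g.E w0 J hind A' (by
      obtain ⟨m, hm, hm'⟩ := A.exists_min_image (fun m => pr m u) ⟨0, h0A⟩
      exact ⟨m, by rw [hA']; exact Finset.mem_filter.2 ⟨hm, hm'⟩⟩)
    (fun m hm => hAw m (hA'A m hm)) (fun m hm m' hm' i hi => by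
      rw [hA'] at hm hm'
      obtain ⟨h1, h2⟩ := Finset.mem_filter.1 hm
      obtain ⟨h3, h4⟩ := Finset.mem_filter.1 hm'
      exact hAE m h1 m' h3 h2 h4 i hi)
    (fun i m => if h : m ∈ A then cb (i, ⟨m, h⟩) else 0) (by
      have h1 : Function.Injective fun x : Fin (D.card - (if w0 = 0 then 0 else 1)) ×
          {m // m ∈ A'} => ((x.1, ⟨x.2.1, hA'A _ x.2.2⟩) :
            Fin (D.card - (if w0 = 0 then 0 else 1)) × {m // m ∈ A}) := by
        rintro ⟨x1, x2⟩ ⟨y1, y2⟩ hxy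
        simp only [Prod.mk.injEq, Subtype.mk.injEq] at hxy
        exact Prod.ext hxy.1 (Subtype.ext hxy.2)
      have h2 := hcb.comp _ h1
      convert! h2 using 1
      funext x
      rw [dif_pos (hA'A _ x.2.2)]
      rfl) (by
      intro i
      have h1 := hRel A (fun m => if h : m ∈ A then c i ⟨m, h⟩ else 0)
        (fun m => if h : m ∈ A then cb (i, ⟨m, h⟩) else 0) (fun m hm => ⟨(i, ⟨m, hm⟩), by
          rw [dif_pos hm], by rw [dif_pos hm]⟩) (by
          rw [← hcrel i, ← Finset.sum_coe_sort A]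
          refine Finset.sum_congr rfl fun m _ => ?_
          rw [dif_pos m.2])
      rw [← hA'] at h1
      exact h1)
    (fun x : ι => Sum.elim (fun j : Fin r => lead u (lead w0 (g.F j)))
        (fun k : {k // k ∈ KK0} => lead u (lead w0 (G k.1))) (φ x)) (by
      rintro (j | k)
      · exact hFζ j.1
      · exact hGζ k.1 (hK0s k.1 k.2))
    (hli.comp φ hφ) (by
      rintro (j | k)
      · exact ⟨_, fun t ht => (hhomF j.1 j.2 t ht).1⟩
      · exact ⟨_, fun t ht => (hhomG k.1 k.2 t ht).1⟩) (by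
      rintro (j | k) i hi
      · exact ⟨_, fun t ht => (hhomF j.1 j.2 t ht).2 i hi⟩
      · exact ⟨_, fun t ht => (hhomG k.1 k.2 t ht).2 i hi⟩)
  have hι : Fintype.card ι = R0.card + K0.card := by
    rw [Fintype.card_sum, Fintype.card_coe, Fintype.card_coe]
  rw [hι] at hcount
  split_ifs at hcount <;> omega

/-- nondegeneracy near `P` -/
theorem noBad {g : CIGerm r d L} (G : Fin s → MvPolynomial (Fin (d + r)) ℂ) (hG0 : ∀ k, G k ≠ 0)
    (hnd : NDI g G) {w0 : Fin (d + r) → ℤ} (hw0 : ∀ m ∈ Cn g.E, 0 ≤ pr m w0)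
    (hw0i : ∃ m ∈ Cn g.E, m ≠ 0 ∧ pr m w0 = 0) (KK0 : Finset (Fin s))
    {M : Type} [Field M] [Algebra ℂ M] (ev : g.X.R →ₐ[ℂ] M) (η : Fin (d + r) → M)
    (hη : ∀ l, η l ≠ 0) (hevP : ∀ f, ev f = 0 → g.P f = 0)
    (hF : ∀ j, aeval η (lead w0 (g.F j)) = 0) (hGk : ∀ k ∈ KK0, aeval η (lead w0 (G k)) = 0)
    (hch : ∀ m ∈ Cn g.E, pr m w0 = 0 → ∀ f : g.X.R, (f : L) = ch g.y m → ∏ l, η l ^ m l = ev f)
    (κ : IntermediateField ℂ M) (hκ : ∀ f, ev f ∈ κ)
    (hM : ∀ σ, aeval η (Mnr g G w0 KK0 σ) = 0) : False := by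
  classical
  have hPch : ∀ m ∈ Cn g.E, pr m w0 = 0 → m ≠ 0 → ∃ f : g.X.R, ∏ l, η l ^ m l = ev f ∧
      g.P f = 0 := by
    intro m hm hmw hm0
    have hmem : ch g.y m ∈ g.X.R := by
      rw [g.hR]
      exact ch_mem_AA hm
    exact ⟨⟨_, hmem⟩, hch m hm hmw _ rfl, g.hP _ m hm hm0 rfl⟩
  have hc0 : AlgebraicIndependent κ (Fin.elim0 : Fin 0 → M) := by
    rw [algebraicIndependent_empty_type_iff]
    exact (algebraMap κ M).injective
  obtain ⟨k, fk, ak, ζ, u, cb, hζ, hcb, hwt, hEq, hRel, hMin⟩ := dvred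
    ((Subalgebra.fg_iff_finiteType _).1 g.X.fg) g.P ev hevP κ hκ
    (Fin.elim0 : Fin 0 → M) hc0 η hη (by
      obtain ⟨m, hm, hm0, hmw⟩ := hw0i
      obtain ⟨f, hf1, hf2⟩ := hPch m hm hmw hm0
      refine ⟨f, ?_, hf2⟩
      rw [← hf1]
      exact Finset.prod_ne_zero_iff.2 fun l _ => zpow_ne_zero _ (hη l))
  have hupos : ∀ m ∈ Cn g.E, pr m w0 = 0 → m ≠ 0 → 0 < pr m u := by
    intro m hm hmw hm0
    obtain ⟨f, hf1, hf2⟩ := hPch m hm hmw hm0
    exact hwt m f hf1 hf2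
  obtain ⟨A, hBA, h0A, hAw, hLP⟩ := lpa g.E w0 (Btest w0) Btest_pr
  obtain ⟨J, a, lam, ha, hu, hind, hAE⟩ := hLP u fun m hm hmw => by
    by_cases hm0 : m = 0
    · rw [hm0, pr_zero]
    · exact (hupos m hm hmw hm0).le
  obtain ⟨W, hW, hWF, hWG⟩ := exists_W G hw0 hupos ha hu
  have hli := li_W hnd hW hWF hWG KK0 hζ (fun j => hEq _ (lead_ne (g.Fne j)) (hF j))
    (fun k hk => hEq _ (lead_ne (hG0 k)) (hGk k hk))
  obtain ⟨σ, -, hσ⟩ := exists_minor (Matrix.of fun (j : Fin r ⊕ {k // k ∈ KK0})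
    (i : Fin (d + r)) => aeval ζ (X i * pderiv i (Sum.elim
      (fun j : Fin r => lead u (lead w0 (g.F j)))
      (fun k : {k // k ∈ KK0} => lead u (lead w0 (G k.1))) j))) hli
  apply hσ
  have h1 := hMin (Fin r ⊕ {k // k ∈ KK0}) (Sum.elim (fun j : Fin r => lead w0 (g.F j))
    (fun k : {k // k ∈ KK0} => lead w0 (G k.1))) σ (by
      rintro (j | k)
      · exact lead_ne (g.Fne j)
      · exact lead_ne (hG0 k.1)) (hM σ)
  have h2 : (Matrix.of fun a b => (Matrix.of fun (j : Fin r ⊕ {k // k ∈ KK0})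
      (i : Fin (d + r)) => aeval ζ (X i * pderiv i (Sum.elim
      (fun j : Fin r => lead u (lead w0 (g.F j)))
      (fun k : {k // k ∈ KK0} => lead u (lead w0 (G k.1))) j))) b (σ a)) =
      Matrix.of fun a b => aeval ζ (X (σ a) * pderiv (σ a) (lead u (Sum.elim
        (fun j : Fin r => lead w0 (g.F j)) (fun k : {k // k ∈ KK0} => lead w0 (G k.1)) b))) := by
    ext1 a b
    rw [Matrix.of_apply, Matrix.of_apply, Matrix.of_apply]
    rcases b with b | b
    · rw [Sum.elim_inl, Sum.elim_inl]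
    · rw [Sum.elim_inr, Sum.elim_inr]
  rw [h2]
  exact h1

end Pool.Agent.H895.SC
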