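import Mathlib
import Pool.Agent.H895.SC.KeyJ
import Pool.Agent.H895.ND.Asm

/-!
# The core: weights in the interior of the cone
-/

set_option autoImplicit false
set_option linter.unusedVariables false
set_option linter.unusedSectionVars false

namespace Pool.Agent.H895.SC

open Pool.Agent.H436R3.Fol Pool.Agent.H436R3.KT Pool.Agent.W497.Mld MvPolynomial
open Pool.Agent.TH165.ACC (pr ex Prim Cn Hs lead part mldsR pr_add pr_zero pr_sub pr_smul
  pr_smul_right exists_simplex)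
open Pool.Agent.Helper43K9.NH (ch AA wt Inn expo phi dot ch_ne ch_mem_AA dot_add expo_nonempty
  phi_spec)
open Pool.Agent.Helper43K9.CI (CIGerm)
open Pool.Agent.Helper58K9.CI (pr_add_right pr_sum_right dot_sum)
open Pool.Agent.H895.ND

variable {d r s n : ℕ} {L : Type} [Field L] [Algebra ℂ L]

open Classical in
/-- the monomials of the initial form -/
noncomputable def patP (p : MvPolynomial (Fin n) ℂ) (w : Fin n → ℤ) :
    Finset {t // t ∈ p.support} :=
  Finset.univ.filter fun t => ∀ t' ∈ p.support, pr (ex t.1) w ≤ pr (ex t') w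

theorem lead_of_patP {p : MvPolynomial (Fin n) ℂ} {w w' : Fin n → ℤ} (h : patP p w = patP p w') :
    lead w p = lead w' p := by
  classical
  ext t
  rw [coeff_lead, coeff_lead]
  by_cases ht : t ∈ p.support
  · have h1 : (⟨t, ht⟩ : {t // t ∈ p.support}) ∈ patP p w ↔
        (⟨t, ht⟩ : {t // t ∈ p.support}) ∈ patP p w' := by rw [h]
    simp only [patP, Finset.mem_filter, Finset.mem_univ, true_and] at h1
    by_cases h2 : ∀ t' ∈ p.support, pr (ex t) w ≤ pr (ex t') w
    · rw [if_pos h2, if_pos (h1.1 h2)]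
    · rw [if_neg h2, if_neg fun h3 => h2 (h1.2 h3)]
  · rw [notMem_support_iff.1 ht]
    split_ifs <;> rfl

open Classical in
/-- the rays of the face of the cone which contains `w` in its relative interior -/
noncomputable def patE {N : ℕ} (E : Fin N → Fin n → ℤ) (w : Fin n → ℤ) : Finset (Fin N) :=
  Finset.univ.filter fun i => ∀ m ∈ Cn E, pr m w = 0 → pr m (E i) = 0

theorem mem_patE {N : ℕ} {E : Fin N → Fin n → ℤ} {w : Fin n → ℤ} {i : Fin N} :
    i ∈ patE E w ↔ ∀ m ∈ Cn E, pr m w = 0 → pr m (E i) = 0 := by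
  simp [patE]

theorem orth_of_patE {N : ℕ} {E : Fin N → Fin n → ℤ} {w w' : Fin n → ℤ}
    (hw' : ∀ m ∈ Cn E, 0 ≤ pr m w') (h : patE E w = patE E w') {m : Fin n → ℤ} (hm : m ∈ Cn E)
    (hmw : pr m w = 0) : pr m w' = 0 := by
  obtain ⟨e, a, c, hc, hsum, -⟩ := exists_simplex hw'
  have key : ∀ m : Fin n → ℤ, (pr m w' : ℝ) = ∑ i, c i * (pr m (E (a i)) : ℝ) := by
    intro m
    simp only [pr]
    push_cast
    simp only [← hsum, Finset.mul_sum]
    rw [Finset.sum_comm]
    exact Finset.sum_congr rfl fun i _ => Finset.sum_congr rfl fun l _ => by ring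
  have h1 : ∀ i, a i ∈ patE E w' := by
    intro i
    rw [mem_patE]
    intro m' hm' h0
    have h2 := key m'
    rw [h0, Int.cast_zero] at h2
    have h3 := (Finset.sum_eq_zero_iff_of_nonneg (fun i _ => mul_nonneg (hc i).le
      (by exact_mod_cast hm' (a i)))).1 h2.symm i (Finset.mem_univ _)
    rcases mul_eq_zero.1 h3 with h4 | h4
    · exact absurd h4 (hc i).ne'
    · exact_mod_cast h4
  have h2 : ∀ i, pr m (E (a i)) = 0 := by
    intro i
    have h3 := h1 i
    rw [← h, mem_patE] at h3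
    exact h3 m hm hmw
  have h3 := key m
  rw [Finset.sum_eq_zero fun i _ => by rw [h2 i]; simp] at h3
  exact_mod_cast h3

/-- the estimate from the integral lower bound in the interior of the cone -/
theorem low_real {g : CIGerm r d L} (b : Bdry g s) (hb : ∀ k, b.b k ≤ 1) {v : DVal L} {c : ℤ}
    (h1 : (-1 : ℤ) - ∑ j, phi (g.S j) (wt g.y v) + ∑ k ∈ KK b v,
      (v.ord (aeval g.y (b.G k)) - phi (expo (b.G k)) (wt g.y v)) ≤ c) :
    la b.ψ g.S b.T b.b (wt g.y v) ≤ 1 + (c : ℝ) + dot b.ψ (wt g.y v) -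
      ∑ k, b.b k * (v.ord (aeval g.y (b.G k)) : ℝ) := by
  rw [la]
  have h2 : (-1 - ∑ j, (phi (g.S j) (wt g.y v) : ℝ) + ∑ k ∈ KK b v,
      ((v.ord (aeval g.y (b.G k)) : ℝ) - phi (expo (b.G k)) (wt g.y v))) ≤ (c : ℝ) := by
    exact_mod_cast h1
  have h3 : ∑ k, b.b k * (v.ord (aeval g.y (b.G k)) : ℝ) ≤
      ∑ k, b.b k * (phi (b.T k) (wt g.y v) : ℝ) + ∑ k ∈ KK b v,
      ((v.ord (aeval g.y (b.G k)) : ℝ) - phi (expo (b.G k)) (wt g.y v)) := by
    have h4 : ∑ k ∈ KK b v, ((v.ord (aeval g.y (b.G k)) : ℝ) -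
        phi (expo (b.G k)) (wt g.y v)) = ∑ k, ((v.ord (aeval g.y (b.G k)) : ℝ) -
        phi (expo (b.G k)) (wt g.y v)) := by
      refine Finset.sum_subset (Finset.subset_univ _) fun k _ hk => ?_
      have h5 : ¬ phi (expo (b.G k)) (wt g.y v) < v.ord (aeval g.y (b.G k)) := fun h6 =>
        hk (Finset.mem_filter.2 ⟨Finset.mem_univ _, h6⟩)
      have h6 := phi_le_ord b v k
      have h7 : v.ord (aeval g.y (b.G k)) = phi (expo (b.G k)) (wt g.y v) := by omega
      rw [h7, sub_self]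
    rw [h4, ← Finset.sum_add_distrib]
    refine Finset.sum_le_sum fun k _ => ?_
    have h5 : (phi (expo (b.G k)) (wt g.y v) : ℝ) ≤ v.ord (aeval g.y (b.G k)) := by
      exact_mod_cast phi_le_ord b v k
    have h6 := hb k
    have h7 := b.b0 k
    change _ ≤ b.b k * (phi (expo (b.G k)) (wt g.y v) : ℝ) + _
    nlinarith
  linarith

/-- the estimate of the toric log discrepancy along a set of rays -/
theorem la_rays {g : CIGerm r d L} (b : Bdry g s) (hb : ∀ k, b.b k ≤ 1) {w0 : Fin (d + r) → ℤ}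
    {J : Finset (Fin g.N)} {D : ℕ} {KK0 : Finset (Fin s)}
    (h : J.card + D + (Finset.univ.filter fun j => phi (expo (g.F j)) (w0 + ∑ i ∈ J, g.E i) =
          phi (expo (g.F j)) w0 + ∑ i ∈ J, phi (expo (g.F j)) (g.E i)).card +
        (KK0.filter fun k => phi (expo (b.G k)) (w0 + ∑ i ∈ J, g.E i) =
          phi (expo (b.G k)) w0 + ∑ i ∈ J, phi (expo (b.G k)) (g.E i)).card ≤ d + r) :
    la b.ψ g.S b.T b.b (w0 + ∑ i ∈ J, g.E i) ≤
      la b.ψ g.S b.T b.b w0 + d - D - ∑ k ∈ KK0, b.b k := by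
  classical
  obtain ⟨W, hW⟩ : ∃ W, W = w0 + ∑ i ∈ J, g.E i := ⟨_, rfl⟩
  rw [← hW] at h ⊢
  obtain ⟨R0, hR0⟩ : ∃ R0 : Finset (Fin r), R0 = Finset.univ.filter fun j =>
    phi (expo (g.F j)) W = phi (expo (g.F j)) w0 + ∑ i ∈ J, phi (expo (g.F j)) (g.E i) := ⟨_, rfl⟩
  obtain ⟨K0, hK0⟩ : ∃ K0 : Finset (Fin s), K0 = KK0.filter fun k =>
    phi (expo (b.G k)) W = phi (expo (b.G k)) w0 + ∑ i ∈ J, phi (expo (b.G k)) (g.E i) :=
    ⟨_, rfl⟩
  rw [← hR0, ← hK0] at h
  have hψ : dot b.ψ W ≤ dot b.ψ w0 + J.card + ∑ i ∈ J, ∑ j, (phi (g.S j) (g.E i) : ℝ) +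
      ∑ i ∈ J, ∑ k, b.b k * (phi (b.T k) (g.E i) : ℝ) := by
    rw [hW, dot_add, dot_sum]
    have h1 : ∀ i ∈ J, dot b.ψ (g.E i) ≤ 1 + ∑ j, (phi (g.S j) (g.E i) : ℝ) +
        ∑ k, b.b k * (phi (b.T k) (g.E i) : ℝ) := by
      intro i _
      rw [b.eq]
      have := b.nonneg i
      change 1 - b.β i + _ + ∑ k, b.b k * (phi (b.T k) (g.E i) : ℝ) ≤ _
      linarith
    have h2 := Finset.sum_le_sum h1
    rw [Finset.sum_add_distrib, Finset.sum_add_distrib, Finset.sum_const, nsmul_eq_mul,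
      mul_one] at h2
    linarith
  have hF : ∑ j, (phi (g.S j) w0 : ℝ) + ∑ i ∈ J, ∑ j, (phi (g.S j) (g.E i) : ℝ) +
      ((r : ℝ) - R0.card) ≤ ∑ j, (phi (g.S j) W : ℝ) := by
    have h1 : ∀ j, (phi (g.S j) w0 : ℝ) + ∑ i ∈ J, (phi (g.S j) (g.E i) : ℝ) +
        (if j ∈ R0 then 0 else 1) ≤ (phi (g.S j) W : ℝ) := by
      intro j
      have h2 := phi_sum_le (expo_nonempty (g.Fne j)) (E := g.E) J w0
      rw [← hW] at h2
      have h3 : phi (g.S j) w0 + ∑ i ∈ J, phi (g.S j) (g.E i) + (if j ∈ R0 then 0 else 1) ≤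
          phi (g.S j) W := by
        change phi (expo (g.F j)) w0 + ∑ i ∈ J, phi (expo (g.F j)) (g.E i) +
          (if j ∈ R0 then 0 else 1) ≤ phi (expo (g.F j)) W
        split_ifs with hj
        · omega
        · have h4 : phi (expo (g.F j)) W ≠ phi (expo (g.F j)) w0 +
              ∑ i ∈ J, phi (expo (g.F j)) (g.E i) := fun h5 => hj (by
            rw [hR0]
            exact Finset.mem_filter.2 ⟨Finset.mem_univ _, h5⟩)
          omega
      have h4 : ((phi (g.S j) w0 + ∑ i ∈ J, phi (g.S j) (g.E i) +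
        (if j ∈ R0 then 0 else 1) : ℤ) : ℝ) ≤ ((phi (g.S j) W : ℤ) : ℝ) := by exact_mod_cast h3
      push_cast at h4
      exact h4
    have h2 := Finset.sum_le_sum fun j (_ : j ∈ Finset.univ) => h1 j
    rw [Finset.sum_add_distrib, Finset.sum_add_distrib] at h2
    have h3 : ∑ j : Fin r, (if j ∈ R0 then (0 : ℝ) else 1) = (r : ℝ) - R0.card := by
      have h4 : ∀ j : Fin r, (if j ∈ R0 then (0 : ℝ) else 1) = 1 - if j ∈ R0 then (1 : ℝ) else 0 := by
        intro j
        split_ifs <;> norm_num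
      simp only [h4, Finset.sum_sub_distrib, Finset.sum_ite_mem, Finset.univ_inter,
        Finset.sum_const, Finset.card_univ, Fintype.card_fin, nsmul_eq_mul, mul_one]
    rw [h3, Finset.sum_comm] at h2
    exact h2
  have hGG : ∑ k, b.b k * (phi (b.T k) w0 : ℝ) + ∑ i ∈ J, ∑ k, b.b k * (phi (b.T k) (g.E i) : ℝ) +
      (∑ k ∈ KK0, b.b k - K0.card) ≤ ∑ k, b.b k * (phi (b.T k) W : ℝ) := by
    have h1 : ∀ k, b.b k * (phi (b.T k) w0 : ℝ) + ∑ i ∈ J, b.b k * (phi (b.T k) (g.E i) : ℝ) +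
        ((if k ∈ KK0 then b.b k else 0) - (if k ∈ K0 then 1 else 0)) ≤
          b.b k * (phi (b.T k) W : ℝ) := by
      intro k
      have h2 := phi_sum_le (expo_nonempty (b.G0 k)) (E := g.E) J w0
      rw [← hW] at h2
      have h2' : (phi (b.T k) w0 : ℝ) + ∑ i ∈ J, (phi (b.T k) (g.E i) : ℝ) ≤
          (phi (b.T k) W : ℝ) := by exact_mod_cast h2
      have h0 := b.b0 k
      have h1' := hb k
      rw [← Finset.mul_sum, ← mul_add]
      have h3 := mul_le_mul_of_nonneg_left h2' h0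
      by_cases hk : k ∈ KK0
      · rw [if_pos hk]
        by_cases hk' : k ∈ K0
        · rw [if_pos hk']
          linarith
        · rw [if_neg hk']
          have h4 : phi (expo (b.G k)) W ≠ phi (expo (b.G k)) w0 +
              ∑ i ∈ J, phi (expo (b.G k)) (g.E i) := fun h5 => hk' (by
            rw [hK0]
            exact Finset.mem_filter.2 ⟨hk, h5⟩)
          have h5 : phi (expo (b.G k)) w0 + ∑ i ∈ J, phi (expo (b.G k)) (g.E i) + 1 ≤
            phi (expo (b.G k)) W := by omega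
          have h6 : (phi (b.T k) w0 : ℝ) + ∑ i ∈ J, (phi (b.T k) (g.E i) : ℝ) + 1 ≤
            (phi (b.T k) W : ℝ) := by exact_mod_cast h5
          have h7 := mul_le_mul_of_nonneg_left h6 h0
          linarith
      · have hk' : k ∉ K0 := fun h4 => by
          rw [hK0] at h4
          exact hk (Finset.mem_filter.1 h4).1
        rw [if_neg hk, if_neg hk']
        linarith
    have h2 := Finset.sum_le_sum fun k (_ : k ∈ Finset.univ) => h1 k
    rw [Finset.sum_add_distrib, Finset.sum_add_distrib, Finset.sum_sub_distrib] at h2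
    have h3 : ∑ k : Fin s, (if k ∈ KK0 then b.b k else 0) = ∑ k ∈ KK0, b.b k := by
      rw [Finset.sum_ite_mem, Finset.univ_inter]
    have h4 : ∑ k : Fin s, (if k ∈ K0 then (1 : ℝ) else 0) = K0.card := by
      rw [Finset.sum_ite_mem, Finset.univ_inter]
      simp
    rw [h3, h4, Finset.sum_comm] at h2
    exact h2
  have hR : ((J.card : ℝ) + D + R0.card + K0.card) ≤ (d : ℝ) + r := by exact_mod_cast h
  rw [la, la]
  linarith

/-- **The core.** For the closed points `x` near `P`: the log discrepancy of a divisor over `x` is at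
least a toric log discrepancy at a weight in the interior of the cone. -/
theorem core (g : CIGerm r d L) (G : Fin s → MvPolynomial (Fin (d + r)) ℂ)
    (hG : ∀ k, aeval g.y (G k) ≠ 0) (hnd : NDI g G) :
    ∃ f : g.X.R, g.P f ≠ 0 ∧ ∀ x : Pt g.X, x f ≠ 0 → ∀ v, IsOverGerm x v →
      ∀ c, IsCanOrd g.X.T v c → ∀ b : Bdry g s, b.G = G → (∀ k, b.b k ≤ 1) →
        ∃ w', Inn g.E w' ∧ la b.ψ g.S b.T b.b w' ≤ 1 + (c : ℝ) + dot b.ψ (wt g.y v) -
          ∑ k, b.b k * (v.ord (aeval g.y (b.G k)) : ℝ) := by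
  classical
  have hG0 : ∀ k, G k ≠ 0 := fun k h => hG k (by rw [h, map_zero])
  let I0 : Type := {p : Pt g.X × DVal L × ℤ // IsOverGerm p.1 p.2.1 ∧ IsCanOrd g.X.T p.2.1 p.2.2}
  choose K fK aK ξ D hξ hFξ hGξ hchξ hDξ hlow using
    fun i : I0 => lowG G hG i.2.1 i.2.2
  let w : I0 → Fin (d + r) → ℤ := fun i => wt g.y i.1.2.1
  let bad : I0 → Prop := fun i => ∀ σ, aeval (ξ i) (Mnr g G (w i) (KKG g G i.1.2.1) σ) = 0
  let Pat : I0 → (∀ j : Fin r, Finset {t // t ∈ (g.F j).support}) ×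
      (∀ k : Fin s, Finset {t // t ∈ (G k).support}) × Finset (Fin s) × Finset (Fin g.N) ×
      Finset (Fin (d + r)) × Bool := fun i =>
    (fun j => patP (g.F j) (w i), fun k => patP (G k) (w i), KKG g G i.1.2.1, patE g.E (w i), D i,
      decide (bad i))
  have hclass : ∀ τ, ∃ f : g.X.R, g.P f ≠ 0 ∧ ∀ i : I0, Pat i = τ → i.1.1 f ≠ 0 →
      ∀ b : Bdry g s, b.G = G → (∀ k, b.b k ≤ 1) →
        ∃ w', Inn g.E w' ∧ la b.ψ g.S b.T b.b w' ≤ 1 + (i.1.2.2 : ℝ) +
          dot b.ψ (wt g.y i.1.2.1) - ∑ k, b.b k * (i.1.2.1.ord (aeval g.y (b.G k)) : ℝ) := by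
    intro τ
    by_cases hbad : ∃ f : g.X.R, g.P f ≠ 0 ∧ ∀ i : I0, Pat i = τ → i.1.1 f = 0
    · obtain ⟨f, hf, hf'⟩ := hbad
      exact ⟨f, hf, fun i hi hne => absurd (hf' i hi) hne⟩
    push Not at hbad
    refine ⟨1, by rw [map_one]; exact one_ne_zero, fun i0 hi0 _ b hbG hb => ?_⟩
    have hw0 : ∀ m ∈ Cn g.E, 0 ≤ pr m (w i0) := inC_of_over i0.2.1
    subst hbG
    by_cases hInn : Inn g.E (w i0)
    · refine ⟨w i0, hInn, low_real b hb ?_⟩
      obtain ⟨A, hA0, hA, hAc⟩ := i0.2.2.1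
      have h1 := low b (NDI.nondeg hb hnd) hInn A hA0 hA
      rw [hAc] at h1
      exact h1
    have hw0i : ∃ m ∈ Cn g.E, m ≠ 0 ∧ pr m (w i0) = 0 := by
      unfold Inn at hInn
      push Not at hInn
      obtain ⟨m, hm, hm0, hm1⟩ := hInn
      exact ⟨m, hm, hm0, le_antisymm hm1 (hw0 m hm)⟩
    let I : Type := {i : I0 // Pat i = τ}
    have hpF : ∀ i : I, ∀ j, lead (w i.1) (g.F j) = lead (w i0) (g.F j) := by
      intro i j
      refine lead_of_patP ?_
      have h1 := congrArg Prod.fst (i.2.trans hi0.symm)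
      exact congrFun h1 j
    have hpG : ∀ i : I, ∀ k, lead (w i.1) (b.G k) = lead (w i0) (b.G k) := by
      intro i k
      refine lead_of_patP ?_
      have h1 := congrArg (fun x => x.2.1) (i.2.trans hi0.symm)
      exact congrFun h1 k
    have hpK : ∀ i : I, KKG g b.G i.1.1.2.1 = KKG g b.G i0.1.2.1 := by
      intro i
      exact congrArg (fun x => x.2.2.1) (i.2.trans hi0.symm)
    have hpE : ∀ i : I, patE g.E (w i.1) = patE g.E (w i0) := by
      intro i
      exact congrArg (fun x => x.2.2.2.1) (i.2.trans hi0.symm)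
    have hpD : ∀ i : I, D i.1 = D i0 := by
      intro i
      exact congrArg (fun x => x.2.2.2.2.1) (i.2.trans hi0.symm)
    have hpB : ∀ i : I, decide (bad i.1) = decide (bad i0) := by
      intro i
      exact congrArg (fun x => x.2.2.2.2.2) (i.2.trans hi0.symm)
    have hMn : ∀ (i : I) (J J' : Finset (Fin s)), J = J' →
        (∀ σ, aeval (ξ i.1) (Mnr g b.G (w i.1) J σ) = 0) →
        ∀ σ, aeval (ξ i.1) (Mnr g b.G (w i0) J' σ) = 0 := by
      intro i J J' hJ h σ
      subst hJ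
      have h1 : Mnr g b.G (w i0) J σ = Mnr g b.G (w i.1) J σ := by
        unfold Mnr
        simp only [hpF i, hpG i]
      rw [h1]
      exact h σ
    obtain ⟨M, fM, aM, ev, η, hη, hevP, hq, hchar, κ, hκ, hDκ⟩ := ultra g.P
      (fun i : I => i.1.1.1) (fun i => K i.1) (fun i => ξ i.1) (fun i l => hξ i.1 l) (by
        intro f hf
        obtain ⟨i, hi, hi'⟩ := hbad f hf
        exact ⟨⟨i, hi⟩, hi'⟩) (D i0) (by
        intro i
        have h1 := hDξ i.1
        rw [hpD i] at h1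
        exact h1)
    have hFη : ∀ j, aeval η (lead (w i0) (g.F j)) = 0 := fun j => hq _ fun i => by
      rw [← hpF i j]
      exact hFξ i.1 j
    have hGη : ∀ k ∈ KKG g b.G i0.1.2.1, aeval η (lead (w i0) (b.G k)) = 0 := fun k hk =>
      hq _ fun i => by
        rw [← hpG i k]
        exact hGξ i.1 k (by rw [hpK i]; exact hk)
    have hchη : ∀ m ∈ Cn g.E, pr m (w i0) = 0 → ∀ f : g.X.R, (f : L) = ch g.y m →
        ∏ l, η l ^ m l = ev f := fun m hm hmw f hf => hchar m f fun i => hchξ i.1 m hm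
      (orth_of_patE (inC_of_over i.1.2.1) (hpE i).symm hm hmw) f hf
    -- the minors do not vanish
    have hgood : ¬ bad i0 := by
      intro hb0
      refine noBad b.G hG0 hnd hw0 hw0i (KKG g b.G i0.1.2.1) ev η hη hevP hFη hGη hchη κ hκ
        fun σ => hq _ fun i => ?_
      have hbi : bad i.1 := by
        have h1 := hpB i
        rw [decide_eq_true hb0, decide_eq_true_iff] at h1
        exact h1
      exact hMn i _ _ (hpK i) hbi σ
    have hgood' : ∃ σ, aeval (ξ i0) (Mnr g b.G (wt g.y i0.1.2.1) (KKG g b.G i0.1.2.1) σ) ≠ 0 := by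
      by_contra hcon
      push Not at hcon
      exact hgood hcon
    obtain ⟨J, hJ, hcount⟩ := keyJ b.G hG0 hnd hw0 hw0i (KKG g b.G i0.1.2.1) (D i0) ev η hη hevP
      hFη hGη hchη κ hκ hDκ
    refine ⟨_, hJ, (la_rays b hb hcount).trans ?_⟩
    exact lowG_real b hb (hlow i0 hgood')
  choose f hf hf' using hclass
  refine ⟨∏ τ, f τ, ?_, ?_⟩
  · rw [map_prod]
    exact Finset.prod_ne_zero_iff.2 fun τ _ => hf τ
  · intro x hx v hv c hc b hbG hb
    rw [map_prod] at hx
    exact hf' (Pat ⟨(x, v, c), hv, hc⟩) ⟨(x, v, c), hv, hc⟩ rfl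
      (Finset.prod_ne_zero_iff.1 hx _ (Finset.mem_univ _)) b hbG hb

end Pool.Agent.H895.SC
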