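import Mathlib
import Pool.Agent.H895.SC.Core
import Pool.Graph.R_pool_sql_team_seeded_1e53cb71.Helper43K9.LS.Defs

/-!
# Lower semicontinuity at the fixed point
-/

set_option autoImplicit false
set_option linter.unusedVariables false
set_option linter.unusedSectionVars false

namespace Pool.Agent.H895.SC

open Pool.Agent.H436R3.Fol Pool.Agent.H436R3.KT Pool.Agent.W497.Mld MvPolynomial
open Pool.Agent.TH165.ACC (pr ex Prim Cn Hs lead part mldsR pr_add pr_zero pr_sub pr_smul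
  pr_smul_right exists_simplex exists_prim lead_eq Coord)
open Pool.Agent.Helper43K9.NH (ch AA wt Inn expo phi dot ch_ne ch_mem_AA dot_add expo_nonempty
  phi_spec Phi' reg_mul_zpow' phi_expo ord_ch)
open Pool.Agent.Helper43K9.CI (CIGerm)
open Pool.Agent.Helper43K9.CI.RedL
open Pool.Agent.Helper43K9.LS (mld)
open Pool.Agent.Helper58K9.CI (RadoC pr_add_right pr_sum_right dot_sum)
open Pool.Agent.H895.ND

variable {d r s s' n N : ℕ} {L : Type} [Field L] [Algebra ℂ L]

/-- a vector in the interior is a positive combination of all the edges -/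
theorem inn_coord {E : Fin N → Fin n → ℤ} {u : Fin n → ℤ} (hu : Inn E u) :
    ∃ c : Fin N → ℝ, (∀ i, 0 < c i) ∧ Coord E c u := by
  classical
  obtain ⟨M, hM, hM'⟩ := Pool.Agent.Helper43K9.CI.inn n N E u (-∑ i, E i) hu
  obtain ⟨e, a, c, hc, hsum, -⟩ := exists_simplex (E := E) (u := M • u + -∑ i, E i) (InC.of_inn (hM' M le_rfl))
  have hMr : (0 : ℝ) < M := by exact_mod_cast hM
  refine ⟨fun i => (1 + ∑ x, if a x = i then c x else 0) / M, fun i => ?_, fun k => ?_⟩
  · refine div_pos (add_pos_of_pos_of_nonneg one_pos (Finset.sum_nonneg fun x _ => ?_)) hMr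
    split_ifs
    · exact (hc x).le
    · exact le_rfl
  · have h1 := hsum k
    simp only [Pi.add_apply, Pi.smul_apply, Pi.neg_apply, Finset.sum_apply, smul_eq_mul] at h1
    push_cast at h1
    have h2 : ∑ i, (∑ x, if a x = i then c x else 0) * (E i k : ℝ) =
        ∑ x, c x * (E (a x) k : ℝ) := by
      simp only [Finset.sum_mul]
      rw [Finset.sum_comm]
      refine Finset.sum_congr rfl fun x _ => ?_
      rw [Finset.sum_eq_single (a x)]
      · rw [if_pos rfl]
      · intro i _ hi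
        rw [if_neg (Ne.symm hi), zero_mul]
      · intro h
        exact absurd (Finset.mem_univ _) h
    have h3 : ∑ i, (1 + ∑ x, if a x = i then c x else 0) / (M : ℝ) * (E i k : ℝ) =
        (∑ i, (E i k : ℝ) + ∑ i, (∑ x, if a x = i then c x else 0) * (E i k : ℝ)) / M := by
      rw [← Finset.sum_add_distrib, Finset.sum_div]
      refine Finset.sum_congr rfl fun i _ => ?_
      field_simp
    rw [h3, h2, h1]
    field_simp
    ring

/-- the walk to a weight which satisfies the condition of Rado -/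
theorem walk {E : Fin N → Fin n → ℤ} {S : Fin r → Finset (Fin n → ℤ)} (hS : ∀ j, (S j).Nonempty)
    {T : Fin s → Finset (Fin n → ℤ)} (hT : ∀ j, (T j).Nonempty) {b : Fin s → ℝ}
    (hb : ∀ k, 0 ≤ b k) {ψ : Fin n → ℝ} (hE : ∀ i, la ψ S T b (E i) ≤ 1)
    {T' : Fin s' → Finset (Fin n → ℤ)} (hT' : ∀ j, (T' j).Nonempty) {b' : Fin s' → ℝ}
    (hb' : ∀ k, 0 ≤ b' k) {ψ' : Fin n → ℝ} (hE' : ∀ i, la ψ' S T' b' (E i) ≤ 1)
    {Q : Fin n → ℤ} (hQ : ∀ i, 0 < pr Q (E i)) {ε : ℝ} (hε : 0 < ε)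
    (hlow : ∀ u, Inn E u → RadoC S u → ε * (pr Q u : ℝ) ≤ la ψ' S T' b' u)
    {w : Fin n → ℤ} (hw : Inn E w) (hRw : RadoC S w) {u : Fin n → ℤ} (hu : Inn E u) :
    ∃ u', Inn E u' ∧ RadoC S u' ∧ la ψ S T b u' ≤ la ψ S T b u := by
  classical
  have hψ : ∀ v, la (fun j => ψ' j - ε * Q j) S T' b' v = la ψ' S T' b' v - ε * (pr Q v : ℝ) := by
    intro v
    rw [la, la]
    have h1 : dot (fun j => ψ' j - ε * Q j) v = dot ψ' v - ε * (pr Q v : ℝ) := by
      simp only [dot, pr]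
      push_cast
      rw [Finset.mul_sum, ← Finset.sum_sub_distrib]
      exact Finset.sum_congr rfl fun i _ => by ring
    rw [h1]
    ring
  have hlow' : ∀ u, Inn E u → ε * (pr Q u : ℝ) ≤ la ψ' S T' b' u := by
    intro u hu
    have h1 := lc_of_rado (ψ := fun j => ψ' j - ε * Q j) hS hT' hb' ⟨Q, hQ⟩ (fun i => by
      rw [hψ]
      have h2 : (0 : ℝ) ≤ ε * (pr Q (E i) : ℝ) := mul_nonneg hε.le (by exact_mod_cast (hQ i).le)
      linarith [hE' i]) hw hRw (fun u hu hR => by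
      rw [hψ]
      linarith [hlow u hu hR]) u hu
    rw [hψ] at h1
    linarith
  by_contra hno
  push Not at hno
  obtain ⟨cw, hcw, hcow⟩ := inn_coord hw
  have key : ∀ k : ℕ, ∃ u', Inn E u' ∧ la ψ S T b u' ≤ la ψ S T b u ∧
      la ψ' S T' b' u' ≤ la ψ' S T' b' u ∧ pr Q u + k ≤ pr Q u' := by
    intro k
    induction k with
    | zero => exact ⟨u, hu, le_rfl, le_rfl, by simp⟩
    | succ k ih =>
      obtain ⟨u', hu', h1, h2, h3⟩ := ih
      have hR : ¬ RadoC S u' := fun hR => absurd (hno u' hu' hR) (not_lt.2 h1)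
      obtain ⟨cu, hcu, hcou⟩ := inn_coord hu'
      obtain ⟨I, hI, hgr⟩ := step E S hS hcw hcow hcu hcou hRw hR
      refine ⟨u' + ∑ i ∈ I, E i, ?_, ?_, ?_, ?_⟩
      · refine inn_add_inC hu' fun m hm => ?_
        rw [pr_sum_right]
        exact Finset.sum_nonneg fun i _ => hm i
      · have h4 := la_step (ψ := ψ) hS hT hb E u' I hgr
        have h5 : ∑ i ∈ I, (la ψ S T b (E i) - 1) ≤ 0 :=
          Finset.sum_nonpos fun i _ => by linarith [hE i]
        linarith
      · have h4 := la_step (ψ := ψ') hS hT' hb' E u' I hgr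
        have h5 : ∑ i ∈ I, (la ψ' S T' b' (E i) - 1) ≤ 0 :=
          Finset.sum_nonpos fun i _ => by linarith [hE' i]
        linarith
      · rw [pr_add_right, pr_sum_right]
        obtain ⟨i, hi⟩ := hI
        have h4 : pr Q (E i) ≤ ∑ i ∈ I, pr Q (E i) :=
          Finset.single_le_sum (f := fun i => pr Q (E i)) (fun j _ => (hQ j).le) hi
        have h5 := hQ i
        push_cast
        omega
  obtain ⟨k, hk⟩ := exists_nat_gt ((la ψ' S T' b' u - ε * (pr Q u : ℝ)) / ε)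
  obtain ⟨u', hu', -, h2, h3⟩ := key k
  have h4 := hlow' u' hu'
  have h5 : (pr Q u : ℝ) + k ≤ (pr Q u' : ℝ) := by exact_mod_cast h3
  rw [div_lt_iff₀ hε] at hk
  nlinarith

/-- the weights of a valuation with weights in the interior of the cone, for a solution of the
equations in any field -/
theorem rado_wt' {g : CIGerm r d L} {K : Type} [Field K] [Algebra ℂ K] {y : Fin (d + r) → K}
    (hy : ∀ l, y l ≠ 0) (hF0 : ∀ j, aeval y (g.F j) = 0) {v : DVal K}
    (hInn : Inn g.E (wt y v)) : RadoC g.S (wt y v) := by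
  obtain ⟨π, hπ, h1⟩ := v.surj
  obtain ⟨ξ, hξ, hev⟩ := point hy hπ h1
  have hJ : ∀ j, lead (wt y v) (g.F j) ∈ P hy hπ h1 := by
    intro j
    obtain ⟨hm1, hm2⟩ := phi_expo (g.Fne j) (wt y v)
    rw [lead_eq hm1 hm2]
    change v.Pos _
    obtain ⟨h2, h3⟩ := reg_mul_zpow' hy hπ h1 hm2
    rw [hF0, zero_mul] at h3
    have h5 : (Phi' hy hπ h1 (part (wt y v) (phi (expo (g.F j)) (wt y v)) (g.F j)) : K) =
        (-1) * (0 - (Phi' hy hπ h1 (part (wt y v) (phi (expo (g.F j)) (wt y v))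
          (g.F j)) : K)) := by ring
    rw [h5]
    exact v.pos_mul_left (v.reg_neg v.reg_one) h3
  have hind := g.nondeg _ hInn ξ hξ fun j => hev _ (hJ j)
  have hli : LinearIndependent ℂ fun (j : Fin r) (i : Fin (d + r)) =>
      eval ξ (X i * pderiv i (lead (wt y v) (g.F j))) := by
    let D : (Fin (d + r) → ℂ) →ₗ[ℂ] (Fin (d + r) → ℂ) :=
      LinearMap.pi fun i => ξ i • LinearMap.proj i
    have hD : ∀ z i, D z i = ξ i * z i := fun z i => rfl
    have h2 := hind.map' D (by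
      rw [LinearMap.ker_eq_bot']
      intro z hz
      funext i
      have h3 := congrFun hz i
      rw [hD] at h3
      exact (mul_eq_zero.1 h3).resolve_left (hξ i))
    have h3 : (fun (j : Fin r) (i : Fin (d + r)) =>
        eval ξ (X i * pderiv i (lead (wt y v) (g.F j)))) =
        D ∘ fun (j : Fin r) (i : Fin (d + r)) =>
          eval ξ (pderiv i (lead (wt y v) (g.F j))) := by
      funext j i
      rw [Function.comp_apply, hD, map_mul, eval_X]
    rw [h3]
    exact h2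
  exact rado_of_zero g.F g.Fne _ ξ hξ (fun j => hev _ (hJ j)) hli

theorem F_eq_zero (g : CIGerm r d L) (j : Fin r) : aeval g.y (g.F j) = 0 := by
  rw [g.ker]
  refine ⟨0, ?_⟩
  have : (monomial (0 : Fin (d + r) →₀ ℕ) (1 : ℂ)) = 1 := rfl
  rw [this, one_mul]
  exact Ideal.subset_span ⟨j, rfl⟩

/-- there is a weight in the interior of the cone which satisfies the condition of Rado -/
theorem exists_rado (g : CIGerm r d L) (v : DVal L) : ∃ w, Inn g.E w ∧ RadoC g.S w := by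
  classical
  by_cases h : ∃ m ∈ Cn g.E, m ≠ 0
  swap
  · push Not at h
    have h1 : Inn g.E (wt g.y v) := fun m hm hm0 => absurd (h m hm) hm0
    exact ⟨_, h1, rado_wt h1⟩
  obtain ⟨m0, hm0, hm00⟩ := h
  have hmem : ∀ m ∈ Cn g.E, ch g.y m ∈ g.X.R := fun m hm => by
    rw [g.hR]
    exact ch_mem_AA hm
  have hp : (RingHom.ker g.P : Ideal g.X.R).IsPrime := RingHom.ker_isPrime _
  have hp0 : (RingHom.ker g.P : Ideal g.X.R) ≠ ⊥ := by
    intro h0
    have h1 : (⟨ch g.y m0, hmem m0 hm0⟩ : g.X.R) ∈ (RingHom.ker g.P : Ideal g.X.R) := by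
      rw [RingHom.mem_ker]
      exact g.hP _ m0 hm0 hm00 rfl
    rw [h0, Ideal.mem_bot] at h1
    exact ch_ne g.yne m0 (congrArg Subtype.val h1)
  obtain ⟨K, hSK, μ, hZ, hμ⟩ := dv g.X.R g.X.fg _ hp hp0 (Finset.univ.image g.y)
  have hyK : ∀ l, g.y l ∈ K := fun l => hZ _ (Finset.mem_image_of_mem _ (Finset.mem_univ l))
  let y : Fin (d + r) → K := fun l => ⟨g.y l, hyK l⟩
  have hy : ∀ l, y l ≠ 0 := fun l h0 => g.yne l (congrArg Subtype.val h0)
  have hych : ∀ m : Fin (d + r) → ℤ, ((ch y m : K) : L) = ch g.y m := by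
    intro m
    have : ((ch y m : K) : L) = K.val (ch y m) := rfl
    rw [this, ch, map_prod, ch]
    refine Finset.prod_congr rfl fun l _ => ?_
    rw [map_zpow₀]
    rfl
  have hyq : ∀ q : MvPolynomial (Fin (d + r)) ℂ, ((aeval y q : K) : L) = aeval g.y q := by
    intro q
    have h1 : ((aeval y q : K) : L) = K.val (aeval y q) := rfl
    rw [h1, ← AlgHom.comp_apply]
    congr 1
    apply MvPolynomial.algHom_ext
    intro i
    rw [AlgHom.comp_apply, aeval_X, aeval_X]
    rfl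
  have hInn : Inn g.E (wt y μ) := by
    intro m hm hm0
    have h1 : (⟨ch g.y m, hmem m hm⟩ : g.X.R) ∈ (RingHom.ker g.P : Ideal g.X.R) := by
      rw [RingHom.mem_ker]
      exact g.hP _ m hm hm0 rfl
    have h2 := (hμ ⟨ch g.y m, hmem m hm⟩).2.2 h1
    have h3 : (⟨ch g.y m, hSK _ (hmem m hm)⟩ : K) = ch y m := Subtype.ext (hych m).symm
    have h4 : μ.Pos (ch y m) := by
      rw [← h3]
      exact h2
    rw [← ord_ch hy]
    rcases h4 with h4 | h4
    · exact absurd h4 (ch_ne hy _)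
    · exact h4
  refine ⟨_, hInn, rado_wt' hy (fun j => ?_) hInn⟩
  apply Subtype.ext
  rw [hyq, F_eq_zero]
  rfl

/-- `X` is of klt type at `P`: for some boundary of the form `∑ β_i D_i + ∑ b_k H_k` the pair `(X, B)`,
`K_X + B = (K_Y + X_1 + ... + X_r + ∑ β_i D_i + ∑ b_k H_k)|_X`, is klt: the log discrepancies are
bounded from below by a positive multiple of the order of a monomial which vanishes on the boundary
of `Y`. -/
def KltType (g : CIGerm r d L) : Prop :=
  ∃ (s : ℕ) (b : Bdry g s) (ε : ℝ) (Q : Fin (d + r) → ℤ), 0 < ε ∧ (∀ i, 0 < pr Q (g.E i)) ∧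
    ∀ v, IsOverGerm g.P v → ∀ c : ℤ, IsCanOrd g.X.T v c →
      ε * (pr Q (wt g.y v) : ℝ) ≤ 1 + (c : ℝ) + dot b.ψ (wt g.y v) -
        ∑ k, b.b k * (v.ord (aeval g.y (b.G k)) : ℝ)

/-- the divisors over `P` -/
theorem exists_over_P {g : CIGerm r d L} {w : Fin (d + r) → ℤ} (hi : Inn g.E w) (hw : Prim w)
    (hR : RadoC g.S w) : ∃ v, IsOverGerm g.P v ∧ wt g.y v = w ∧
      IsCanOrd g.X.T v (-1 - ∑ j, phi (g.S j) w) := by
  exact Pool.Agent.Helper43K9.CI.exists_over
    (Pool.Agent.Helper43K9.CI.bk Pool.Agent.Helper43K9.CI.opn Pool.Agent.Helper43K9.CI.red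
      Pool.Agent.Helper43K9.CI.lim) Pool.Agent.Helper43K9.CI.lead_ Pool.Agent.Helper43K9.CI.inn
    (Pool.Agent.Helper43K9.CI.div Pool.Agent.Helper43K9.CI.lim Pool.Agent.Helper43K9.CI.evh
      Pool.Agent.Helper43K9.CI.cot Pool.Agent.Helper43K9.CI.trd Pool.Agent.Helper43K9.CI.prm)
    (Pool.Agent.Helper43K9.CI.top Pool.Agent.Helper43K9.CI.idx Pool.Agent.Helper43K9.CI.low)
    hi hw (bern_of_rado hR)

/-- `mld_P ≤ la w` for all the weights in the interior of the cone -/
theorem hmin {g : CIGerm r d L} (hk : KltType g) (b : Bdry g s) {B : EffDiv g.X}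
    {e : LocEq B g.P} (hr : IsRestrAt b e) {m : ℝ} (hm0 : 0 ≤ m)
    (hm : ∀ v, IsOverGerm g.P v → ∀ a, IsLogDisc e v a → m ≤ a) (v : DVal L) (hdr : 0 < d + r) :
    ∀ w, Inn g.E w → m ≤ la b.ψ g.S b.T b.b w := by
  intro w hi
  obtain ⟨s', b', ε, Q, hε, hQ, hlow⟩ := hk
  obtain ⟨w1, hw1, hR1⟩ := exists_rado g v
  have hlow' : ∀ u, Inn g.E u → RadoC g.S u → ε * (pr Q u : ℝ) ≤ la b'.ψ g.S b'.T b'.b u := by
    intro u hi hu
    obtain ⟨k, u', hk0, hu', rfl⟩ := exists_prim (Pool.Agent.Helper43K9.CI.Inn.ne_zero hdr hi)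
    obtain ⟨v, hv, hwt, hc⟩ := exists_over_P (hi.of_smul hk0) hu' ((rado_smul (S_ne g) hk0).1 hu)
    have h1 := hlow v hv _ hc
    rw [hwt] at h1
    have h3 : ∑ k, b'.b k * (phi (b'.T k) u' : ℝ) ≤
        ∑ k, b'.b k * (v.ord (aeval g.y (b'.G k)) : ℝ) :=
      Finset.sum_le_sum fun k _ => mul_le_mul_of_nonneg_left (by
        have := phi_le_ord b' v k
        rw [hwt] at this
        exact_mod_cast this) (b'.b0 k)
    have h2 : ε * (pr Q u' : ℝ) ≤ la b'.ψ g.S b'.T b'.b u' := by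
      rw [la]
      push_cast at h1
      linarith
    rw [la_smul (S_ne g) (T_ne b') hk0.le, pr_smul_right]
    have h3 : (0 : ℝ) ≤ k := by exact_mod_cast hk0.le
    push_cast
    nlinarith [mul_le_mul_of_nonneg_left h2 h3]
  obtain ⟨u, hu, hRu, hle⟩ := walk (S_ne g) (T_ne b) b.b0 (la_edge_le b) (T_ne b') b'.b0
    (la_edge_le b') hQ hε hlow' hw1 hR1 hi
  refine le_trans ?_ hle
  obtain ⟨k, u', hk0, hu', rfl⟩ := exists_prim (Pool.Agent.Helper43K9.CI.Inn.ne_zero hdr hu)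
  obtain ⟨v, a, hv, ha, hle'⟩ := exists_disc b hr (hu.of_smul hk0) hu'
    ((rado_smul (S_ne g) hk0).1 hRu)
  have h1 : m ≤ la b.ψ g.S b.T b.b u' := (hm v hv a ha).trans hle'
  rw [la_smul (S_ne g) (T_ne b) hk0.le]
  have h2 : (1 : ℝ) ≤ k := by exact_mod_cast hk0
  nlinarith

theorem semi {g : CIGerm r d L} (hk : KltType g) {b : Bdry g s} {B : EffDiv g.X}
    {e : LocEq B g.P} (hr : IsRestrAt b e) {x : Pt g.X} {e' : LocEq B x} (hr' : IsRestrAt b e')
    (hx : ∀ v, IsOverGerm x v → ∀ c, IsCanOrd g.X.T v c →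
      ∃ w', Inn g.E w' ∧ la b.ψ g.S b.T b.b w' ≤ 1 + (c : ℝ) + dot b.ψ (wt g.y v) -
        ∑ k, b.b k * (v.ord (aeval g.y (b.G k)) : ℝ)) :
    mld e ≤ mld e' := by
  by_cases hneg : ∃ v a, IsOverGerm g.P v ∧ IsLogDisc e v a ∧ a < 0
  · rw [mld, if_pos hneg]
    exact bot_le
  have hI : mld e = sInf {a : EReal | ∃ v r, IsOverGerm g.P v ∧ IsLogDisc e v r ∧
    a = (r : EReal)} := by rw [mld, if_neg hneg]
  push Not at hneg
  have h0 : 0 ≤ mld e := by
    rw [hI]
    apply le_sInf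
    rintro _ ⟨v, r, hv, hlr, rfl⟩
    exact_mod_cast hneg v r hv hlr
  have key : ∀ v, IsOverGerm x v → ∀ a, IsLogDisc e' v a → mld e ≤ (a : EReal) := by
    rintro v hv a ⟨c, hc, rfl⟩
    obtain ⟨w', hw', hle⟩ := hx v hv c hc
    have hdr : 0 < d + r := by
      by_contra hdr
      have hdr0 : d + r = 0 := by omega
      obtain ⟨π, hπ, h1⟩ := v.surj
      obtain ⟨a, b, ha, hb, hb0, hab⟩ := g.X.frac π
      have hc : ∀ f ∈ g.X.R, f ≠ 0 → v.ord f = 0 := by
        intro f hf hf0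
        have hemp : IsEmpty (Fin (d + r)) := by
          rw [hdr0]
          infer_instance
        have hle : AA g.y (Cn g.E) ≤ ⊥ := by
          rw [AA]
          refine Algebra.adjoin_le ?_
          rintro _ ⟨m, -, rfl⟩
          have h2 : ch g.y m = 1 := by rw [ch, Finset.univ_eq_empty, Finset.prod_empty]
          rw [h2]
          exact one_mem _
        rw [g.hR] at hf
        obtain ⟨c, rfl⟩ := Algebra.mem_bot.1 (hle hf)
        refine v.const c ?_
        rintro rfl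
        exact hf0 (map_zero _)
      have ha0 : a ≠ 0 := by
        rw [← hab]
        exact mul_ne_zero hπ hb0
      have h2 := hc a ha ha0
      rw [← hab, v.map_mul _ _ hπ hb0, h1, hc b hb hb0] at h2
      omega
    rw [hr' v hv]
    by_contra hlt
    push Not at hlt
    obtain ⟨q, hq1, hq2⟩ := EReal.lt_iff_exists_real_btwn.1 hlt
    have h1 : max q 0 ≤ la b.ψ g.S b.T b.b w' := by
      refine hmin hk b hr (le_max_right _ _) (fun v' hv' a' ha' => max_le ?_ (hneg v' a' hv' ha'))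
        v hdr w' hw'
      have h2 : mld e ≤ (a' : EReal) := by
        rw [hI]
        exact sInf_le ⟨v', a', hv', ha', rfl⟩
      exact_mod_cast (hq2.trans_le h2).le
    have h2 := (le_max_left q 0).trans h1
    have h3 : 1 + (c : ℝ) - (-dot b.ψ (wt g.y v) +
      ∑ k, b.b k * (v.ord (aeval g.y (b.G k)) : ℝ)) < q := by exact_mod_cast hq1
    linarith
  by_cases hneg' : ∃ v a, IsOverGerm x v ∧ IsLogDisc e' v a ∧ a < 0
  · obtain ⟨v, a, hv, ha, hlt⟩ := hneg'
    have h1 := h0.trans (key v hv a ha)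
    have h2 : (0 : ℝ) ≤ a := by exact_mod_cast h1
    exact absurd hlt (not_lt.2 h2)
  · have hI' : mld e' = sInf {a : EReal | ∃ v r, IsOverGerm x v ∧ IsLogDisc e' v r ∧
      a = (r : EReal)} := by rw [mld, if_neg hneg']
    rw [hI']
    apply le_sInf
    rintro _ ⟨v, r, hv, hlr, rfl⟩
    exact key v hv r hlr

end Pool.Agent.H895.SC
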