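import Mathlib
import Pool.Agent.H895.SC.Semi
import Pool.Graph.R_pool_sql_team_seeded_1e53cb71.Helper58K9.ET.Asm
import Pool.Graph.R_pool_sql_team_seeded_1e53cb71.Helper58K9.ET.Dens
import Pool.Graph.R_pool_sql_team_seeded_1e53cb71.Helper58K9.ET.Down
import Pool.Graph.R_pool_sql_team_seeded_1e53cb71.Helper58K9.ET.Up
import Pool.Graph.R_pool_sql_team_seeded_1e53cb71.Helper58K9.ET.Extd
import Pool.Graph.R_pool_sql_team_seeded_1e53cb71.Helper58K9.ET.Appr
import Pool.Graph.R_pool_sql_team_seeded_1e53cb71.Helper58K9.ET.Chg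
import Pool.Graph.R_pool_sql_team_seeded_1e53cb71.Helper58K9.ET.Opn
import Pool.Graph.R_pool_sql_team_seeded_1e53cb71.Helper58K9.ET.Refl

/-!
# The étale local version
-/

set_option autoImplicit false
set_option linter.unusedVariables false
set_option linter.unusedSectionVars false

namespace Pool.Agent.H895.SC

open Pool.Agent.H436R3.Fol Pool.Agent.H436R3.KT Pool.Agent.W497.Mld MvPolynomial
open Pool.Agent.Helper43K9.CI (CIGerm)
open Pool.Agent.Helper58K9.AR (mld)
open Pool.Agent.Helper58K9.ET (Common lsc_of_common up down dens frac extd appr chg opn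
  common_refl)
open Pool.Agent.H895.ND (Bdry)

/-- lower semicontinuity at the fixed point -/
theorem lsc_germ {r d s : ℕ} {L : Type} [Field L] [Algebra ℂ L] (g : CIGerm r d L)
    (hk : KltType g) (G : Fin s → MvPolynomial (Fin (d + r)) ℂ)
    (hG : ∀ k, aeval g.y (G k) ≠ 0) (hnd : NDI g G) :
    ∃ f : g.X.R, g.P f ≠ 0 ∧ ∀ x : Pt g.X, x f ≠ 0 →
      ∀ (b : Bdry g s), b.G = G → (∀ k, b.b k ≤ 1) →
      ∀ (B : EffDiv g.X) (e : LocEq B g.P) (e' : LocEq B x),
        IsRestrAt b e → IsRestrAt b e' → mld e ≤ mld e' := by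
  obtain ⟨f, hf, h⟩ := core g G hG hnd
  exact ⟨f, hf, fun x hx b hbG hb B e e' he he' =>
    semi hk he he' fun v hv c hc => h x hx v hv c hc b hbG hb⟩

/-- The pair `(X, B)` is, étale locally at the closed point `x`, a nondegenerate complete intersection
of klt type in an affine toric variety with a nondegenerate boundary. -/
def IsNondegAt {K : Type} [Field K] [Algebra ℂ K] {X : AffVar K} {B : EffDiv X}
    (E : ∀ x : Pt X, LocEq B x) (x : Pt X) : Prop :=
  ∃ (r d s : ℕ) (M : Type) (_ : Field M) (_ : Algebra ℂ M) (g : CIGerm r d M) (b : Bdry g s)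
    (B' : EffDiv g.X) (E' : ∀ y : Pt g.X, LocEq B' y), KltType g ∧ (∀ k, b.b k ≤ 1) ∧
    NDI g b.G ∧ (∀ y, IsRestrAt b (E' y)) ∧ Common E x E' g.P

theorem lsc_et {K : Type} [Field K] [Algebra ℂ K] {X : AffVar K} {B : EffDiv X}
    {E : ∀ x : Pt X, LocEq B x} {x : Pt X} (hx : IsNondegAt E x) :
    ∃ f : X.R, x f ≠ 0 ∧ ∀ x' : Pt X, x' f ≠ 0 → mld (E x) ≤ mld (E x') := by
  obtain ⟨r, d, s, M, _, _, g, b, B', E', hk, hb, hnd, hE', hcom⟩ := hx
  obtain ⟨f, hf, h⟩ := lsc_germ g hk b.G b.Gne hnd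
  exact lsc_of_common up (down dens frac) dens (extd frac) appr chg opn hcom
    ⟨f, hf, fun y hy => h y hy b rfl hb B' (E' g.P) (E' y) (hE' g.P) (hE' y)⟩

/-- the sublevel sets are closed -/
theorem closed_of_lsc {K : Type} [Field K] [Algebra ℂ K] {X : AffVar K} {B : EffDiv X}
    {E : ∀ x : Pt X, LocEq B x}
    (h : ∀ x, ∃ f : X.R, x f ≠ 0 ∧ ∀ x' : Pt X, x' f ≠ 0 → mld (E x) ≤ mld (E x')) (a : EReal) :
    ∃ I : Ideal X.R, ∀ x, mld (E x) ≤ a ↔ ∀ f ∈ I, x f = 0 := by
  refine ⟨Ideal.span {f | ∀ x' : Pt X, x' f ≠ 0 → a < mld (E x')}, fun x => ?_⟩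
  constructor
  · intro hx f hf
    induction hf using Submodule.span_induction with
    | mem f hf =>
      by_contra h0
      exact absurd (hf x h0) (not_lt.2 hx)
    | zero => exact map_zero x
    | add f g _ _ hf hg => rw [map_add, hf, hg, add_zero]
    | smul c f _ hf => rw [smul_eq_mul, map_mul, hf, mul_zero]
  · intro hx
    by_contra hlt
    push Not at hlt
    obtain ⟨f, hf, hf'⟩ := h x
    exact hf (hx f (Ideal.subset_span fun x' hx' => hlt.trans_le (hf' x' hx')))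

end Pool.Agent.H895.SC
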